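import Pool.Agent.W404.FP.DecA
import Pool.Agent.H169R3.FI.Comp

set_option autoImplicit false

namespace Pool.Agent.W404.FP

open Pool.Agent.H395R3.Fim Pool.Agent.H395R4.Rec
open Pool.Agent.H169R3.FI (pp_ball pp_bex pp_eq)

variable {n : ℕ}

/-! ### primitive recursive pieces -/

lemma prim_cat : Primrec₂ (cat : List (List (Lt n)) → ℕ → List (List (Lt n))) := by
  have h : Primrec₂ (fun (Wl : List (List (Lt n))) (L : ℕ) =>
      (Nat.rec (motive := fun _ => List (List (Lt n))) [[]]
        (fun _ IH => [] :: IH.flatMap (fun l => Wl.map (fun c => c ++ l))) L :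
        List (List (Lt n)))) := by
    refine Primrec.nat_rec (f := fun _ : List (List (Lt n)) => [[]])
      (g := fun (Wl : List (List (Lt n))) (z : ℕ × List (List (Lt n))) =>
        [] :: z.2.flatMap (fun l => Wl.map (fun c => c ++ l))) (Primrec.const _) ?_
    refine Primrec.list_cons.comp (Primrec.const _) ?_
    refine Primrec.list_flatMap (Primrec.snd.comp Primrec.snd) ?_
    refine Primrec.list_map (Primrec.fst.comp Primrec.fst) ?_
    exact Primrec.list_append.comp Primrec.snd (Primrec.snd.comp Primrec.fst)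
  refine h.of_eq ?_
  intro Wl L
  induction L with
  | zero => rfl
  | succ L ih =>
    show [] :: (Nat.rec (motive := fun _ => List (List (Lt n))) [[]]
        (fun _ IH => [] :: IH.flatMap (fun l => Wl.map (fun c => c ++ l))) L :
        List (List (Lt n))).flatMap (fun l => Wl.map (fun c => c ++ l)) = _
    rw [ih]
    rfl

lemma prim_subl {α : Type} [Primcodable α] : Primrec (subl : List α → List (List α)) := by
  unfold subl
  refine Primrec.list_foldr (f := fun V : List α => V) (g := fun _ => [[]])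
    (h := fun _ (z : α × List (List α)) => z.2 ++ z.2.map (fun l => z.1 :: l)) Primrec.id
    (Primrec.const _) ?_
  refine Primrec.list_append.comp (Primrec.snd.comp Primrec.snd) ?_
  refine Primrec.list_map (Primrec.snd.comp Primrec.snd) ?_
  exact Primrec.list_cons.comp (Primrec.fst.comp (Primrec.snd.comp Primrec.fst)) Primrec.snd

lemma filter_eq_flatMap (l l' : List (Vx n)) :
    l.filter (fun u => u ∈ l') = l.flatMap (fun u => if u ∈ l' then [u] else []) := by
  induction l with
  | nil => rfl
  | cons a l ih =>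
    rw [List.filter_cons, List.flatMap_cons, ih]
    by_cases h : a ∈ l' <;> simp [h]

lemma prim_filter : Primrec₂ (fun l l' : List (Vx n) => l.filter (fun u => u ∈ l')) := by
  have h : Primrec₂ (fun l l' : List (Vx n) =>
      l.flatMap (fun u => if u ∈ l' then [u] else [])) := by
    refine Primrec.list_flatMap Primrec.fst ?_
    refine Primrec.ite ?_ ?_ (Primrec.const [])
    · exact prim_mem.comp (Primrec.snd.comp Primrec.fst) Primrec.snd
    · exact Primrec.list_cons.comp Primrec.snd (Primrec.const [])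
  exact h.of_eq fun l l' => (filter_eq_flatMap l l').symm

section
variable {α : Type} [Primcodable α] {fW : α → List (List (Lt n))} {fL : α → ℕ}
  {fD : α → List (Vx n)} {fa : α → List (Lt n)} {fv : α → Vx n}

lemma pp_mem {β : Type} [Primcodable β] {f : α → β} {g : α → List β} (hf : Primrec f)
    (hg : Primrec g) : PrimrecPred fun x => f x ∈ g x :=
  prim_mem.comp hg hf

lemma prim_RW (hW : Primrec fW) (hL : Primrec fL) (hD : Primrec fD) (ha : Primrec fa)
    (hv : Primrec fv) : PrimrecPred fun x => RW (fW x) (fL x) (fD x) (fa x) (fv x) := by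
  unfold RW
  refine pp_bex (prim_cat.comp hW hL) ?_
  have ht : Primrec fun z : α × List (Lt n) => trail (z.2 ++ fa z.1) :=
    prim_trail.comp (Primrec.list_append.comp Primrec.snd (ha.comp Primrec.fst))
  refine PrimrecPred.and ?_ ?_
  · exact pp_eq (Primrec.list_headI.comp ht) (hv.comp Primrec.fst)
  · refine pp_ball ht ?_
    exact pp_mem Primrec.snd (hD.comp (Primrec.fst.comp Primrec.fst))

lemma prim_CW (hW : Primrec fW) (hL : Primrec fL) (hD : Primrec fD)
    (hv : Primrec fv) : PrimrecPred fun x => CW (fW x) (fL x) (fD x) (fv x) := by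
  unfold CW
  refine pp_bex (prim_cat.comp hW hL) ?_
  have ht : Primrec fun z : α × List (Lt n) => trail z.2 := prim_trail.comp Primrec.snd
  refine PrimrecPred.and ?_ (PrimrecPred.and ?_ ?_)
  · exact pp_eq (Primrec.list_headI.comp ht) (Primrec.const _)
  · exact pp_mem (hv.comp Primrec.fst) ht
  · refine pp_ball ht ?_
    exact pp_mem Primrec.snd (hD.comp (Primrec.fst.comp Primrec.fst))

/-- the matrix of the decision predicate -/
def DecM (Wl : List (List (Lt n))) (V : List (Vx n)) (L c D : ℕ) (l1 l2 l3 : List (Vx n)) :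
    Prop :=
  [] ∈ l1 ∧ [] ∈ l2 ∧ (∀ v ∈ l1, CW Wl L l1 v) ∧ (∀ v ∈ l2, CW Wl L l2 v) ∧
    (∀ v ∈ l1, v ∉ l2 ∨ v ∈ l3) ∧ (∀ v ∈ l3, v ∈ l1) ∧
    (∀ v ∈ V, ∀ a ∈ Wl, ¬ RW Wl L l3 a v ∨ RW Wl L (l1.filter (fun u => u ∈ l2)) a v) ∧
    ((∃ v ∈ V, RW Wl L l1 [] v ∧ RW Wl L l2 [] v ∧
        ¬ RW Wl L (l1.filter (fun u => u ∈ l2)) [] v) ∨
      ∃ v ∈ V, ∃ a ∈ Wl, RW Wl L (l1 ++ l2) a v ∧ ¬ RW Wl L l1 a v ∧ ¬ RW Wl L l2 a v) ∧
    (∀ v ∈ l1, v ∈ l3 ∨ c + D ≤ v.length) ∧ (∀ v ∈ l2, v ∈ l1 ∨ v.length < D)

variable {fV f1 f2 f3 : α → List (Vx n)} {fc fE : α → ℕ}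

lemma prim_DecM (hW : Primrec fW) (hV : Primrec fV) (hL : Primrec fL) (hc : Primrec fc)
    (hE : Primrec fE) (h1 : Primrec f1) (h2 : Primrec f2) (h3 : Primrec f3) :
    PrimrecPred fun x => DecM (fW x) (fV x) (fL x) (fc x) (fE x) (f1 x) (f2 x) (f3 x) := by
  unfold DecM
  have hfil : Primrec fun x => (f1 x).filter (fun u => u ∈ f2 x) := prim_filter.comp h1 h2
  have happ : Primrec fun x => f1 x ++ f2 x := Primrec.list_append.comp h1 h2
  -- lifting to one and two more variables
  have up : ∀ {β γ : Type} [Primcodable β] [Primcodable γ] {f : α → γ}, Primrec f →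
      Primrec fun z : α × β => f z.1 := fun hf => hf.comp Primrec.fst
  have up2 : ∀ {β γ δ : Type} [Primcodable β] [Primcodable γ] [Primcodable δ] {f : α → γ},
      Primrec f → Primrec fun z : (α × β) × δ => f z.1.1 :=
    fun hf => hf.comp (Primrec.fst.comp Primrec.fst)
  refine PrimrecPred.and (pp_mem (Primrec.const _) h1) ?_
  refine PrimrecPred.and (pp_mem (Primrec.const _) h2) ?_
  refine PrimrecPred.and (pp_ball h1 (prim_CW (up hW) (up hL) (up h1) Primrec.snd)) ?_
  refine PrimrecPred.and (pp_ball h2 (prim_CW (up hW) (up hL) (up h2) Primrec.snd)) ?_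
  refine PrimrecPred.and (pp_ball h1 ?_) ?_
  · exact PrimrecPred.or (PrimrecPred.not (pp_mem Primrec.snd (up h2)))
      (pp_mem Primrec.snd (up h3))
  refine PrimrecPred.and (pp_ball h3 (pp_mem Primrec.snd (up h1))) ?_
  refine PrimrecPred.and (pp_ball hV (pp_ball (up hW) ?_)) ?_
  · exact PrimrecPred.or
      (PrimrecPred.not (prim_RW (up2 hW) (up2 hL) (up2 h3) Primrec.snd
        (Primrec.snd.comp Primrec.fst)))
      (prim_RW (up2 hW) (up2 hL) (up2 hfil) Primrec.snd (Primrec.snd.comp Primrec.fst))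
  refine PrimrecPred.and (PrimrecPred.or (pp_bex hV ?_) (pp_bex hV (pp_bex (up hW) ?_))) ?_
  · refine PrimrecPred.and (prim_RW (up hW) (up hL) (up h1) (Primrec.const _) Primrec.snd) ?_
    refine PrimrecPred.and (prim_RW (up hW) (up hL) (up h2) (Primrec.const _) Primrec.snd) ?_
    exact PrimrecPred.not (prim_RW (up hW) (up hL) (up hfil) (Primrec.const _) Primrec.snd)
  · refine PrimrecPred.and (prim_RW (up2 hW) (up2 hL) (up2 happ) Primrec.snd
      (Primrec.snd.comp Primrec.fst)) ?_
    refine PrimrecPred.and (PrimrecPred.not (prim_RW (up2 hW) (up2 hL) (up2 h1) Primrec.snd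
      (Primrec.snd.comp Primrec.fst))) ?_
    exact PrimrecPred.not (prim_RW (up2 hW) (up2 hL) (up2 h2) Primrec.snd
      (Primrec.snd.comp Primrec.fst))
  refine PrimrecPred.and (pp_ball h1 ?_) (pp_ball h2 ?_)
  · refine PrimrecPred.or (pp_mem Primrec.snd (up h3)) ?_
    exact Primrec.nat_le.comp (prim_add' (up hc) (up hE)) (Primrec.list_length.comp Primrec.snd)
  · refine PrimrecPred.or (pp_mem Primrec.snd (up h1)) ?_
    exact Primrec.nat_lt.comp (Primrec.list_length.comp Primrec.snd) (up hE)

lemma prim_DecP (hW : Primrec fW) (hV : Primrec fV) (hL : Primrec fL) (hc : Primrec fc)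
    (hE : Primrec fE) :
    PrimrecPred fun x => DecP n (fW x) (fV x) (fL x) (fc x) (fE x) := by
  have h : PrimrecPred fun x => ∃ l1 ∈ subl (fV x), ∃ l2 ∈ subl (fV x), ∃ l3 ∈ subl (fV x),
      DecM (fW x) (fV x) (fL x) (fc x) (fE x) l1 l2 l3 := by
    have p1 : Primrec fun z : α × List (Vx n) => z.1 := Primrec.fst
    have p2 : Primrec fun z : (α × List (Vx n)) × List (Vx n) => z.1.1 :=
      Primrec.fst.comp Primrec.fst
    have p3 : Primrec fun z : ((α × List (Vx n)) × List (Vx n)) × List (Vx n) => z.1.1.1 :=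
      Primrec.fst.comp (Primrec.fst.comp Primrec.fst)
    refine pp_bex (prim_subl.comp hV) ?_
    refine pp_bex (prim_subl.comp (hV.comp p1)) ?_
    refine pp_bex (prim_subl.comp (hV.comp p2)) ?_
    exact prim_DecM (hW.comp p3) (hV.comp p3) (hL.comp p3) (hc.comp p3) (hE.comp p3)
      (Primrec.snd.comp (Primrec.fst.comp Primrec.fst)) (Primrec.snd.comp Primrec.fst)
      Primrec.snd
  exact h

end

/-! ### the bounds -/

/-- input lists of generators -/
abbrev Inp (n : ℕ) := List ((Fin n ⊕ Fin n) × List (Fin n ⊕ Fin n))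

/-- word of a generator -/
def wl1 (g : (Fin n ⊕ Fin n) × List (Fin n ⊕ Fin n)) : List (Lt n) := (g.1 :: g.2).map en

/-- all generating words and their inverses -/
def WlG (gens : Inp n) : List (List (Lt n)) :=
  gens.map wl1 ++ gens.map (fun g => winv (wl1 g))

/-- length bound -/
def LB (gens : Inp n) : ℕ := gens.foldl (fun acc g => acc + (g.2.length + 1)) 0 + 1

/-- type bound -/
def cG (gens : Inp n) : ℕ := cO n ((gens.length + gens.length) * LB gens + 1)

/-- vertex list -/
noncomputable def VG (gens : Inp n) : List (Vx n) := words n (2 * cG gens + LB gens - 1)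

lemma prim_wl1 : Primrec (wl1 : (Fin n ⊕ Fin n) × List (Fin n ⊕ Fin n) → List (Lt n)) := by
  unfold wl1
  refine Primrec.list_map (Primrec.list_cons.comp Primrec.fst Primrec.snd) ?_
  exact (Primrec.dom_finite en).comp Primrec.snd

lemma prim_winv : Primrec (winv : List (Lt n) → List (Lt n)) := by
  unfold winv
  refine Primrec.list_reverse.comp (Primrec.list_map Primrec.id ?_)
  exact (Primrec.dom_finite inv).comp Primrec.snd

lemma prim_WlG : Primrec (WlG : Inp n → List (List (Lt n))) := by
  unfold WlG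
  refine Primrec.list_append.comp (Primrec.list_map Primrec.id ?_)
    (Primrec.list_map Primrec.id ?_)
  · exact prim_wl1.comp Primrec.snd
  · exact prim_winv.comp (prim_wl1.comp Primrec.snd)

lemma prim_LB : Primrec (LB : Inp n → ℕ) := by
  unfold LB
  refine prim_add' ?_ (Primrec.const 1)
  refine Primrec.list_foldl (f := fun A : Inp n => A) (g := fun _ : Inp n => 0)
    (h := fun _ (z : ℕ × ((Fin n ⊕ Fin n) × List (Fin n ⊕ Fin n))) =>
      z.1 + (z.2.2.length + 1)) Primrec.id (Primrec.const 0) ?_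
  exact prim_add' (Primrec.fst.comp Primrec.snd) (prim_add' (Primrec.list_length.comp
    (Primrec.snd.comp (Primrec.snd.comp Primrec.snd))) (Primrec.const 1))

lemma prim_cB : Primrec cB := by
  unfold cB
  have h : Primrec (fun m : ℕ => 2 ^ (m * m)) :=
    prim_pow' (Primrec.const 2) (prim_mul' Primrec.id Primrec.id)
  exact prim_mul' (Primrec.const 2) (prim_mul' h (prim_mul' h (prim_mul' h h)))

lemma prim_cA : Primrec cA := by
  unfold cA
  exact prim_mul' (prim_pow' prim_cB (Primrec.const 5)) (Primrec.const _)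

lemma prim_cO : Primrec (cO n) := by
  unfold cO
  exact prim_mul' (prim_pow' (Primrec.const 2) prim_cA) (Primrec.const _)

lemma prim_cG : Primrec (cG : Inp n → ℕ) := by
  unfold cG
  refine prim_cO.comp (prim_add' (prim_mul' ?_ prim_LB) (Primrec.const 1))
  exact prim_add' Primrec.list_length Primrec.list_length

lemma prim_VG : Primrec (VG : Inp n → List (Vx n)) := by
  unfold VG
  refine prim_words.comp (Primrec.nat_sub.comp (prim_add' (prim_mul' (Primrec.const 2) prim_cG)
    prim_LB) (Primrec.const 1))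

lemma foldl_lb (gens : Inp n) (a : ℕ) :
    a ≤ gens.foldl (fun acc g => acc + (g.2.length + 1)) a ∧
    ∀ g ∈ gens, g.2.length + 1 ≤ gens.foldl (fun acc g => acc + (g.2.length + 1)) a := by
  induction gens generalizing a with
  | nil => simp
  | cons e E ih =>
    obtain ⟨h1, h2⟩ := ih (a + (e.2.length + 1))
    rw [List.foldl_cons]
    refine ⟨by omega, fun g hg => ?_⟩
    rcases List.mem_cons.1 hg with rfl | hg
    · omega
    · exact h2 g hg

lemma ws_lt (gens : Inp n) (y : Fin gens.length ⊕ Fin gens.length) :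
    (ws (wE (eG gens)) y).length < LB gens := by
  have h : ∀ i : Fin gens.length, (lw (eG gens i)).length < LB gens := by
    intro i
    have h1 := (foldl_lb gens 0).2 gens[i] (List.getElem_mem _)
    have h2 : (lw (eG gens i)).length = gens[i].2.length + 1 := by
      simp [lw, eG]
    rw [h2]
    unfold LB
    omega
  cases y with
  | inl i => exact h i
  | inr i =>
    show (winv (lw (eG gens i))).length < _
    unfold winv
    rw [List.length_reverse, List.length_map]
    exact h i

lemma mem_WlG (gens : Inp n) (c : List (Lt n)) :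
    c ∈ WlG gens ↔ ∃ y, ws (wE (eG gens)) y = c := by
  unfold WlG
  rw [List.mem_append, List.mem_map, List.mem_map]
  constructor
  · rintro (⟨g, hg, rfl⟩ | ⟨g, hg, rfl⟩)
    · obtain ⟨i, hi, rfl⟩ := List.mem_iff_getElem.1 hg
      exact ⟨Sum.inl ⟨i, hi⟩, rfl⟩
    · obtain ⟨i, hi, rfl⟩ := List.mem_iff_getElem.1 hg
      exact ⟨Sum.inr ⟨i, hi⟩, rfl⟩
  · rintro ⟨y, rfl⟩
    cases y with
    | inl i => exact Or.inl ⟨gens[i], List.getElem_mem _, rfl⟩
    | inr i => exact Or.inr ⟨gens[i], List.getElem_mem _, rfl⟩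

theorem pred_iff_dec (gens : Inp n) : Pred n gens ↔
    ¬ DecP n (WlG gens) (VG gens) (2 * (VG gens).length + 1) (cG gens) (LB gens) := by
  have hLB : 0 < LB gens := by unfold LB; omega
  have hcard : Nat.card (QS gens.length (LB gens)) =
      (gens.length + gens.length) * LB gens + 1 := by
    rw [Nat.card_eq_fintype_card]
    simp
  rw [pred_iff_fpr, ← not_iff_not, not_not,
    main_iff (wE (eG gens)) (L := LB gens) (ws_lt gens) (ws_ne (eG gens)) (LB gens) (cG gens) hLB
      (ws_lt gens) (by rw [hcard]; exact le_rfl)]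
  exact dec_iff (wE (eG gens)) (ws_lt gens) (ws_ne (eG gens)) (mem_WlG gens) (cG gens)
    (LB gens) hLB le_rfl

theorem pred_computable (n : ℕ) : ComputablePred (Pred n) := by
  have h : PrimrecPred (fun gens : Inp n =>
      ¬ DecP n (WlG gens) (VG gens) (2 * (VG gens).length + 1) (cG gens) (LB gens)) :=
    PrimrecPred.not (prim_DecP prim_WlG prim_VG (prim_add' (prim_mul' (Primrec.const 2)
      (Primrec.list_length.comp prim_VG)) (Primrec.const 1)) prim_cG prim_LB)
  have he : (Pred n : Inp n → Prop) = fun gens =>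
      ¬ DecP n (WlG gens) (VG gens) (2 * (VG gens).length + 1) (cG gens) (LB gens) := by
    funext gens
    exact propext (pred_iff_dec gens)
  rw [he]
  exact h.computablePred

end Pool.Agent.W404.FP
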