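import Pool.Agent.W404.FP.TypeA
import Pool.Agent.H395R4.RecG

set_option autoImplicit false

namespace Pool.Agent.W404.FP

open Relation Pool.Agent.H395R3.Fim Pool.Agent.H395R4.Rec

variable {n m : ℕ}

/-- states of the automaton -/
abbrev QS (m L : ℕ) := Option ((Fin m ⊕ Fin m) × Fin L)

variable (w : Fin m → List (Lt n)) {L : ℕ}

/-- being at position `j` of the word of `y` -/
def At (y : Fin m ⊕ Fin m) (j : ℕ) (s : QS m L) : Prop :=
  (j = 0 ∧ s = none) ∨ (0 < j ∧ ∃ h : j < L, s = some (y, ⟨j, h⟩))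

/-- transitions -/
def dl (s : QS m L) (x : Lt n) (s' : QS m L) : Prop :=
  ∃ (y : Fin m ⊕ Fin m) (j : ℕ), (ws w y)[j]? = some x ∧ At y j s ∧
    (At y (j + 1) s' ∨ (j + 1 = (ws w y).length ∧ s' = none))

variable (hL : ∀ y, (ws w y).length < L) (hne : ∀ y, ws w y ≠ [])

include hL in
lemma path_take (y : Fin m ⊕ Fin m) (j : ℕ) (hj : j ≤ (ws w y).length) :
    ∀ s : QS m L, At y j s → Path (dl w) none ((ws w y).take j) s := by
  induction j with
  | zero =>
    rintro s (⟨_, h⟩ | ⟨h, _⟩)
    · rw [List.take_zero, h]; exact rfl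
    · omega
  | succ j ih =>
    intro s hs
    have hj' : j < (ws w y).length := by omega
    have h1 : (ws w y).take (j + 1) = (ws w y).take j ++ [(ws w y)[j]] := by
      rw [List.take_succ_eq_append_getElem hj']
    rw [h1, path_append]
    obtain ⟨s0, hs0⟩ : ∃ s0 : QS m L, At y j s0 := by
      by_cases h0 : j = 0
      · exact ⟨none, Or.inl ⟨h0, rfl⟩⟩
      · exact ⟨some (y, ⟨j, (by have := hL y; omega)⟩), Or.inr ⟨by omega, _, rfl⟩⟩
    exact ⟨s0, ih (by omega) s0 hs0, s, ⟨y, j, by rw [List.getElem?_eq_getElem hj'], hs0,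
      Or.inl hs⟩, rfl⟩

include hL hne in
lemma path_full (y : Fin m ⊕ Fin m) : Path (dl w) (none : QS m L) (ws w y) none := by
  have hlen : 0 < (ws w y).length := List.length_pos_of_ne_nil (hne y)
  obtain ⟨j, hj⟩ : ∃ j, (ws w y).length = j + 1 := ⟨(ws w y).length - 1, by omega⟩
  have hj' : j < (ws w y).length := by omega
  have h1 : ws w y = (ws w y).take j ++ [(ws w y)[j]] := by
    rw [← List.take_succ_eq_append_getElem hj', List.take_of_length_le (by omega)]
  obtain ⟨s0, hs0⟩ : ∃ s0 : QS m L, At y j s0 := by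
    by_cases h0 : j = 0
    · exact ⟨none, Or.inl ⟨h0, rfl⟩⟩
    · exact ⟨some (y, ⟨j, (by have := hL y; omega)⟩), Or.inr ⟨by omega, _, rfl⟩⟩
  have h2 : Path (dl w) (none : QS m L) ((ws w y).take j ++ [(ws w y)[j]]) none := by
    rw [path_append]
    exact ⟨s0, path_take w hL y j (by omega) s0 hs0, none,
      ⟨y, j, by rw [List.getElem?_eq_getElem hj'], hs0, Or.inr ⟨hj.symm, rfl⟩⟩, rfl⟩
  rwa [← h1] at h2

include hL hne in
lemma path_wd (p : List (Fin m ⊕ Fin m)) : Path (dl w) (none : QS m L) (wd w p) none := by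
  induction p with
  | nil => exact rfl
  | cons y p ih =>
    rw [wd_cons, path_append]
    exact ⟨none, path_full w hL hne y, ih⟩

include hL hne in
lemma path_iff_all (l : List (Lt n)) : ∀ s : QS m L, Path (dl w) none l s ↔
    (s = none ∧ ∃ p, l = wd w p) ∨
    ∃ y j, 0 < j ∧ At y j s ∧ j ≤ (ws w y).length ∧ ∃ p, l = wd w p ++ (ws w y).take j := by
  induction l using List.reverseRecOn with
  | nil =>
    intro s
    constructor
    · intro h
      have h' : none = s := h
      exact Or.inl ⟨h'.symm, [], rfl⟩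
    · rintro (⟨h, _⟩ | ⟨y, j, h1, h2, h3, p, h4⟩)
      · rw [h]; exact rfl
      · exfalso
        have h5 := congrArg List.length h4
        simp only [List.length_nil, List.length_append, List.length_take] at h5
        omega
  | append_singleton l x ih =>
    intro s
    constructor
    · intro h
      obtain ⟨s0, h1, s1, ⟨y, j, a1, a2, a3⟩, h3⟩ := (path_append _ _ _ _ _).1 h
      have h3' : s1 = s := h3
      subst h3'
      -- `l` is a product followed by the first `j` letters
      have key : ∃ p, l = wd w p ++ (ws w y).take j := by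
        rcases (ih s0).1 h1 with ⟨b1, p, b2⟩ | ⟨y', j', b1, b2, b3, p, b4⟩
        · rcases a2 with ⟨c1, c2⟩ | ⟨c1, c2, c3⟩
          · exact ⟨p, by rw [c1, List.take_zero, List.append_nil]; exact b2⟩
          · rw [b1] at c3; simp at c3
        · rcases b2 with ⟨d1, d2⟩ | ⟨d1, d2, d3⟩
          · omega
          · rcases a2 with ⟨c1, c2⟩ | ⟨c1, c2, c3⟩
            · rw [c2] at d3; simp at d3
            · rw [d3] at c3
              simp only [Option.some.injEq, Prod.mk.injEq, Fin.mk.injEq] at c3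
              obtain ⟨e1, e2⟩ := c3
              subst e1; subst e2
              exact ⟨p, b4⟩
      obtain ⟨p, hp⟩ := key
      obtain ⟨hjl, hx⟩ := List.getElem?_eq_some_iff.1 a1
      have h5 : l ++ [x] = wd w p ++ (ws w y).take (j + 1) := by
        rw [List.take_succ_eq_append_getElem hjl, hp, hx, List.append_assoc]
      rcases a3 with a3 | ⟨a3, a4⟩
      · exact Or.inr ⟨y, j + 1, by omega, a3, by omega, p, h5⟩
      · left
        refine ⟨a4, p ++ [y], ?_⟩
        rw [h5, wd_append, a3, List.take_length]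
        simp [wd]
    · rintro (⟨h1, p, h2⟩ | ⟨y, j, h1, h2, h3, p, h4⟩)
      · rw [h1, h2]; exact path_wd w hL hne p
      · rw [h4, path_append]
        exact ⟨none, path_wd w hL hne p, path_take w hL y j h3 s h2⟩

/-- final states -/
def fyQ (y : Fin m ⊕ Fin m) : QS m L := some (y, ⟨(ws w y).length, hL y⟩)

include hL hne in
lemma hq0_aut (l : List (Lt n)) :
    Path (dl w) (none : QS m L) l none ↔ ∃ p, l = wd w p := by
  rw [path_iff_all w hL hne]
  constructor
  · rintro (⟨_, h⟩ | ⟨y, j, h1, h2, _⟩)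
    · exact h
    · rcases h2 with ⟨h3, _⟩ | ⟨_, _, h3⟩
      · omega
      · simp at h3
  · intro h; exact Or.inl ⟨rfl, h⟩

include hne in
lemma hF_aut (l : List (Lt n)) (y : Fin m ⊕ Fin m) :
    Path (dl w) (none : QS m L) l (fyQ w hL y) ↔ ∃ p, l = wd w (p ++ [y]) := by
  have h0 : ∀ p, wd w (p ++ [y]) = wd w p ++ ws w y := by
    intro p; rw [wd_append]; simp [wd]
  rw [path_iff_all w hL hne]
  constructor
  · rintro (⟨h, _⟩ | ⟨y', j, h1, h2, h3, p, h4⟩)
    · unfold fyQ at h; simp at h
    · rcases h2 with ⟨h5, _⟩ | ⟨_, h5, h6⟩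
      · omega
      · unfold fyQ at h6
        simp only [Option.some.injEq, Prod.mk.injEq, Fin.mk.injEq] at h6
        obtain ⟨e1, e2⟩ := h6
        subst e1
        refine ⟨p, ?_⟩
        rw [h4, h0, ← e2, List.take_length]
  · rintro ⟨p, h⟩
    right
    have hlen : 0 < (ws w y).length := List.length_pos_of_ne_nil (hne y)
    refine ⟨y, (ws w y).length, hlen, Or.inr ⟨hlen, hL y, rfl⟩, le_rfl, p, ?_⟩
    rw [h, h0, List.take_length]

/-! ### cardinalities -/

instance finBT (Q : Type) [Finite Q] : Finite (BT Q Q) := by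
  let _ : Fintype Q := Fintype.ofFinite Q
  infer_instance

instance finTA (Q : Type) [Finite Q] : Finite (TA Q) := by
  have h : Finite (Fin 5 → BT Q Q) := inferInstance
  infer_instance

instance finTK (n : ℕ) (Q : Type) [Finite Q] : Finite (TK n Q) := by
  have h : Finite (Set (TA Q)) := inferInstance
  have h1 : Finite (Option (Lt n) → Prop) := inferInstance
  have h2 : Finite (Prop × (Option (Lt n) → Prop)) := inferInstance
  have h3 : Finite (Prop × L3') := inferInstance
  have h4 : Finite ((Prop × (Option (Lt n) → Prop)) × (Prop × L3')) := inferInstance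
  exact (inferInstance : Finite (Set (TA Q) × ((Prop × (Option (Lt n) → Prop)) × (Prop × L3'))))

/-- number of base types -/
def cB (M : ℕ) : ℕ := 2 * (2 ^ (M * M) * (2 ^ (M * M) * (2 ^ (M * M) * 2 ^ (M * M))))
/-- number of inner types -/
def cA (M : ℕ) : ℕ := cB M ^ 5 * ((2 * 2) * (2 * 2))
/-- number of outer types -/
def cO (n M : ℕ) : ℕ := 2 ^ cA M * ((2 * 2 ^ (n * 2 + 1)) * (2 * (2 * (2 * 2))))

lemma card_BT (Q : Type) [Finite Q] : Nat.card (BT Q Q) = cB (Nat.card Q) := by
  simp only [BT, Nat.card_prod, card_set, card_prop, cB]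

lemma card_TA (Q : Type) [Finite Q] : Nat.card (TA Q) = cA (Nat.card Q) := by
  have h : Nat.card (Fin 5 → BT Q Q) = cB (Nat.card Q) ^ 5 := by
    rw [Nat.card_fun, card_BT, Nat.card_fin]
  simp only [TA, Nat.card_prod, h, card_prop, cA]

lemma card_TK (n : ℕ) (Q : Type) [Finite Q] : Nat.card (TK n Q) = cO n (Nat.card Q) := by
  have h1 : Nat.card (Option (Lt n) → Prop) = 2 ^ (n * 2 + 1) := by
    rw [Nat.card_eq_fintype_card]
    simp
  rw [Nat.card_prod (Set (TA Q)), card_set, card_TA, cO]
  congr 1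
  simp only [L3', Nat.card_prod, h1, card_prop]

include hne in
/-- bounded form of the criterion -/
theorem main_iff (D c : ℕ) (hD0 : 0 < D) (hD : ∀ y, (ws w y).length < D)
    (hLc : cO n (Nat.card (QS m L)) ≤ c) :
    ¬ FPr (sys w) ↔ ∃ X : Lb n L3', Dep (False, False, False) (2 * c + D) X ∧
      (∀ v, v.length < c + D → ¬ ((X v).1 ∧ ¬ (X v).2.2)) ∧
      (∀ v, D ≤ v.length → ¬ ((X v).2.1 ∧ ¬ (X v).1)) ∧
      SemF (dl w) (none : QS m L) (Set.range (fyQ w hL)) (E1 X) (E2 X) (E3 X) := by
  have hfb : ∀ k : ℕ, {x : FreeGroup (Fin n) | x.norm ≤ k}.Finite := by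
    intro k
    refine Set.Finite.of_finite_image (f := FreeGroup.toWord) ?_
      FreeGroup.toWord_injective.injOn
    refine (List.finite_length_le (Fin n × Bool) k).subset ?_
    rintro l ⟨x, hx, rfl⟩
    exact hx
  have hcr := crit (sys w) FreeGroup.norm FreeGroup.norm_one FreeGroup.norm_mul_le
    (fun x => FreeGroup.norm_inv_eq) hfb (D - 1) (by
      rintro y x ⟨v, hv, rfl⟩
      obtain ⟨i, hi, rfl⟩ := vis_take _ _ hv
      rw [rep_fin_nil]
      have h1 : (FreeGroup.mk ((ws w y).take i) : FreeGroup (Fin n)).norm ≤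
          ((ws w y).take i).length := FreeGroup.norm_mk_le
      have h2 := hD y
      rw [List.length_take] at h1
      omega)
  have hpump := pump (k := n) (R := L3') (α := TK n (QS m L)) (r0 := (False, False, False))
    (fun r => r.1 ∧ ¬ r.2.2) (fun r => r.2.1 ∧ ¬ r.1) (cmp_kp (dl w))
    (GoodT none (Set.range (fyQ w hL))) D c (by rw [card_TK]; exact hLc)
  simp only [goodT_iff] at hpump
  rw [hcr, ← hpump]
  refine forall_congr' fun ρ => ?_
  rw [link w (hq0_aut w hL hne) (hF_aut w hL hne)]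
  constructor
  · rintro ⟨D1, D2, U, f1, f2, hS, far, near⟩
    obtain ⟨d, hd⟩ := ((f1.union f2).image List.length).bddAbove
    refine ⟨fun v => (v ∈ D1, v ∈ D2, v ∈ U), d + 1, ?_, ?_, ?_, hS⟩
    · intro v hv
      have h1 : v ∉ D1 := fun h => by
        have := hd ⟨v, Or.inl h, rfl⟩
        omega
      have h2 : v ∉ D2 := fun h => by
        have := hd ⟨v, Or.inr h, rfl⟩
        omega
      have h3 : v ∉ U := fun h => h1 (hS.ut v h)
      simp only [h1, h2, h3]
    · rintro v hv ⟨h1, h2⟩
      have := far v h1 h2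
      omega
    · rintro v hv ⟨h1, h2⟩
      have := near v h1 h2
      omega
  · rintro ⟨X, d, h1, h2, h3, h4⟩
    have hfin : {v : Vx n | v.length < d}.Finite := List.finite_length_lt _ d
    refine ⟨E1 X, E2 X, E3 X, hfin.subset ?_, hfin.subset ?_, h4, ?_, ?_⟩
    · intro v hv
      by_contra hc
      have h5 := h1 v (not_lt.1 hc)
      have h6 : (X v).1 := hv
      rw [h5] at h6
      exact h6
    · intro v hv
      by_contra hc
      have h5 := h1 v (not_lt.1 hc)
      have h6 : (X v).2.1 := hv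
      rw [h5] at h6
      exact h6
    · intro v hv hv'
      by_contra hc
      exact h2 v (not_le.1 hc) ⟨hv, hv'⟩
    · intro v hv hv'
      by_contra hc
      exact h3 v (by omega) ⟨hv, hv'⟩

end Pool.Agent.W404.FP
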