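import Mathlib

set_option autoImplicit false

namespace Pool.Agent.W404.FP

/-- generators with value and block in a group -/
structure Sys (G Y : Type) [Group G] where
  val : Y → G
  blk : Y → Set G
  bar : Y → Y
  one_mem : ∀ y, (1 : G) ∈ blk y
  val_mem : ∀ y, val y ∈ blk y
  bar_bar : ∀ y, bar (bar y) = y
  val_bar : ∀ y, val (bar y) = (val y)⁻¹
  blk_bar : ∀ y h, h ∈ blk (bar y) ↔ val y * h ∈ blk y

variable {G Y : Type} [Group G] (S : Sys G Y)

/-- value of a word -/
def vl : List Y → G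
  | [] => 1
  | y :: p => S.val y * vl p

/-- support of a word read from `g` -/
def sp : G → List Y → Set G
  | g, [] => {g}
  | g, y :: p => {x | g⁻¹ * x ∈ S.blk y} ∪ sp (g * S.val y) p

/-- inverse word -/
def iv (p : List Y) : List Y := (p.map S.bar).reverse

@[simp] lemma vl_nil : vl S [] = 1 := rfl
@[simp] lemma vl_cons (y : Y) (p : List Y) : vl S (y :: p) = S.val y * vl S p := rfl
@[simp] lemma vl_append (p q : List Y) : vl S (p ++ q) = vl S p * vl S q := by
  induction p with
  | nil => simp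
  | cons y p ih => simp [ih, mul_assoc]

@[simp] lemma iv_nil : iv S [] = [] := rfl
@[simp] lemma iv_cons (y : Y) (p : List Y) : iv S (y :: p) = iv S p ++ [S.bar y] := by
  simp [iv]
@[simp] lemma iv_append (p q : List Y) : iv S (p ++ q) = iv S q ++ iv S p := by
  simp [iv]
@[simp] lemma iv_iv (p : List Y) : iv S (iv S p) = p := by
  simp [iv, List.map_reverse, Function.comp_def, S.bar_bar]
@[simp] lemma vl_iv (p : List Y) : vl S (iv S p) = (vl S p)⁻¹ := by
  induction p with
  | nil => simp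
  | cons y p ih => simp [ih, S.val_bar]

lemma sp_nil (g : G) : sp S g [] = {g} := rfl
lemma sp_cons (g : G) (y : Y) (p : List Y) :
    sp S g (y :: p) = {x | g⁻¹ * x ∈ S.blk y} ∪ sp S (g * S.val y) p := rfl

lemma start_mem (g : G) (p : List Y) : g ∈ sp S g p := by
  cases p with
  | nil => exact rfl
  | cons y p => left; simpa using S.one_mem y

lemma end_mem (g : G) (p : List Y) : g * vl S p ∈ sp S g p := by
  induction p generalizing g with
  | nil => simp [sp_nil]
  | cons y p ih =>
    right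
    have := ih (g * S.val y)
    simpa [mul_assoc] using this

lemma sp_append (g : G) (p q : List Y) :
    sp S g (p ++ q) = sp S g p ∪ sp S (g * vl S p) q := by
  induction p generalizing g with
  | nil =>
    simp only [List.nil_append, vl_nil, mul_one, sp_nil]
    ext x
    constructor
    · intro h; exact Or.inr h
    · rintro (h | h)
      · rw [Set.mem_singleton_iff] at h
        rw [h]; exact start_mem S g q
      · exact h
  | cons y p ih =>
    rw [List.cons_append, sp_cons, ih, sp_cons, vl_cons, Set.union_assoc, mul_assoc]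

lemma sp_single (g : G) (y : Y) : sp S g [y] = {x | g⁻¹ * x ∈ S.blk y} := by
  rw [sp_cons, sp_nil]
  ext x
  constructor
  · rintro (h | h)
    · exact h
    · rw [Set.mem_singleton_iff] at h
      rw [h]
      simpa using S.val_mem y
  · intro h; exact Or.inl h

lemma sp_trans (a g : G) (p : List Y) (x : G) : x ∈ sp S (a * g) p ↔ a⁻¹ * x ∈ sp S g p := by
  induction p generalizing g with
  | nil =>
    simp only [sp_nil, Set.mem_singleton_iff]
    constructor
    · intro h; rw [h]; group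
    · intro h; rw [← h]; group
  | cons y p ih =>
    rw [sp_cons, sp_cons, Set.mem_union, Set.mem_union, mul_assoc, ih]
    simp only [Set.mem_ofPred_eq, mul_inv_rev, mul_assoc]

lemma mem_sp (g : G) (p : List Y) (x : G) : x ∈ sp S g p ↔ g⁻¹ * x ∈ sp S 1 p := by
  have := sp_trans S g 1 p x
  rwa [mul_one] at this

lemma sp_iv (g : G) (p : List Y) : sp S (g * vl S p) (iv S p) = sp S g p := by
  induction p generalizing g with
  | nil => simp [sp_nil]
  | cons y p ih =>
    have h1 : g * vl S (y :: p) = (g * S.val y) * vl S p := by simp [mul_assoc]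
    rw [iv_cons, h1, sp_append, ih, vl_iv, sp_single, sp_cons S g y p, Set.union_comm]
    congr 1
    ext x
    simp only [Set.mem_ofPred_eq, S.blk_bar]
    have : S.val y * ((g * S.val y * vl S p * (vl S p)⁻¹)⁻¹ * x) = g⁻¹ * x := by group
    rw [this]

/-- same value and support -/
def K (p q : List Y) : Prop := vl S p = vl S q ∧ sp S 1 p = sp S 1 q

lemma K.sp {S : Sys G Y} {p q : List Y} (h : K S p q) (g : G) : sp S g p = sp S g q := by
  ext x
  rw [mem_sp, mem_sp S g q, h.2]

/-- conflicts do not occur -/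
def NoConf (T1 T2 : Set G) : Prop :=
  (∀ p q, sp S 1 p ⊆ T1 → sp S 1 q ⊆ T2 → vl S p = vl S q →
    ∃ s, sp S 1 s ⊆ T1 ∩ T2 ∧ vl S s = vl S p) ∧
  (∀ p y, sp S 1 (p ++ [y]) ⊆ T1 ∪ T2 →
    (∃ q, vl S q = vl S p ∧ sp S 1 (q ++ [y]) ⊆ T1) ∨
    (∃ q, vl S q = vl S p ∧ sp S 1 (q ++ [y]) ⊆ T2))

/-- representations of words -/
structure Rep {Q : Type} [Monoid Q] (c : List Y → Q) : Prop where
  nil : c [] = 1
  app : ∀ p q, c (p ++ q) = c p * c q
  w1 : ∀ p, c p * c (iv S p) * c p = c p
  w2 : ∀ p q, c p * c (iv S p) * (c q * c (iv S q)) = c q * c (iv S q) * (c p * c (iv S p))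

/-- the relation `K` is a consequence of its short instances -/
def FPr : Prop := ∃ r : ℕ, ∀ (Q : Type) [Monoid Q] (c : List Y → Q), Rep S c →
  (∀ p q, p.length ≤ r → q.length ≤ r → K S p q → c p = c q) → ∀ p q, K S p q → c p = c q

section first

variable {S} {Q : Type} [Monoid Q] {c : List Y → Q}

/-- all parallel paths are identified after `w` -/
def PP (S : Sys G Y) (c : List Y → Q) (w : List Y) : Prop :=
  ∀ h h', sp S (vl S w) h ⊆ sp S 1 w → sp S (vl S w) h' ⊆ sp S 1 w → vl S h = vl S h' →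
    c w * c h = c w * c h'

lemma PP.idem (hc : Rep S c) {w : List Y} (hw : PP S c w) (u h h' : List Y)
    (h1 : sp S (vl S w) h ⊆ sp S 1 w) (h2 : sp S (vl S w) h' ⊆ sp S 1 w)
    (h3 : vl S h = vl S h') :
    c w * (c u * c (iv S u)) * c h = c w * (c u * c (iv S u)) * c h' := by
  have e1 : ∀ h : List Y, c w * (c u * c (iv S u)) * c h =
      c w * (c u * c (iv S u)) * c (iv S w) * (c w * c h) := by
    intro h
    have h4 := hc.w2 (iv S w) u
    rw [iv_iv] at h4
    calc c w * (c u * c (iv S u)) * c h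
        = c w * c (iv S w) * c w * (c u * c (iv S u)) * c h := by rw [hc.w1]
      _ = c w * (c (iv S w) * c w * (c u * c (iv S u))) * c h := by simp only [mul_assoc]
      _ = c w * (c u * c (iv S u) * (c (iv S w) * c w)) * c h := by rw [h4]
      _ = _ := by simp only [mul_assoc]
  rw [e1 h, e1 h', hw h h' h1 h2 h3]

/-- gluing -/
lemma glue {T1 T2 : Set G} {e : Q} (hno : NoConf S T1 T2) (o1 : (1 : G) ∈ T1)
    (o2 : (1 : G) ∈ T2) (hc : Rep S c)
    (h1 : ∀ q q', sp S 1 q ⊆ T1 → sp S 1 q' ⊆ T1 → vl S q = vl S q' → e * c q = e * c q')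
    (h2 : ∀ q q', sp S 1 q ⊆ T2 → sp S 1 q' ⊆ T2 → vl S q = vl S q' → e * c q = e * c q')
    (q : List Y) (hq : sp S 1 q ⊆ T1 ∪ T2) :
    (∀ h, sp S 1 h ⊆ T1 → vl S h = vl S q → e * c q = e * c h) ∧
    (∀ h, sp S 1 h ⊆ T2 → vl S h = vl S q → e * c q = e * c h) ∧
    (∃ h, (sp S 1 h ⊆ T1 ∨ sp S 1 h ⊆ T2) ∧ vl S h = vl S q) := by
  induction q using List.reverseRecOn with
  | nil =>
    have n1 : sp S 1 [] ⊆ T1 := by rw [sp_nil]; simpa using o1
    have n2 : sp S 1 [] ⊆ T2 := by rw [sp_nil]; simpa using o2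
    exact ⟨fun h a b => h1 _ _ n1 a b.symm, fun h a b => h2 _ _ n2 a b.symm,
      [], Or.inl n1, rfl⟩
  | append_singleton q y ih =>
    have hq' : sp S 1 q ⊆ T1 ∪ T2 := by
      rw [sp_append] at hq
      exact Set.subset_union_left.trans hq
    obtain ⟨i1, i2, _⟩ := ih hq'
    rcases hno.2 q y hq with ⟨q1, a1, a2⟩ | ⟨q1, a1, a2⟩
    · have b1 : sp S 1 q1 ⊆ T1 := by
        rw [sp_append] at a2
        exact Set.subset_union_left.trans a2
      have e1 : e * c (q ++ [y]) = e * c (q1 ++ [y]) := by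
        rw [hc.app, hc.app, ← mul_assoc, ← mul_assoc, i1 q1 b1 a1]
      have e2 : vl S (q1 ++ [y]) = vl S (q ++ [y]) := by simp [a1]
      refine ⟨fun h b c' => ?_, fun h b c' => ?_, q1 ++ [y], Or.inl a2, e2⟩
      · rw [e1]; exact h1 _ _ a2 b (e2.trans c'.symm)
      · obtain ⟨s, s1, s2⟩ := hno.1 (q1 ++ [y]) h a2 b (e2.trans c'.symm)
        rw [e1, h1 _ s a2 (s1.trans Set.inter_subset_left) s2.symm,
          h2 s h (s1.trans Set.inter_subset_right) b (s2.trans (e2.trans c'.symm))]
    · have b1 : sp S 1 q1 ⊆ T2 := by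
        rw [sp_append] at a2
        exact Set.subset_union_left.trans a2
      have e1 : e * c (q ++ [y]) = e * c (q1 ++ [y]) := by
        rw [hc.app, hc.app, ← mul_assoc, ← mul_assoc, i2 q1 b1 a1]
      have e2 : vl S (q1 ++ [y]) = vl S (q ++ [y]) := by simp [a1]
      refine ⟨fun h b c' => ?_, fun h b c' => ?_, q1 ++ [y], Or.inr a2, e2⟩
      · obtain ⟨s, s1, s2⟩ := hno.1 h (q1 ++ [y]) b a2 (c'.trans e2.symm)
        rw [e1, h2 _ s a2 (s1.trans Set.inter_subset_right) (e2.trans (c'.symm.trans s2.symm)),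
          h1 s h (s1.trans Set.inter_subset_left) b s2]
      · rw [e1]; exact h2 _ _ a2 b (e2.trans c'.symm)

end first

end Pool.Agent.W404.FP
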