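import Pool.Agent.W404.FP.CritA

set_option autoImplicit false

namespace Pool.Agent.W404.FP

variable {G Y : Type} [Group G] (S : Sys G Y)

lemma bound_of_finite {α : Type} {s : Set α} (hs : s.Finite) (f : α → ℕ) :
    ∃ N, ∀ a ∈ s, f a ≤ N := by
  obtain ⟨N, hN⟩ := (hs.image f).bddAbove
  exact ⟨N, fun a ha => hN ⟨a, ha, rfl⟩⟩

lemma sp_finite (hf : ∀ y, (S.blk y).Finite) (g : G) (p : List Y) : (sp S g p).Finite := by
  induction p generalizing g with
  | nil => exact Set.finite_singleton g
  | cons y p ih =>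
    refine Set.Finite.union ?_ (ih _)
    exact Set.Finite.preimage (f := fun x => g⁻¹ * x) (mul_right_injective _).injOn (hf y)

lemma exists_max {A : Set G} (hA : A.Finite) (h1 : (1 : G) ∈ A) :
    ∃ z, vl S z = 1 ∧ sp S 1 z ⊆ A ∧
      ∀ z', vl S z' = 1 → sp S 1 z' ⊆ A → sp S 1 z' ⊆ sp S 1 z := by
  have hfin : {V : Set G | ∃ z, vl S z = 1 ∧ sp S 1 z ⊆ A ∧ V = sp S 1 z}.Finite :=
    hA.finite_subsets.subset (by rintro V ⟨z, _, h, rfl⟩; exact h)
  have hne : {V : Set G | ∃ z, vl S z = 1 ∧ sp S 1 z ⊆ A ∧ V = sp S 1 z}.Nonempty :=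
    ⟨_, [], rfl, by rw [sp_nil]; simpa using h1, rfl⟩
  obtain ⟨V, ⟨z, z1, z2, rfl⟩, hmax⟩ := Set.exists_max_image _ Set.ncard hfin hne
  refine ⟨z, z1, z2, fun z' a1 a2 => ?_⟩
  have h3 := hmax (sp S 1 (z ++ z')) ⟨z ++ z', by simp [z1, a1], by
    rw [sp_append, z1, mul_one]; exact Set.union_subset z2 a2, rfl⟩
  have h4 : sp S 1 z ⊆ sp S 1 (z ++ z') := by
    rw [sp_append]; exact Set.subset_union_left
  have h5 : (sp S 1 (z ++ z')).Finite := hA.subset (by
    rw [sp_append, z1, mul_one]; exact Set.union_subset z2 a2)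
  have h6 := Set.eq_of_subset_of_ncard_le h4 h3 h5
  rw [h6, sp_append, z1, mul_one]
  exact Set.subset_union_right

theorem crit1 [Finite Y] (hf : ∀ y, (S.blk y).Finite) {B : Set G} (hB : B.Finite)
    (h1B : (1 : G) ∈ B)
    (hno : ∀ z, vl S z = 1 → ∀ b z', vl S z' = 1 → sp S 1 z' ⊆ sp S 1 z ∩ B →
      (∀ z'', vl S z'' = 1 → sp S 1 z'' ⊆ sp S 1 z ∩ B → sp S 1 z'' ⊆ sp S 1 z') →
      NoConf S (sp S 1 z) (sp S 1 (z' ++ [b, S.bar b]))) : FPr S := by
  classical
  have hz : ∀ A : Set G, ∃ z, A ⊆ B → (1 : G) ∈ A → (vl S z = 1 ∧ sp S 1 z ⊆ A ∧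
      ∀ z', vl S z' = 1 → sp S 1 z' ⊆ A → sp S 1 z' ⊆ sp S 1 z) := by
    intro A
    by_cases h : A ⊆ B ∧ (1 : G) ∈ A
    · obtain ⟨z, hz⟩ := exists_max S (hB.subset h.1) h.2
      exact ⟨z, fun _ _ => hz⟩
    · exact ⟨[], fun a b => absurd ⟨a, b⟩ h⟩
  choose zA hzA using hz
  have hg : ∀ (A : Set G) (b : Y) (x : G), ∃ g,
      (∃ h, sp S 1 h ⊆ sp S 1 (zA A ++ [b, S.bar b]) ∧ vl S h = x) →
      (sp S 1 g ⊆ sp S 1 (zA A ++ [b, S.bar b]) ∧ vl S g = x) := by
    intro A b x
    by_cases h : ∃ h, sp S 1 h ⊆ sp S 1 (zA A ++ [b, S.bar b]) ∧ vl S h = x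
    · obtain ⟨g, hg⟩ := h
      exact ⟨g, fun _ => hg⟩
    · exact ⟨[], fun a => absurd a h⟩
  choose gA hgA using hg
  have hN1 : ∀ (A : Set G) (b : Y), ∃ N, ∀ x ∈ sp S 1 (zA A ++ [b, S.bar b]),
      (gA A b x).length ≤ N := fun A b => bound_of_finite (sp_finite S hf 1 _) _
  choose N1 hN1 using hN1
  have hN2 : ∀ A : Set G, ∃ N, ∀ b ∈ (Set.univ : Set Y), N1 A b ≤ N :=
    fun A => bound_of_finite Set.finite_univ _
  choose N2 hN2 using hN2
  obtain ⟨N3, hN3⟩ := bound_of_finite hB.finite_subsets N2
  obtain ⟨N4, hN4⟩ := bound_of_finite hB.finite_subsets (fun A => (zA A).length)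
  have hgl : ∀ (A : Set G) (b : Y) (x : G), A ⊆ B → x ∈ sp S 1 (zA A ++ [b, S.bar b]) →
      (gA A b x).length ≤ N3 := fun A b x hA hx =>
    (hN1 A b x hx).trans ((hN2 A b (Set.mem_univ b)).trans (hN3 A hA))
  refine ⟨N3 + N4 + 3, ?_⟩
  intro Q _ c hc hK
  -- local relations
  have hloc : ∀ (A : Set G) (b : Y), A ⊆ B → (1 : G) ∈ A → ∀ q,
      sp S 1 q ⊆ sp S 1 (zA A ++ [b, S.bar b]) →
      c (zA A ++ [b, S.bar b]) * c q = c (zA A ++ [b, S.bar b]) * c (gA A b (vl S q)) := by
    intro A b hA h1 q
    obtain ⟨z1, z2, z3⟩ := hzA A hA h1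
    have z4 : vl S (zA A ++ [b, S.bar b]) = 1 := by simp [z1, S.val_bar]
    have z5 : (zA A ++ [b, S.bar b]).length ≤ N4 + 2 := by
      have := hN4 A hA
      simp only [List.length_append, List.length_cons, List.length_nil]
      omega
    -- absorbing
    have habs : ∀ u v, sp S 1 u ⊆ sp S 1 (zA A ++ [b, S.bar b]) →
        sp S 1 v ⊆ sp S 1 (zA A ++ [b, S.bar b]) → vl S u = vl S v → u.length ≤ N3 + 1 →
        v.length ≤ N3 + 1 →
        c (zA A ++ [b, S.bar b]) * c u = c (zA A ++ [b, S.bar b]) * c v := by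
      intro u v a1 a2 a3 a4 a5
      rw [← hc.app, ← hc.app]
      apply hK
      · rw [List.length_append]; omega
      · rw [List.length_append]; omega
      · refine ⟨by rw [vl_append S (zA A ++ [b, S.bar b]) u,
          vl_append S (zA A ++ [b, S.bar b]) v, a3], ?_⟩
        rw [sp_append S 1 (zA A ++ [b, S.bar b]) u, sp_append S 1 (zA A ++ [b, S.bar b]) v, z4,
          mul_one, Set.union_eq_self_of_subset_right a1,
          Set.union_eq_self_of_subset_right a2]
    induction q using List.reverseRecOn with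
    | nil =>
      intro hq
      obtain ⟨g1, g2⟩ := hgA A b (vl S []) ⟨[], hq, rfl⟩
      refine habs _ _ hq g1 g2.symm (by simp) ?_
      have := hgl A b (vl S []) hA (start_mem S 1 _)
      omega
    | append_singleton q y ih =>
      intro hq
      have hq1 : sp S 1 q ⊆ sp S 1 (zA A ++ [b, S.bar b]) := by
        rw [sp_append] at hq
        exact Set.subset_union_left.trans hq
      have hq2 : sp S (1 * vl S q) [y] ⊆ sp S 1 (zA A ++ [b, S.bar b]) := by
        rw [sp_append] at hq
        exact Set.subset_union_right.trans hq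
      obtain ⟨g1, g2⟩ := hgA A b (vl S q) ⟨q, hq1, rfl⟩
      obtain ⟨g3, g4⟩ := hgA A b (vl S (q ++ [y])) ⟨_, hq, rfl⟩
      rw [hc.app q, ← mul_assoc, ih hq1, mul_assoc, ← hc.app]
      refine habs _ _ ?_ g3 ?_ ?_ ?_
      · rw [sp_append, g2]
        exact Set.union_subset g1 hq2
      · rw [g4, vl_append, vl_append, g2]
      · have := hgl A b (vl S q) hA (hq1 (by simpa using end_mem S 1 q))
        simp only [List.length_append, List.length_cons, List.length_nil]
        omega
      · have := hgl A b (vl S (q ++ [y])) hA (hq (by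
          have := end_mem S 1 (q ++ [y])
          rwa [one_mul] at this))
        omega
  -- all words
  have hPP : ∀ w, PP S c w := by
    intro w
    induction w using List.reverseRecOn with
    | nil =>
      have h0 : ∀ h : List Y, sp S 1 h ⊆ {1} → c h = 1 := by
        intro h
        induction h with
        | nil => intro _; exact hc.nil
        | cons y h ih =>
          intro hh
          rw [sp_cons] at hh
          have a1 : S.val y = 1 := by
            have : S.val y ∈ ({1} : Set G) := hh (Or.inl (by simpa using S.val_mem y))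
            simpa using this
          have a2 : sp S 1 [y] = sp S 1 [] := by
            rw [sp_single, sp_nil]
            apply Set.Subset.antisymm (Set.subset_union_left.trans hh)
            intro x hx
            rw [Set.mem_singleton_iff] at hx
            rw [hx]
            simpa using S.one_mem y
          have a3 : c [y] = 1 := by
            rw [← hc.nil]
            exact hK _ _ (by simp) (by simp) ⟨by simp [a1], a2⟩
          have a4 : c (y :: h) = c [y] * c h := hc.app [y] h
          rw [a4, a3, one_mul]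
          apply ih
          have := Set.subset_union_right.trans hh
          rwa [a1, mul_one] at this
      intro h h' a1 a2 _
      rw [vl_nil, sp_nil] at a1 a2
      rw [h0 h a1, h0 h' a2]
    | append_singleton w b ih =>
      -- rebase at the end of `w`
      set T1 : Set G := sp S 1 (iv S w ++ w) with hT1
      have hbase : ∀ x, x ∈ T1 ↔ vl S w * x ∈ sp S 1 w := by
        intro x
        rw [hT1, sp_append, vl_iv, one_mul]
        have e1 : sp S 1 (iv S w) = sp S (vl S w)⁻¹ w := by
          have := sp_iv S (vl S w)⁻¹ w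
          rwa [inv_mul_cancel] at this
        rw [e1, Set.union_self, mem_sp S _ w, inv_inv]
      have hz1 : vl S (iv S w ++ w) = 1 := by simp
      set A : Set G := T1 ∩ B with hA
      have hAB : A ⊆ B := Set.inter_subset_right
      have h1T : (1 : G) ∈ T1 := start_mem S 1 _
      have h1A : (1 : G) ∈ A := ⟨h1T, h1B⟩
      obtain ⟨z1, z2, z3⟩ := hzA A hAB h1A
      have hN := hno (iv S w ++ w) hz1 b (zA A) z1 z2 z3
      -- first family
      have hT1sub : ∀ q, sp S 1 q ⊆ T1 → sp S (vl S w) q ⊆ sp S 1 w := by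
        intro q hq x hx
        rw [mem_sp] at hx
        have := (hbase _).1 (hq hx)
        rwa [mul_inv_cancel_left] at this
      have f1 : ∀ q q', sp S 1 q ⊆ T1 → sp S 1 q' ⊆ T1 → vl S q = vl S q' →
          c w * (c [b] * c (iv S [b])) * c q = c w * (c [b] * c (iv S [b])) * c q' :=
        fun q q' a1 a2 a3 => ih.idem hc [b] q q' (hT1sub q a1) (hT1sub q' a2) a3
      -- second family
      have hw : c w = c w * c (zA A) := by
        have := ih (zA A) [] (hT1sub _ (z2.trans Set.inter_subset_left))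
          (hT1sub _ (by rw [sp_nil]; simpa using h1T)) z1
        rw [this, hc.nil, mul_one]
      have hz4 : c (zA A ++ [b, S.bar b]) = c (zA A) * (c [b] * c (iv S [b])) := by
        rw [hc.app]
        congr 1
        exact hc.app [b] [S.bar b]
      have f2 : ∀ q q', sp S 1 q ⊆ sp S 1 (zA A ++ [b, S.bar b]) →
          sp S 1 q' ⊆ sp S 1 (zA A ++ [b, S.bar b]) → vl S q = vl S q' →
          c w * (c [b] * c (iv S [b])) * c q = c w * (c [b] * c (iv S [b])) * c q' := by
        intro q q' a1 a2 a3
        have e1 : ∀ q, c w * (c [b] * c (iv S [b])) * c q =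
            c w * (c (zA A ++ [b, S.bar b]) * c q) := by
          intro q
          rw [hz4]
          conv_lhs => rw [hw]
          simp only [mul_assoc]
        rw [e1, e1, hloc A b hAB h1A q a1, hloc A b hAB h1A q' a2, a3]
      have hglue := glue hN h1T (start_mem S 1 _) hc f1 f2
      have hfin : ∀ q q', sp S 1 q ⊆ T1 ∪ sp S 1 (zA A ++ [b, S.bar b]) →
          sp S 1 q' ⊆ T1 ∪ sp S 1 (zA A ++ [b, S.bar b]) → vl S q = vl S q' →
          c w * (c [b] * c (iv S [b])) * c q = c w * (c [b] * c (iv S [b])) * c q' := by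
        intro q q' a1 a2 a3
        obtain ⟨i1, i2, h, i3, i4⟩ := hglue q a1
        obtain ⟨j1, j2, _⟩ := hglue q' a2
        rcases i3 with i3 | i3
        · rw [i1 h i3 i4, j1 h i3 (i4.trans a3)]
        · rw [i2 h i3 i4, j2 h i3 (i4.trans a3)]
      intro h h' a1 a2 a3
      have hsub : ∀ h, sp S (vl S (w ++ [b])) h ⊆ sp S 1 (w ++ [b]) →
          sp S 1 (b :: h) ⊆ T1 ∪ sp S 1 (zA A ++ [b, S.bar b]) := by
        intro h hh x hx
        have hbl : ∀ x, x ∈ S.blk b → x ∈ sp S 1 (zA A ++ [b, S.bar b]) := by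
          intro x hx
          rw [sp_append, z1, mul_one]
          right
          left
          simpa using hx
        rw [sp_cons] at hx
        rcases hx with hx | hx
        · right
          apply hbl
          simpa using hx
        · rw [one_mul, mem_sp] at hx
          have h5 : vl S w * x ∈ sp S (vl S (w ++ [b])) h := by
            rw [mem_sp, vl_append]
            have e1 : (vl S w * vl S [b])⁻¹ * (vl S w * x) = (S.val b)⁻¹ * x := by
              simp only [vl_cons, vl_nil, mul_one]
              group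
            rw [e1]; exact hx
          have h6 := hh h5
          rw [sp_append] at h6
          rcases h6 with h6 | h6
          · left; exact (hbase x).2 h6
          · right
            apply hbl
            rw [one_mul, sp_single] at h6
            simpa using h6
      have e1 : ∀ h, c (w ++ [b]) * c h = c w * (c [b] * c (iv S [b])) * c (b :: h) := by
        intro h
        have e2 : c (b :: h) = c [b] * c h := hc.app [b] h
        rw [e2, hc.app]
        have e3 := hc.w1 [b]
        calc c w * c [b] * c h = c w * (c [b] * c (iv S [b]) * c [b]) * c h := by rw [e3]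
          _ = _ := by simp only [mul_assoc]
      rw [e1, e1]
      exact hfin _ _ (hsub h a1) (hsub h' a2) (by simp [a3])
  -- conclusion
  have key : ∀ p q, K S p q → c p = c p * c (iv S p) * c q := by
    intro p q hpq
    have h2 := hPP (p ++ iv S p) p q
    have e1 : vl S (p ++ iv S p) = 1 := by simp
    have e2 : sp S 1 (p ++ iv S p) = sp S 1 p := by
      rw [sp_append, sp_iv, Set.union_self]
    rw [e1, e2] at h2
    have h3 := h2 subset_rfl hpq.2.symm.subset hpq.1
    rw [hc.app, hc.w1] at h3
    exact h3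
  intro p q hpq
  have h1 := key p q hpq
  have h2 := key q p ⟨hpq.1.symm, hpq.2.symm⟩
  calc c p = c p * c (iv S p) * c q := h1
    _ = c p * c (iv S p) * (c q * c (iv S q) * c p) := by rw [← h2]
    _ = (c p * c (iv S p) * (c q * c (iv S q))) * c p := by simp only [mul_assoc]
    _ = (c q * c (iv S q) * (c p * c (iv S p))) * c p := by rw [hc.w2]
    _ = c q * c (iv S q) * (c p * c (iv S p) * c p) := by simp only [mul_assoc]
    _ = c q * c (iv S q) * c p := by rw [hc.w1]
    _ = c q := h2.symm

end Pool.Agent.W404.FP
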