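import Pool.Agent.W404.FP.CritB

set_option autoImplicit false

namespace Pool.Agent.W404.FP

variable {G Y : Type} [Group G] (S : Sys G Y)

/-- congruences on words satisfying the Wagner relations -/
structure Cg (E : List Y → List Y → Prop) : Prop where
  refl : ∀ p, E p p
  symm : ∀ p q, E p q → E q p
  trans : ∀ p q s, E p q → E q s → E p s
  app : ∀ p q p' q', E p q → E p' q' → E (p ++ p') (q ++ q')
  w1 : ∀ p, E (p ++ iv S p ++ p) p
  w2 : ∀ p q, E (p ++ iv S p ++ (q ++ iv S q)) (q ++ iv S q ++ (p ++ iv S p))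

variable {S}

/-- the monoid congruence -/
def Cg.con {E : List Y → List Y → Prop} (h : Cg S E) : Con (FreeMonoid Y) where
  r a b := E (FreeMonoid.toList a) (FreeMonoid.toList b)
  iseqv := ⟨fun a => h.refl _, fun h' => h.symm _ _ h', fun h1 h2 => h.trans _ _ _ h1 h2⟩
  mul' := by
    intro a b c d h1 h2
    simp only [FreeMonoid.toList_mul]
    exact h.app _ _ _ _ h1 h2

/-- class of a word -/
def Cg.cl {E : List Y → List Y → Prop} (h : Cg S E) (p : List Y) : h.con.Quotient :=
  ((FreeMonoid.ofList p : FreeMonoid Y) : h.con.Quotient)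

lemma Cg.cl_eq {E : List Y → List Y → Prop} (h : Cg S E) {p q : List Y} :
    h.cl p = h.cl q ↔ E p q := by
  unfold Cg.cl
  rw [Con.eq]
  exact Iff.rfl

lemma Cg.cl_app {E : List Y → List Y → Prop} (h : Cg S E) (p q : List Y) :
    h.cl (p ++ q) = h.cl p * h.cl q := by
  unfold Cg.cl
  rw [FreeMonoid.ofList_append]
  rfl

lemma Cg.rep {E : List Y → List Y → Prop} (h : Cg S E) : Rep S h.cl where
  nil := rfl
  app := h.cl_app
  w1 := by
    intro p
    rw [← h.cl_app, ← h.cl_app, h.cl_eq]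
    exact h.w1 p
  w2 := by
    intro p q
    simp only [← h.cl_app]
    rw [h.cl_eq]
    exact h.w2 p q

/-- from a representation a congruence -/
lemma Rep.cg {Q : Type} [Monoid Q] {c : List Y → Q} (h : Rep S c) :
    Cg S (fun p q => c p = c q) where
  refl := fun _ => rfl
  symm := fun _ _ h => h.symm
  trans := fun _ _ _ h h' => h.trans h'
  app := by
    intro p q p' q' h1 h2
    show c (p ++ p') = c (q ++ q')
    rw [h.app, h.app, h1, h2]
  w1 := by
    intro p
    show c _ = c _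
    rw [h.app, h.app, h.w1]
  w2 := by
    intro p q
    show c _ = c _
    simp only [h.app]
    exact h.w2 p q

lemma fpr_iff : FPr S ↔ ∃ r : ℕ, ∀ E : List Y → List Y → Prop, Cg S E →
    (∀ p q, p.length ≤ r → q.length ≤ r → K S p q → E p q) → ∀ p q, K S p q → E p q := by
  constructor
  · rintro ⟨r, hr⟩
    refine ⟨r, fun E hE hs p q hpq => ?_⟩
    exact hE.cl_eq.1 (hr _ hE.cl hE.rep (fun p q h1 h2 h3 => hE.cl_eq.2 (hs p q h1 h2 h3)) p q hpq)
  · rintro ⟨r, hr⟩
    refine ⟨r, fun Q _ c hc hs p q hpq => ?_⟩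
    exact hr _ hc.cg hs p q hpq

section graph

variable (S) (T : Bool → Set G)

/-- component of the intersection -/
def II (x : G) : Prop := ∃ s, sp S 1 s ⊆ T false ∩ T true ∧ vl S s = x

open Classical in
/-- normal form of a vertex of the pushout -/
noncomputable def nf (i : Bool) (x : G) : Bool × G := if II S T x then (false, x) else (i, x)

lemma nf_snd (i : Bool) (x : G) : (nf S T i x).2 = x := by
  unfold nf; split_ifs <;> rfl

lemma nf_of_II {x : G} (h : II S T x) (i j : Bool) : nf S T i x = nf S T j x := by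
  unfold nf; rw [if_pos h, if_pos h]

lemma nf_inj {i j : Bool} {x y : G} (h : nf S T i x = nf S T j y) :
    x = y ∧ (i = j ∨ II S T x) := by
  have h1 : x = y := by
    have := congrArg Prod.snd h
    rwa [nf_snd, nf_snd] at this
  refine ⟨h1, ?_⟩
  by_cases h2 : II S T x
  · exact Or.inr h2
  · left
    unfold nf at h
    rw [← h1, if_neg h2, if_neg h2] at h
    exact (Prod.ext_iff.1 h).1

/-- edges of the pushout -/
def Ed (a : Bool × G) (y : Y) (b : Bool × G) : Prop :=
  ∃ i q, sp S 1 (q ++ [y]) ⊆ T i ∧ a = nf S T i (vl S q) ∧ b = nf S T i (vl S q * S.val y)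

/-- vertices of the pushout -/
def Gd (a : Bool × G) : Prop := ∃ i q, sp S 1 q ⊆ T i ∧ a = nf S T i (vl S q)

/-- paths of the pushout -/
def Pt : Bool × G → List Y → Bool × G → Prop
  | a, [], b => Gd S T a ∧ a = b
  | a, y :: p, b => ∃ c, Ed S T a y c ∧ Pt c p b

variable {S T}

lemma II.sub {x : G} (h : II S T x) (i : Bool) : ∃ s, sp S 1 s ⊆ T i ∧ vl S s = x := by
  obtain ⟨s, h1, h2⟩ := h
  cases i
  · exact ⟨s, h1.trans Set.inter_subset_left, h2⟩
  · exact ⟨s, h1.trans Set.inter_subset_right, h2⟩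

lemma Ed.gd {a : Bool × G} {y : Y} {b : Bool × G} (h : Ed S T a y b) : Gd S T a ∧ Gd S T b := by
  obtain ⟨i, q, h1, h2, h3⟩ := h
  refine ⟨⟨i, q, ?_, h2⟩, ⟨i, q ++ [y], h1, by rw [h3]; simp⟩⟩
  rw [sp_append] at h1
  exact Set.subset_union_left.trans h1

lemma Pt.gd {p : List Y} : ∀ {a b : Bool × G}, Pt S T a p b → Gd S T a ∧ Gd S T b := by
  induction p with
  | nil => rintro a b ⟨h1, h2⟩; exact ⟨h1, h2 ▸ h1⟩
  | cons y p ih =>
    rintro a b ⟨c, h1, h2⟩
    exact ⟨h1.gd.1, (ih h2).2⟩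

lemma pt_append {p q : List Y} : ∀ {a b : Bool × G},
    Pt S T a (p ++ q) b ↔ ∃ c, Pt S T a p c ∧ Pt S T c q b := by
  induction p with
  | nil =>
    intro a b
    constructor
    · intro h; exact ⟨a, ⟨(Pt.gd h).1, rfl⟩, h⟩
    · rintro ⟨c, ⟨_, h1⟩, h2⟩; rw [h1]; exact h2
  | cons y p ih =>
    intro a b
    constructor
    · rintro ⟨c, h1, h2⟩
      obtain ⟨d, h3, h4⟩ := ih.1 h2
      exact ⟨d, ⟨c, h1, h3⟩, h4⟩
    · rintro ⟨d, ⟨c, h1, h3⟩, h4⟩
      exact ⟨c, h1, ih.2 ⟨d, h3, h4⟩⟩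

lemma pt_single {a b : Bool × G} {y : Y} : Pt S T a [y] b ↔ Ed S T a y b := by
  constructor
  · rintro ⟨c, h1, _, h2⟩; rw [← h2]; exact h1
  · intro h; exact ⟨b, h, h.gd.2, rfl⟩

/-- the edge relation does not depend on the chosen path -/
lemma Ed.det {a b b' : Bool × G} {y : Y} (h : Ed S T a y b) (h' : Ed S T a y b') : b = b' := by
  obtain ⟨i, q, h1, h2, h3⟩ := h
  obtain ⟨j, q', h1', h2', h3'⟩ := h'
  rw [h2] at h2'
  obtain ⟨e1, e2⟩ := nf_inj S T h2'
  rw [h3, h3', ← e1]
  by_cases hij : i = j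
  · rw [hij]
  · have e3 : II S T (vl S q) := e2.resolve_left hij
    have hy : ∀ k, (k = i ∨ k = j) → sp S (vl S q) [y] ⊆ T k := by
      rintro k (rfl | rfl)
      · rw [sp_append, one_mul] at h1
        exact Set.subset_union_right.trans h1
      · rw [sp_append, one_mul, ← e1] at h1'
        exact Set.subset_union_right.trans h1'
    have hall : ∀ k, sp S (vl S q) [y] ⊆ T k := by
      intro k
      apply hy
      cases i <;> cases j <;> cases k <;> simp_all
    apply nf_of_II
    obtain ⟨s, s1, s2⟩ := e3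
    refine ⟨s ++ [y], ?_, by simp [s2]⟩
    rw [sp_append, one_mul, s2]
    exact Set.union_subset s1 (Set.subset_inter (hall _) (hall _))

lemma Ed.rev {a b : Bool × G} {y : Y} (h : Ed S T a y b) : Ed S T b (S.bar y) a := by
  obtain ⟨i, q, h1, h2, h3⟩ := h
  refine ⟨i, q ++ [y], ?_, ?_, ?_⟩
  · rw [sp_append]
    refine Set.union_subset h1 ?_
    have e1 : sp S (1 * vl S (q ++ [y])) [S.bar y] = sp S (1 * vl S q) [y] := by
      have := sp_iv S (1 * vl S q) [y]
      have e2 : 1 * vl S q * vl S [y] = 1 * vl S (q ++ [y]) := by simp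
      rw [e2] at this
      exact this
    rw [e1]
    rw [sp_append] at h1
    exact Set.subset_union_right.trans h1
  · rw [h3]; simp
  · rw [h2]; simp [S.val_bar]

lemma Pt.det {p : List Y} : ∀ {a b b' : Bool × G}, Pt S T a p b → Pt S T a p b' → b = b' := by
  induction p with
  | nil => rintro a b b' ⟨_, h1⟩ ⟨_, h2⟩; rw [← h1, ← h2]
  | cons y p ih =>
    rintro a b b' ⟨c, h1, h2⟩ ⟨c', h1', h2'⟩
    have := h1.det h1'
    subst this
    exact ih h2 h2'

lemma Pt.rev {p : List Y} : ∀ {a b : Bool × G}, Pt S T a p b → Pt S T b (iv S p) a := by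
  induction p with
  | nil => rintro a b ⟨h1, h2⟩; exact ⟨h2 ▸ h1, h2.symm⟩
  | cons y p ih =>
    rintro a b ⟨c, h1, h2⟩
    rw [iv_cons, pt_append]
    exact ⟨c, ih h2, pt_single.2 h1.rev⟩

lemma Pt.rev' {p : List Y} {a b : Bool × G} (h : Pt S T a (iv S p) b) : Pt S T b p a := by
  have := h.rev
  rwa [iv_iv] at this

lemma Pt.snd {p : List Y} : ∀ {a b : Bool × G}, Pt S T a p b → b.2 = a.2 * vl S p := by
  induction p with
  | nil => rintro a b ⟨_, h⟩; simp [h]
  | cons y p ih =>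
    rintro a b ⟨c, ⟨i, q, _, h2, h3⟩, h4⟩
    rw [ih h4, h2, h3, nf_snd, nf_snd]
    simp [mul_assoc]

/-- reading a word on one side -/
lemma pt_side {i : Bool} (p : List Y) : ∀ {q : List Y}, sp S 1 (q ++ p) ⊆ T i →
    Pt S T (nf S T i (vl S q)) p (nf S T i (vl S q * vl S p)) := by
  induction p with
  | nil =>
    intro q hq
    rw [List.append_nil] at hq
    exact ⟨⟨i, q, hq, rfl⟩, by simp⟩
  | cons y p ih =>
    intro q hq
    have e1 : q ++ y :: p = (q ++ [y]) ++ p := by simp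
    rw [e1] at hq
    have h1 := ih hq
    refine ⟨nf S T i (vl S q * S.val y), ⟨i, q, ?_, rfl, rfl⟩, ?_⟩
    · rw [sp_append] at hq
      exact Set.subset_union_left.trans hq
    · have e2 : vl S (q ++ [y]) = vl S q * S.val y := by simp
      rw [e2] at h1
      rw [vl_cons, ← mul_assoc]
      exact h1

variable (S T)

/-- equality of actions -/
def Act (p q : List Y) : Prop := ∀ a b, Pt S T a p b ↔ Pt S T a q b

end graph

end Pool.Agent.W404.FP
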