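import Pool.Agent.W404.FP.CritC

set_option autoImplicit false

namespace Pool.Agent.W404.FP

variable {G Y : Type} [Group G] (S : Sys G Y) (T : Bool → Set G)

lemma act_cg : Cg S (Act S T) where
  refl := fun _ _ _ => Iff.rfl
  symm := fun _ _ h a b => (h a b).symm
  trans := fun _ _ _ h h' a b => (h a b).trans (h' a b)
  app := by
    intro p q p' q' h h' a b
    rw [pt_append, pt_append]
    exact exists_congr fun c => and_congr (h a c) (h' c b)
  w1 := by
    intro p a b
    constructor
    · intro h
      obtain ⟨c, h1, h2⟩ := pt_append.1 h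
      obtain ⟨d, h3, h4⟩ := pt_append.1 h1
      have h5 : c = a := h4.det h3.rev
      rw [← h5]; exact h2
    · intro h
      exact pt_append.2 ⟨a, pt_append.2 ⟨b, h, h.rev⟩, h⟩
  w2 := by
    have key : ∀ p q a b, Pt S T a (p ++ iv S p ++ (q ++ iv S q)) b →
        Pt S T a (q ++ iv S q ++ (p ++ iv S p)) b := by
      intro p q a b h
      obtain ⟨c, h1, h2⟩ := pt_append.1 h
      obtain ⟨d, h3, h4⟩ := pt_append.1 h1
      obtain ⟨e, h5, h6⟩ := pt_append.1 h2
      have e1 : c = a := h4.det h3.rev
      subst e1
      have e2 : b = c := h6.det h5.rev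
      subst e2
      exact pt_append.2 ⟨b, h2, h1⟩
    intro p q a b
    exact ⟨key p q a b, key q p a b⟩

lemma bool_or {i j : Bool} (h : i ≠ j) (l : Bool) : l = i ∨ l = j := by
  revert i j l; decide

/-- exits of the intersection component on one side -/
def Exit (i j : Bool) (x : G) : Prop :=
  II S T x ∧ ∃ y, sp S x [y] ⊆ T i ∧ ¬ sp S x [y] ⊆ T j

lemma last_exit {D : Set G} (p : List Y) : ∀ {x : G}, x * vl S p ∈ D → ¬ sp S x p ⊆ D →
    ∃ p1 y p2, p = p1 ++ y :: p2 ∧ ¬ sp S (x * vl S p1) [y] ⊆ D ∧
      sp S (x * vl S p1 * S.val y) p2 ⊆ D := by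
  induction p with
  | nil =>
    intro x h1 h2
    exfalso; apply h2
    rw [sp_nil]
    simpa using h1
  | cons y p ih =>
    intro x h1 h2
    by_cases h3 : sp S (x * S.val y) p ⊆ D
    · refine ⟨[], y, p, rfl, ?_, ?_⟩
      · intro h4
        apply h2
        rw [sp_cons]
        rw [vl_nil, mul_one, sp_single] at h4
        exact Set.union_subset h4 h3
      · simpa using h3
    · obtain ⟨p1, y1, p2, e1, e2, e3⟩ := ih (by simpa [mul_assoc] using h1) h3
      refine ⟨y :: p1, y1, p2, by rw [e1]; rfl, ?_, ?_⟩
      · simpa [mul_assoc] using e2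
      · simpa [mul_assoc] using e3

/-- no short connection between opposite exits -/
def Scale (r : ℕ) : Prop := ∀ x1 x2 u, u.length ≤ r → Exit S T false true x1 →
  Exit S T true false x2 → x2 ≠ x1 * vl S u

variable {S T}

lemma Scale.ne {r : ℕ} (h : Scale S T r) {i : Bool} {x1 x2 : G} {u : List Y}
    (hu : u.length ≤ r) (h1 : Exit S T i (!i) x1) (h2 : Exit S T (!i) i x2) :
    x2 ≠ x1 * vl S u := by
  cases i
  · exact h _ _ u hu h1 h2
  · intro h3
    refine h x2 x1 (iv S u) (by simpa [iv] using hu) h2 h1 ?_
    rw [h3]; simp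

lemma one_side {r : ℕ} (hs : Scale S T r) (p : List Y) : p.length ≤ r → ∀ {a b : Bool × G},
    Pt S T a p b → ∃ i q, sp S 1 (q ++ p) ⊆ T i ∧ a = nf S T i (vl S q) ∧
      b = nf S T i (vl S q * vl S p) := by
  induction p using List.reverseRecOn with
  | nil =>
    rintro _ a b ⟨⟨i, q, h1, h2⟩, h3⟩
    exact ⟨i, q, by simpa using h1, h2, by rw [← h3, h2]; simp⟩
  | append_singleton p y ih =>
    intro hr a b h
    rw [List.length_append] at hr
    obtain ⟨c, h1, h2⟩ := pt_append.1 h
    obtain ⟨i, q, a1, a2, a3⟩ := ih (by simp only [List.length_singleton] at hr; omega) h1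
    obtain ⟨j, q', b1, b2, b3⟩ := pt_single.1 h2
    rw [a3] at b2
    obtain ⟨e1, e2⟩ := nf_inj S T b2
    -- the last block on side `j`
    have hj : sp S (vl S q * vl S p) [y] ⊆ T j := by
      rw [sp_append, one_mul, ← e1] at b1
      exact Set.subset_union_right.trans b1
    have hstep : ∀ l q0, sp S 1 (q0 ++ p) ⊆ T l → vl S q0 = vl S q →
        sp S (vl S q * vl S p) [y] ⊆ T l → sp S 1 (q0 ++ (p ++ [y])) ⊆ T l := by
      intro l q0 g1 g2 g3
      rw [← List.append_assoc, sp_append]
      refine Set.union_subset g1 ?_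
      rw [one_mul, vl_append, g2]; exact g3
    by_cases hi : sp S (vl S q * vl S p) [y] ⊆ T i
    · refine ⟨i, q, hstep i q a1 rfl hi, a2, ?_⟩
      have : vl S q * vl S (p ++ [y]) = vl S q * vl S p * S.val y := by simp [mul_assoc]
      rw [this]
      -- `b` is the same on both sides
      have hpt : Pt S T c [y] (nf S T i (vl S q * vl S p * S.val y)) := by
        have h3 := pt_side (S := S) (T := T) (i := i) [y] (q := q ++ p) (by
          rw [List.append_assoc]; exact hstep i q a1 rfl hi)
        rw [vl_append, ← a3] at h3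
        simpa using h3
      exact h2.det hpt
    · -- an exit
      have hij : i ≠ j := by rintro rfl; exact hi hj
      have hjn : j = !i := by cases i <;> cases j <;> simp_all
      have hII : II S T (vl S q * vl S p) := e2.resolve_left hij
      have hex : Exit S T (!i) i (vl S q * vl S p) := ⟨hII, y, hjn ▸ hj, hi⟩
      obtain ⟨s, s1, s2⟩ := hII
      have hsi : ∀ l, sp S 1 s ⊆ T l := by
        intro l
        cases l
        · exact s1.trans Set.inter_subset_left
        · exact s1.trans Set.inter_subset_right
      have hpi : sp S (vl S q) p ⊆ T i := by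
        rw [sp_append, one_mul] at a1
        exact Set.subset_union_right.trans a1
      by_cases hp : sp S (vl S q) p ⊆ T j
      · -- go back to side `j`
        have hall : ∀ l, sp S (vl S q) p ⊆ T l := by
          intro l
          have : l = i ∨ l = j := bool_or hij l
          rcases this with rfl | rfl
          · exact hpi
          · exact hp
        have hback : sp S (vl S q * vl S p) (iv S p) = sp S (vl S q) p := sp_iv S _ _
        have hq0 : ∀ l, sp S 1 (s ++ iv S p) ⊆ T l := by
          intro l
          rw [sp_append, one_mul, s2, hback]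
          exact Set.union_subset (hsi l) (hall l)
        have hv0 : vl S (s ++ iv S p) = vl S q := by simp [s2]
        have hIq : II S T (vl S q) :=
          ⟨s ++ iv S p, Set.subset_inter (hq0 _) (hq0 _), hv0⟩
        refine ⟨j, s ++ iv S p, ?_, ?_, ?_⟩
        · refine hstep j _ ?_ hv0 hj
          rw [sp_append, one_mul, hv0]
          exact Set.union_subset (hq0 j) hp
        · rw [a2, hv0]; exact nf_of_II S T hIq i j
        · rw [b3, hv0, ← e1]; simp [mul_assoc]
      · -- two far exits connected by a short word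
        exfalso
        have hend : vl S q * vl S p ∈ T j := by
          have := end_mem S 1 s
          rw [one_mul, s2] at this
          exact hsi j this
        obtain ⟨p1, y1, p2, g1, g2, g3⟩ := last_exit S p hend hp
        have hval : vl S q * vl S p1 * S.val y1 * vl S p2 = vl S q * vl S p := by
          rw [g1]; simp [mul_assoc]
        have hp2i : sp S (vl S q * vl S p1 * S.val y1) p2 ⊆ T i := by
          have : sp S (vl S q) p = sp S (vl S q) (p1 ++ [y1]) ∪
              sp S (vl S q * vl S (p1 ++ [y1])) p2 := by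
            rw [g1, ← sp_append]; simp
          rw [this] at hpi
          have h5 := Set.subset_union_right.trans hpi
          simpa [mul_assoc] using h5
        have hy1i : sp S (vl S q * vl S p1) [y1] ⊆ T i := by
          have : sp S (vl S q) p = sp S (vl S q) (p1 ++ [y1]) ∪
              sp S (vl S q * vl S (p1 ++ [y1])) p2 := by
            rw [g1, ← sp_append]; simp
          rw [this] at hpi
          have h5 := Set.subset_union_left.trans hpi
          rw [sp_append] at h5
          exact Set.subset_union_right.trans h5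
        have hback : sp S (vl S q * vl S p) (iv S p2) =
            sp S (vl S q * vl S p1 * S.val y1) p2 := by
          rw [← hval]; exact sp_iv S _ _
        have hall : ∀ l, sp S (vl S q * vl S p) (iv S p2) ⊆ T l := by
          intro l
          rw [hback]
          have : l = i ∨ l = j := bool_or hij l
          rcases this with rfl | rfl
          · exact hp2i
          · exact g3
        have hII2 : II S T (vl S q * vl S p1 * S.val y1) := by
          refine ⟨s ++ iv S p2, ?_, ?_⟩
          · rw [sp_append, one_mul, s2]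
            exact Set.union_subset s1 (Set.subset_inter (hall _) (hall _))
          · rw [vl_append, vl_iv, s2, ← hval]; group
        have hbl : sp S (vl S q * vl S p1 * S.val y1) [S.bar y1] =
            sp S (vl S q * vl S p1) [y1] := by
          have := sp_iv S (vl S q * vl S p1) [y1]
          simpa using this
        have hex2 : Exit S T i (!i) (vl S q * vl S p1 * S.val y1) := by
          refine ⟨hII2, S.bar y1, ?_, ?_⟩
          · rw [hbl]; exact hy1i
          · rw [hbl, ← hjn]; exact g2
        refine hs.ne (u := p2) ?_ hex2 hex hval.symm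
        have : p.length = p1.length + (p2.length + 1) := by rw [g1]; simp
        omega

theorem crit2 {r : ℕ} {z1 z2 : List Y} (hz1 : vl S z1 = 1) (hz2 : vl S z2 = 1)
    (hT1 : T false = sp S 1 z1) (hT2 : T true = sp S 1 z2)
    (hc : ¬ NoConf S (T false) (T true)) (hs : Scale S T r) :
    ∃ p q, K S p q ∧ ∃ E : List Y → List Y → Prop, Cg S E ∧
      (∀ p q, p.length ≤ r → q.length ≤ r → K S p q → E p q) ∧ ¬ E p q := by
  -- short relations hold
  have hshort : ∀ p q, p.length ≤ r → K S p q → ∀ a b, Pt S T a p b → Pt S T a q b := by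
    intro p q hp hpq a b h
    obtain ⟨i, q0, a1, a2, a3⟩ := one_side hs p hp h
    have h1 : sp S 1 (q0 ++ q) ⊆ T i := by
      rw [sp_append, ← hpq.sp, ← sp_append]; exact a1
    have h2 := pt_side (T := T) q h1
    rw [← hpq.1, ← a2, ← a3] at h2
    exact h2
  have hE : ∀ p q, p.length ≤ r → q.length ≤ r → K S p q → Act S T p q := by
    intro p q hp hq hpq a b
    exact ⟨hshort p q hp hpq a b, hshort q p hq ⟨hpq.1.symm, hpq.2.symm⟩ a b⟩
  have h1T : ∀ i, (1 : G) ∈ T i := by
    intro i
    cases i
    · rw [hT1]; exact start_mem S 1 _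
    · rw [hT2]; exact start_mem S 1 _
  have hI1 : II S T 1 := ⟨[], by
    rw [sp_nil]
    exact Set.singleton_subset_iff.2 ⟨h1T _, h1T _⟩, rfl⟩
  set o : Bool × G := nf S T false 1 with ho
  have hoi : ∀ i, nf S T i 1 = o := fun i => nf_of_II S T hI1 i false
  have hp1 : Pt S T o z1 o := by
    have := pt_side (S := S) (T := T) (i := false) z1 (q := []) (by rw [hT1]; rfl)
    rw [vl_nil, hz1, mul_one, hoi] at this
    exact this
  have hp2 : Pt S T o z2 o := by
    have := pt_side (S := S) (T := T) (i := true) z2 (q := []) (by rw [hT2]; rfl)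
    rw [vl_nil, hz2, mul_one, hoi] at this
    exact this
  have hu : Pt S T o (z1 ++ z2) o := pt_append.2 ⟨o, hp1, hp2⟩
  have hvu : vl S (z1 ++ z2) = 1 := by simp [hz1, hz2]
  have hsu : sp S 1 (z1 ++ z2) = T false ∪ T true := by
    rw [sp_append, hz1, mul_one, hT1, hT2]
  unfold NoConf at hc
  rw [not_and_or] at hc
  rcases hc with hc | hc
  · push Not at hc
    obtain ⟨p, q, a1, a2, a3, a4⟩ := hc
    refine ⟨z1 ++ z2 ++ p, z1 ++ z2 ++ q, ?_, Act S T, act_cg S T, hE, ?_⟩
    · refine ⟨by rw [vl_append, vl_append S (z1 ++ z2) q, a3], ?_⟩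
      rw [sp_append S 1 (z1 ++ z2) p, sp_append S 1 (z1 ++ z2) q, hsu, hvu, mul_one,
        Set.union_eq_self_of_subset_right (a1.trans Set.subset_union_left),
        Set.union_eq_self_of_subset_right (a2.trans Set.subset_union_right)]
    · intro hA
      have b1 := pt_side (S := S) (T := T) (i := false) p (q := []) a1
      have b2 := pt_side (S := S) (T := T) (i := true) q (q := []) a2
      rw [vl_nil, hoi, one_mul] at b1 b2
      have b3 := (hA o _).1 (pt_append.2 ⟨o, hu, b1⟩)
      have b4 : Pt S T o (z1 ++ z2 ++ q) (nf S T true (vl S q)) := pt_append.2 ⟨o, hu, b2⟩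
      have b5 := b3.det b4
      obtain ⟨_, b6⟩ := nf_inj S T b5
      obtain ⟨s, s1, s2⟩ := b6.resolve_left (by simp)
      exact a4 s s1 s2
  · push Not at hc
    obtain ⟨p, y, a1, a2, a3⟩ := hc
    refine ⟨z1 ++ z2 ++ ((p ++ [y]) ++ iv S (p ++ [y])), z1 ++ z2, ?_, Act S T, act_cg S T,
      hE, ?_⟩
    · refine ⟨by simp [hz1, hz2, S.val_bar], ?_⟩
      rw [sp_append S 1 (z1 ++ z2) _, sp_append S _ (p ++ [y]), sp_iv, Set.union_self, hsu, hvu,
        mul_one, Set.union_eq_self_of_subset_right a1]
    · intro hA
      obtain ⟨c, b1, b2⟩ := pt_append.1 ((hA o o).2 hu)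
      have b3 := b1.det hu
      rw [b3] at b2
      obtain ⟨d, b4, _⟩ := pt_append.1 b2
      obtain ⟨e, b6, b7⟩ := pt_append.1 b4
      obtain ⟨i, q, g1, g2, g3⟩ := pt_single.1 b7
      have g4 := b6.snd
      rw [g2, nf_snd, ho, nf_snd, one_mul] at g4
      cases i
      · exact a2 q g4 g1
      · exact a3 q g4 g1

end Pool.Agent.W404.FP
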