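import Pool.Agent.W404.FP.CritD

set_option autoImplicit false

namespace Pool.Agent.W404.FP

variable {G Y : Type} [Group G] (S : Sys G Y)

/-- far conflicts -/
structure Psi (ℓ : G → ℕ) (D ρ : ℕ) (T1 T2 U : Set G) : Prop where
  c1 : ∃ z, vl S z = 1 ∧ T1 = sp S 1 z
  c2 : ∃ z, vl S z = 1 ∧ T2 = sp S 1 z
  iu : T1 ∩ T2 ⊆ U
  ut : U ⊆ T1
  ed : ∀ p y, sp S 1 (p ++ [y]) ⊆ U → ∃ q, vl S q = vl S p ∧ sp S 1 (q ++ [y]) ⊆ T1 ∩ T2
  far : ∀ x ∈ T1, x ∉ U → ρ ≤ ℓ x
  near : ∀ x ∈ T2, x ∉ T1 → ℓ x ≤ D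
  cf : ¬ NoConf S T1 T2

theorem crit [Finite Y] (ℓ : G → ℕ) (h1 : ℓ 1 = 0) (hmul : ∀ x y, ℓ (x * y) ≤ ℓ x + ℓ y)
    (hinv : ∀ x, ℓ x⁻¹ = ℓ x) (hball : ∀ n, {x | ℓ x ≤ n}.Finite) (D : ℕ)
    (hD : ∀ y, ∀ x ∈ S.blk y, ℓ x ≤ D) :
    ¬ FPr S ↔ ∀ ρ, ∃ T1 T2 U, Psi S ℓ D ρ T1 T2 U := by
  have hbf : ∀ y, (S.blk y).Finite := fun y => (hball D).subset (hD y)
  constructor
  · intro h ρ
    by_contra hcon
    apply h
    have hB : {x : G | ℓ x < max ρ (D + 1)}.Finite :=
      (hball (max ρ (D + 1))).subset fun x (hx : ℓ x < _) =>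
        (show ℓ x ≤ max ρ (D + 1) from le_of_lt hx)
    refine crit1 S hbf hB (by show ℓ 1 < _; rw [h1]; omega) ?_
    intro z hz b z' hz' hsub hmax
    by_contra hcf
    apply hcon
    have e1 : sp S 1 (z' ++ [b, S.bar b]) = sp S 1 z' ∪ S.blk b := by
      have h3 : ([b, S.bar b] : List Y) = [b] ++ iv S [b] := by simp
      rw [sp_append, hz', mul_one, h3, sp_append, sp_iv, Set.union_self, sp_single]
      simp
    refine ⟨sp S 1 z, sp S 1 (z' ++ [b, S.bar b]), sp S 1 z ∩ {x | ℓ x < max ρ (D + 1)},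
      ⟨z, hz, rfl⟩, ⟨_, by simp [hz', S.val_bar], rfl⟩, ?_, Set.inter_subset_left, ?_, ?_, ?_,
      hcf⟩
    · rintro x ⟨hx1, hx2⟩
      refine ⟨hx1, ?_⟩
      rw [e1] at hx2
      rcases hx2 with hx2 | hx2
      · exact (hsub hx2).2
      · have := hD b x hx2
        show ℓ x < _
        omega
    · intro p y hp
      refine ⟨p, rfl, ?_⟩
      have h4 := hmax ((p ++ [y]) ++ iv S (p ++ [y])) (by simp [S.val_bar]) (by
        rw [sp_append, sp_iv, Set.union_self]; exact hp)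
      rw [sp_append, sp_iv, Set.union_self] at h4
      refine Set.subset_inter (hp.trans Set.inter_subset_left) (h4.trans ?_)
      rw [e1]
      exact Set.subset_union_left
    · intro x hx hx'
      by_contra hlt
      exact hx' ⟨hx, by show ℓ x < _; omega⟩
    · intro x hx hx'
      rw [e1] at hx
      rcases hx with hx | hx
      · exact absurd (hsub hx).1 hx'
      · exact hD b x hx
  · intro h hF
    obtain ⟨r, hr⟩ := fpr_iff.1 hF
    obtain ⟨T1, T2, U, hP⟩ := h (3 * D + r * D + 1)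
    obtain ⟨⟨z1, hz1, hT1⟩, ⟨z2, hz2, hT2⟩, iu, ut, ed, far, near, cf⟩ := hP
    have hvl : ∀ u : List Y, ℓ (vl S u) ≤ u.length * D := by
      intro u
      induction u with
      | nil => simp [h1]
      | cons y u ih =>
        rw [vl_cons, List.length_cons]
        have h3 := hmul (S.val y) (vl S u)
        have h4 := hD y _ (S.val_mem y)
        nlinarith
    have hs : Scale S (fun b : Bool => cond b T2 T1) r := by
      intro x1 x2 u hu he1 he2 heq
      obtain ⟨⟨s, s1, s2⟩, y, y1, y2⟩ := he1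
      obtain ⟨_, y', y1', y2'⟩ := he2
      simp only [cond_true, cond_false] at s1 y1 y2 y1' y2'
      have hU : ¬ sp S x1 [y] ⊆ U := by
        intro hU
        have h3 : sp S 1 (s ++ [y]) ⊆ U := by
          rw [sp_append, one_mul, s2]
          exact Set.union_subset (s1.trans iu) hU
        obtain ⟨q, q1, q2⟩ := ed s y h3
        apply y2
        rw [sp_append, one_mul, q1, s2] at q2
        exact (Set.subset_union_right.trans q2).trans Set.inter_subset_right
      obtain ⟨x, hx, hxU⟩ := Set.not_subset.1 hU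
      have e1 := far x (y1 hx) hxU
      rw [sp_single] at hx
      have e2 := hD y _ hx
      have e3 := hmul x1 (x1⁻¹ * x)
      rw [mul_inv_cancel_left] at e3
      obtain ⟨x', hx', hxT⟩ := Set.not_subset.1 y2'
      have e4 := near x' (y1' hx') hxT
      rw [sp_single] at hx'
      have e5 := hD y' _ hx'
      have e6 := hmul x' (x2⁻¹ * x')⁻¹
      rw [hinv] at e6
      have e7 : x' * (x2⁻¹ * x')⁻¹ = x2 := by group
      rw [e7] at e6
      have e8 := hmul x2 (vl S u)⁻¹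
      rw [hinv] at e8
      have e9 : x2 * (vl S u)⁻¹ = x1 := by rw [heq]; group
      rw [e9] at e8
      have e10 := hvl u
      have e11 : u.length * D ≤ r * D := Nat.mul_le_mul_right _ hu
      omega
    obtain ⟨p, q, hpq, E, hE, hshort, hne⟩ := crit2 (S := S) (T := fun b : Bool => cond b T2 T1)
      hz1 hz2 hT1 hT2 cf hs
    exact hne (hr E hE hshort p q hpq)

end Pool.Agent.W404.FP
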