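import Pool.Agent.W404.FP.AutA

set_option autoImplicit false

namespace Pool.Agent.W404.FP

open Relation Pool.Agent.H395R3.Fim Pool.Agent.H395R4.Rec

variable {n m : ℕ}

/-- concatenations of at most `L` words -/
def cat (Wl : List (List (Lt n))) : ℕ → List (List (Lt n))
  | 0 => [[]]
  | L + 1 => [] :: (cat Wl L).flatMap (fun l => Wl.map (fun c => c ++ l))

/-- bounded reachability check -/
def RW (Wl : List (List (Lt n))) (L : ℕ) (Dl : List (Vx n)) (a : List (Lt n)) (v : Vx n) :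
    Prop := ∃ l ∈ cat Wl L, (trail (l ++ a)).headI = v ∧ ∀ u ∈ trail (l ++ a), u ∈ Dl

/-- bounded covering check -/
def CW (Wl : List (List (Lt n))) (L : ℕ) (Dl : List (Vx n)) (v : Vx n) : Prop :=
  ∃ l ∈ cat Wl L, (trail l).headI = [] ∧ v ∈ trail l ∧ ∀ u ∈ trail l, u ∈ Dl

/-- sublists -/
def subl {α : Type} (V : List α) : List (List α) :=
  V.foldr (fun a S => S ++ S.map (fun l => a :: l)) [[]]

lemma mem_subl {α : Type} (V : List α) : ∀ l ∈ subl V, ∀ v ∈ l, v ∈ V := by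
  induction V with
  | nil =>
    intro l hl v hv
    have : l = [] := by simpa [subl] using hl
    rw [this] at hv; simp at hv
  | cons a V ih =>
    intro l hl v hv
    have h : l ∈ subl V ∨ ∃ l' ∈ subl V, a :: l' = l := by
      simpa [subl] using hl
    rcases h with h | ⟨l', h1, h2⟩
    · exact List.mem_cons_of_mem _ (ih l h v hv)
    · rw [← h2] at hv
      rcases List.mem_cons.1 hv with h3 | h3
      · rw [h3]; simp
      · exact List.mem_cons_of_mem _ (ih l' h1 v h3)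

lemma exists_subl {α : Type} (V : List α) (P : α → Prop) :
    ∃ l ∈ subl V, ∀ v, v ∈ l ↔ v ∈ V ∧ P v := by
  induction V with
  | nil => exact ⟨[], by simp [subl], by simp⟩
  | cons a V ih =>
    obtain ⟨l, h1, h2⟩ := ih
    by_cases ha : P a
    · refine ⟨a :: l, ?_, ?_⟩
      · have : a :: l ∈ subl V ++ (subl V).map (fun l => a :: l) :=
          List.mem_append_right _ (List.mem_map_of_mem h1)
        exact this
      · intro v
        rw [List.mem_cons, List.mem_cons, h2]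
        constructor
        · rintro (rfl | ⟨h3, h4⟩)
          · exact ⟨Or.inl rfl, ha⟩
          · exact ⟨Or.inr h3, h4⟩
        · rintro ⟨rfl | h3, h4⟩
          · exact Or.inl rfl
          · exact Or.inr ⟨h3, h4⟩
    · refine ⟨l, ?_, ?_⟩
      · have : l ∈ subl V ++ (subl V).map (fun l => a :: l) := List.mem_append_left _ h1
        exact this
      · intro v
        rw [List.mem_cons, h2]
        constructor
        · rintro ⟨h3, h4⟩
          exact ⟨Or.inr h3, h4⟩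
        · rintro ⟨rfl | h3, h4⟩
          · exact absurd h4 ha
          · exact ⟨h3, h4⟩

section
variable (w : Fin m → List (Lt n))

lemma mem_cat {Wl : List (List (Lt n))} (hWl : ∀ c, c ∈ Wl ↔ ∃ y, ws w y = c) (L : ℕ) :
    ∀ l, l ∈ cat Wl L ↔ ∃ p : List (Fin m ⊕ Fin m), p.length ≤ L ∧ l = wd w p := by
  induction L with
  | zero =>
    intro l
    constructor
    · intro h
      have : l = [] := by simpa [cat] using h
      exact ⟨[], le_rfl, this⟩
    · rintro ⟨p, h1, h2⟩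
      have : p = [] := List.length_eq_zero_iff.1 (by omega)
      rw [h2, this]
      simp [cat, wd]
  | succ L ih =>
    intro l
    have h : l ∈ cat Wl (L + 1) ↔ l = [] ∨ ∃ l' ∈ cat Wl L, ∃ c ∈ Wl, c ++ l' = l := by
      simp [cat]
    rw [h]
    constructor
    · rintro (h1 | ⟨l', h1, c, h2, h3⟩)
      · exact ⟨[], by simp, h1⟩
      · obtain ⟨p, h4, h5⟩ := (ih l').1 h1
        obtain ⟨y, h6⟩ := (hWl c).1 h2
        refine ⟨y :: p, by rw [List.length_cons]; omega, ?_⟩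
        rw [wd_cons, ← h3, h5, h6]
    · rintro ⟨p, h1, h2⟩
      cases p with
      | nil => exact Or.inl h2
      | cons y p =>
        right
        refine ⟨wd w p, (ih _).2 ⟨p, by rw [List.length_cons] at h1; omega, rfl⟩, ws w y,
          (hWl _).2 ⟨y, rfl⟩, ?_⟩
        rw [h2, wd_cons]

lemma short_wd {D : Set (Vx n)} {A : Finset (Vx n)} (hDA : D ⊆ A)
    (p : List (Fin m ⊕ Fin m)) (hp : ∀ u ∈ vis [] (wd w p), u ∈ D) :
    ∃ p' : List (Fin m ⊕ Fin m), p'.length ≤ A.card ∧ fin [] (wd w p') = fin [] (wd w p) ∧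
      ∀ u ∈ vis [] (wd w p'), u ∈ D := by
  classical
  have key := stab A (fun j => {x : Vx n | ∃ p : List (Fin m ⊕ Fin m), p.length ≤ j ∧
      fin [] (wd w p) = x ∧ ∀ u ∈ vis [] (wd w p), u ∈ D})
    (by
      rintro j x ⟨p, _, h2, h3⟩
      apply hDA
      rw [← h2]
      exact h3 _ (fin_mem_vis _ _))
    (by
      rintro j x ⟨p, h1, h2, h3⟩
      exact ⟨p, by omega, h2, h3⟩)
    (by
      intro j hj
      apply Set.Subset.antisymm
      · rintro x ⟨p, h1, h2, h3⟩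
        exact ⟨p, by omega, h2, h3⟩
      · rintro x ⟨p, h1, h2, h3⟩
        by_cases hl : p.length ≤ j + 1
        · exact ⟨p, hl, h2, h3⟩
        · rcases List.eq_nil_or_concat p with rfl | ⟨p', y, rfl⟩
          · simp at hl
          · rw [List.concat_eq_append] at *
            rw [wd_append] at h2 h3
            have hmem : fin [] (wd w p') ∈ {x : Vx n | ∃ p : List (Fin m ⊕ Fin m),
                p.length ≤ j + 1 ∧ fin [] (wd w p) = x ∧ ∀ u ∈ vis [] (wd w p), u ∈ D} := by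
              refine ⟨p', ?_, rfl, fun u hu => h3 u ((mem_vis_append _ _ _ _).2 (Or.inl hu))⟩
              simp only [List.length_append, List.length_cons, List.length_nil] at h1
              omega
            rw [← hj] at hmem
            obtain ⟨p2, a1, a2, a3⟩ := hmem
            refine ⟨p2 ++ [y], ?_, ?_, ?_⟩
            · simp only [List.length_append, List.length_cons, List.length_nil]
              omega
            · rw [wd_append, fin_append, a2, ← fin_append, h2]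
            · intro u hu
              rw [wd_append, mem_vis_append, a2] at hu
              rcases hu with hu | hu
              · exact a3 u hu
              · exact h3 u ((mem_vis_append _ _ _ _).2 (Or.inr hu)))
    p.length
  obtain ⟨p', h1, h2, h3⟩ := key ⟨p, le_rfl, rfl, hp⟩
  exact ⟨p', h1, h2, h3⟩

lemma rw_iff {Wl : List (List (Lt n))} (hWl : ∀ c, c ∈ Wl ↔ ∃ y, ws w y = c) {V : List (Vx n)}
    {L : ℕ} (hL : V.length ≤ L) {Dl : List (Vx n)} (hDl : ∀ u ∈ Dl, u ∈ V) (a : List (Lt n))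
    (v : Vx n) : RW Wl L Dl a v ↔ ∃ p : List (Fin m ⊕ Fin m), fin [] (wd w p ++ a) = v ∧
      ∀ u ∈ vis [] (wd w p ++ a), u ∈ Dl := by
  classical
  constructor
  · rintro ⟨l, h1, h2, h3⟩
    obtain ⟨p, _, rfl⟩ := (mem_cat w hWl L l).1 h1
    refine ⟨p, ?_, ?_⟩
    · rw [← (trail_spec _).1]; exact h2
    · intro u hu
      exact h3 u (((trail_spec _).2 u).2 hu)
  · rintro ⟨p, h1, h2⟩
    obtain ⟨p', a1, a2, a3⟩ := short_wd w (D := {u | u ∈ Dl}) (A := V.toFinset)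
      (fun u hu => by simpa using hDl u hu) p
      (fun u hu => h2 u ((mem_vis_append _ _ _ _).2 (Or.inl hu)))
    have hcard := V.toFinset_card_le
    refine ⟨wd w p', (mem_cat w hWl L _).2 ⟨p', by omega, rfl⟩, ?_, ?_⟩
    · rw [(trail_spec _).1, fin_append, a2, ← fin_append]; exact h1
    · intro u hu
      have hu' := ((trail_spec _).2 u).1 hu
      rw [mem_vis_append, a2] at hu'
      rcases hu' with hu' | hu'
      · exact a3 u hu'
      · exact h2 u ((mem_vis_append _ _ _ _).2 (Or.inr hu'))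

lemma vis_decomp (p : List (Fin m ⊕ Fin m)) : ∀ (u v : Vx n), v ∈ vis u (wd w p) →
    v = u ∨ ∃ p1 y p2, p = p1 ++ y :: p2 ∧ v ∈ vis (fin u (wd w p1)) (ws w y) := by
  induction p with
  | nil =>
    intro u v hv
    left
    simpa [wd] using hv
  | cons y p ih =>
    intro u v hv
    rw [wd_cons, mem_vis_append] at hv
    rcases hv with hv | hv
    · right
      exact ⟨[], y, p, rfl, hv⟩
    · right
      rcases ih _ v hv with h | ⟨p1, y1, p2, h1, h2⟩
      · exact ⟨[], y, p, rfl, by rw [h]; exact fin_mem_vis _ _⟩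
      · refine ⟨y :: p1, y1, p2, by rw [h1]; rfl, ?_⟩
        rw [wd_cons, fin_append]; exact h2

lemma wd_iv (p : List (Fin m ⊕ Fin m)) : wd w (iv (sys w) p) = winv (wd w p) := by
  induction p with
  | nil => rfl
  | cons y p ih =>
    have h1 : wd w [(sys w).bar y] = winv (ws w y) := by
      have : wd w [(sys w).bar y] = ws w y.swap := by simp [wd, sys]
      rw [this, ws_swap]
    rw [iv_cons, wd_append, ih, h1, wd_cons w y p]
    simp [winv]

lemma cw_iff {Wl : List (List (Lt n))} (hWl : ∀ c, c ∈ Wl ↔ ∃ y, ws w y = c) {V : List (Vx n)}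
    {L : ℕ} (hL : 2 * V.length + 1 ≤ L) {Dl : List (Vx n)} (hDl : ∀ u ∈ Dl, u ∈ V)
    (v : Vx n) : CW Wl L Dl v ↔ ∃ p : List (Fin m ⊕ Fin m), fin [] (wd w p) = [] ∧
      v ∈ vis [] (wd w p) ∧ ∀ u ∈ vis [] (wd w p), u ∈ Dl := by
  classical
  constructor
  · rintro ⟨l, h1, h2, h3, h4⟩
    obtain ⟨p, _, rfl⟩ := (mem_cat w hWl L l).1 h1
    refine ⟨p, ?_, ((trail_spec _).2 v).1 h3, ?_⟩
    · rw [← (trail_spec _).1]; exact h2
    · intro u hu
      exact h4 u (((trail_spec _).2 u).2 hu)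
  · rintro ⟨p, h1, h2, h3⟩
    have hcard := V.toFinset_card_le
    have hsub : {u | u ∈ Dl} ⊆ (V.toFinset : Set (Vx n)) := fun u hu => by
      simpa using hDl u hu
    rcases vis_decomp w p _ _ h2 with h | ⟨p1, y, p2, h4, h5⟩
    · refine ⟨[], (mem_cat w hWl L _).2 ⟨[], by simp, rfl⟩, rfl, ?_, ?_⟩
      · rw [h]; exact ((trail_spec _).2 _).2 (start_mem_vis _ _)
      · intro u hu
        have hu' : u = [] := by simpa using ((trail_spec _).2 u).1 hu
        rw [hu']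
        exact h3 [] (start_mem_vis _ _)
    · have hp : wd w p = wd w (p1 ++ [y]) ++ wd w p2 := by
        rw [h4, ← wd_append]; simp
      have hv1 : ∀ u ∈ vis [] (wd w (p1 ++ [y])), u ∈ Dl := by
        intro u hu
        apply h3
        rw [hp]
        exact (mem_vis_append _ _ _ _).2 (Or.inl hu)
      have hy1 : wd w (p1 ++ [y]) = wd w p1 ++ ws w y := by
        rw [wd_append]; simp [wd]
      obtain ⟨p1', a1, a2, a3⟩ := short_wd w (D := {u | u ∈ Dl}) hsub p1 (by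
        intro u hu
        apply hv1
        rw [hy1]
        exact (mem_vis_append _ _ _ _).2 (Or.inl hu))
      obtain ⟨p3, b1, b2, b3⟩ := short_wd w (D := {u | u ∈ Dl}) hsub (p1 ++ [y]) hv1
      set q : List (Fin m ⊕ Fin m) := p1' ++ y :: iv (sys w) p3 with hq
      have hq1 : wd w q = (wd w p1' ++ ws w y) ++ winv (wd w p3) := by
        rw [hq, wd_append, wd_cons, wd_iv, List.append_assoc]
      have hend : fin [] (wd w p1' ++ ws w y) = fin [] (wd w p3) := by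
        rw [fin_append, a2, ← fin_append, ← hy1, b2]
      refine ⟨wd w q, (mem_cat w hWl L _).2 ⟨q, ?_, rfl⟩, ?_, ?_, ?_⟩
      · rw [hq]
        simp only [List.length_append, List.length_cons, iv, List.length_reverse,
          List.length_map]
        omega
      · rw [(trail_spec _).1, hq1, fin_append, hend, fin_winv red_nil]
      · rw [(trail_spec _).2, hq1, mem_vis_append, mem_vis_append, a2]
        exact Or.inl (Or.inr h5)
      · intro u hu
        rw [(trail_spec _).2, hq1, mem_vis_append, mem_vis_append, a2, hend,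
          mem_vis_winv red_nil] at hu
        rcases hu with (hu | hu) | hu
        · exact a3 u hu
        · apply hv1
          rw [hy1]
          exact (mem_vis_append _ _ _ _).2 (Or.inr hu)
        · exact b3 u hu

end

/-- the decision predicate -/
def DecP (n : ℕ) (Wl : List (List (Lt n))) (V : List (Vx n)) (L c D : ℕ) : Prop :=
  ∃ l1 ∈ subl V, ∃ l2 ∈ subl V, ∃ l3 ∈ subl V,
    [] ∈ l1 ∧ [] ∈ l2 ∧ (∀ v ∈ l1, CW Wl L l1 v) ∧ (∀ v ∈ l2, CW Wl L l2 v) ∧
    (∀ v ∈ l1, v ∉ l2 ∨ v ∈ l3) ∧ (∀ v ∈ l3, v ∈ l1) ∧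
    (∀ v ∈ V, ∀ a ∈ Wl, ¬ RW Wl L l3 a v ∨ RW Wl L (l1.filter (fun u => u ∈ l2)) a v) ∧
    ((∃ v ∈ V, RW Wl L l1 [] v ∧ RW Wl L l2 [] v ∧
        ¬ RW Wl L (l1.filter (fun u => u ∈ l2)) [] v) ∨
      ∃ v ∈ V, ∃ a ∈ Wl, RW Wl L (l1 ++ l2) a v ∧ ¬ RW Wl L l1 a v ∧ ¬ RW Wl L l2 a v) ∧
    (∀ v ∈ l1, v ∈ l3 ∨ c + D ≤ v.length) ∧ (∀ v ∈ l2, v ∈ l1 ∨ v.length < D)

theorem dec_iff (w : Fin m → List (Lt n)) {L0 : ℕ} (hL0 : ∀ y, (ws w y).length < L0)
    (hne : ∀ y, ws w y ≠ []) {Wl : List (List (Lt n))} (hWl : ∀ c, c ∈ Wl ↔ ∃ y, ws w y = c)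
    (c D : ℕ) (hD : 0 < D) {L : ℕ} (hL : 2 * (words n (2 * c + D - 1)).length + 1 ≤ L) :
    (∃ X : Lb n L3', Dep (False, False, False) (2 * c + D) X ∧
      (∀ v, v.length < c + D → ¬ ((X v).1 ∧ ¬ (X v).2.2)) ∧
      (∀ v, D ≤ v.length → ¬ ((X v).2.1 ∧ ¬ (X v).1)) ∧
      SemF (dl w) (none : QS m L0) (Set.range (fyQ w hL0)) (E1 X) (E2 X) (E3 X)) ↔
    DecP n Wl (words n (2 * c + D - 1)) L c D := by
  classical
  set V := words n (2 * c + D - 1) with hV
  have hVm : ∀ v : Vx n, v ∈ V ↔ v.length < 2 * c + D := by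
    intro v
    rw [hV, mem_words]
    omega
  have hL1 : V.length ≤ L := by omega
  -- translation of reachability
  have hr0 : ∀ (S : Set (Vx n)) (v : Vx n), Rea (dl w) (none : QS m L0) S v none ↔
      ∃ p : List (Fin m ⊕ Fin m), fin [] (wd w p ++ []) = v ∧
        ∀ u ∈ vis [] (wd w p ++ []), u ∈ S := by
    intro S v
    simp only [List.append_nil]
    constructor
    · rintro ⟨l, h1, h2, h3⟩
      obtain ⟨p, rfl⟩ := (hq0_aut w hL0 hne l).1 h1
      exact ⟨p, h2, h3⟩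
    · rintro ⟨p, h2, h3⟩
      exact ⟨_, (hq0_aut w hL0 hne _).2 ⟨p, rfl⟩, h2, h3⟩
  have hrf : ∀ (S : Set (Vx n)) (v : Vx n) (y : Fin m ⊕ Fin m),
      Rea (dl w) (none : QS m L0) S v (fyQ w hL0 y) ↔
      ∃ p : List (Fin m ⊕ Fin m), fin [] (wd w p ++ ws w y) = v ∧
        ∀ u ∈ vis [] (wd w p ++ ws w y), u ∈ S := by
    intro S v y
    have h0 : ∀ p, wd w (p ++ [y]) = wd w p ++ ws w y := by
      intro p; rw [wd_append]; simp [wd]
    constructor
    · rintro ⟨l, h1, h2, h3⟩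
      obtain ⟨p, rfl⟩ := (hF_aut w hL0 hne l y).1 h1
      rw [h0] at h2 h3
      exact ⟨p, h2, h3⟩
    · rintro ⟨p, h2, h3⟩
      refine ⟨_, (hF_aut w hL0 hne _ y).2 ⟨p, rfl⟩, ?_, ?_⟩
      · rw [h0]; exact h2
      · rw [h0]; exact h3
  have hcov : ∀ (S : Set (Vx n)) (v : Vx n), (∃ l, Path (dl w) (none : QS m L0) l none ∧
      fin [] l = [] ∧ v ∈ vis [] l ∧ ∀ u ∈ vis [] l, u ∈ S) ↔
      ∃ p : List (Fin m ⊕ Fin m), fin [] (wd w p) = [] ∧ v ∈ vis [] (wd w p) ∧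
        ∀ u ∈ vis [] (wd w p), u ∈ S := by
    intro S v
    constructor
    · rintro ⟨l, h1, h2, h3, h4⟩
      obtain ⟨p, rfl⟩ := (hq0_aut w hL0 hne l).1 h1
      exact ⟨p, h2, h3, h4⟩
    · rintro ⟨p, h2, h3, h4⟩
      exact ⟨_, (hq0_aut w hL0 hne _).2 ⟨p, rfl⟩, h2, h3, h4⟩
  -- the core equivalence for lists
  have core : ∀ (l1 l2 l3 : List (Vx n)) (S1 S2 S3 : Set (Vx n)),
      (∀ v, v ∈ l1 ↔ v ∈ S1) → (∀ v, v ∈ l2 ↔ v ∈ S2) → (∀ v, v ∈ l3 ↔ v ∈ S3) →
      (∀ v ∈ l1, v ∈ V) → (∀ v ∈ l2, v ∈ V) → (∀ v ∈ l3, v ∈ V) →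
      ((SemF (dl w) (none : QS m L0) (Set.range (fyQ w hL0)) S1 S2 S3 ∧
        (∀ v, v.length < c + D → ¬ (v ∈ S1 ∧ ¬ v ∈ S3)) ∧
        (∀ v, D ≤ v.length → ¬ (v ∈ S2 ∧ ¬ v ∈ S1))) ↔
      ([] ∈ l1 ∧ [] ∈ l2 ∧ (∀ v ∈ l1, CW Wl L l1 v) ∧ (∀ v ∈ l2, CW Wl L l2 v) ∧
        (∀ v ∈ l1, v ∉ l2 ∨ v ∈ l3) ∧ (∀ v ∈ l3, v ∈ l1) ∧
        (∀ v ∈ V, ∀ a ∈ Wl, ¬ RW Wl L l3 a v ∨ RW Wl L (l1.filter (fun u => u ∈ l2)) a v) ∧
        ((∃ v ∈ V, RW Wl L l1 [] v ∧ RW Wl L l2 [] v ∧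
            ¬ RW Wl L (l1.filter (fun u => u ∈ l2)) [] v) ∨
          ∃ v ∈ V, ∃ a ∈ Wl, RW Wl L (l1 ++ l2) a v ∧ ¬ RW Wl L l1 a v ∧ ¬ RW Wl L l2 a v) ∧
        (∀ v ∈ l1, v ∈ l3 ∨ c + D ≤ v.length) ∧ (∀ v ∈ l2, v ∈ l1 ∨ v.length < D))) := by
    intro l1 l2 l3 S1 S2 S3 e1 e2 e3 s1 s2 s3
    have e1' : {u | u ∈ l1} = S1 := Set.ext e1
    have e2' : {u | u ∈ l2} = S2 := Set.ext e2
    have e3' : {u | u ∈ l3} = S3 := Set.ext e3
    have s12 : ∀ v ∈ l1.filter (fun u => u ∈ l2), v ∈ V := fun v hv =>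
      s1 v (List.mem_of_mem_filter hv)
    have su : ∀ v ∈ l1 ++ l2, v ∈ V := fun v hv =>
      (List.mem_append.1 hv).elim (s1 v) (s2 v)
    have c1 := fun v => cw_iff w hWl hL s1 v
    have c2 := fun v => cw_iff w hWl hL s2 v
    have r1 := fun a v => rw_iff w hWl hL1 s1 a v
    have r2 := fun a v => rw_iff w hWl hL1 s2 a v
    have r3 := fun a v => rw_iff w hWl hL1 s3 a v
    have r12 := fun a v => rw_iff w hWl hL1 s12 a v
    have ru := fun a v => rw_iff w hWl hL1 su a v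
    have m12 : ∀ u, u ∈ l1.filter (fun u => u ∈ l2) ↔ u ∈ S1 ∩ S2 := by
      intro u
      rw [List.mem_filter]
      simp only [decide_eq_true_eq]
      rw [e1, e2]
      exact Iff.rfl
    have mu : ∀ u, u ∈ l1 ++ l2 ↔ u ∈ S1 ∪ S2 := by
      intro u
      rw [List.mem_append, e1, e2]
      exact Iff.rfl
    have C1 : ∀ v, CW Wl L l1 v ↔ ∃ l, Path (dl w) (none : QS m L0) l none ∧ fin [] l = [] ∧
        v ∈ vis [] l ∧ ∀ u ∈ vis [] l, u ∈ S1 := by
      intro v; rw [c1, hcov]; simp only [e1]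
    have C2 : ∀ v, CW Wl L l2 v ↔ ∃ l, Path (dl w) (none : QS m L0) l none ∧ fin [] l = [] ∧
        v ∈ vis [] l ∧ ∀ u ∈ vis [] l, u ∈ S2 := by
      intro v; rw [c2, hcov]; simp only [e2]
    have R10 : ∀ v, RW Wl L l1 [] v ↔ Rea (dl w) (none : QS m L0) S1 v none := by
      intro v; rw [r1, hr0]; simp only [e1]
    have R20 : ∀ v, RW Wl L l2 [] v ↔ Rea (dl w) (none : QS m L0) S2 v none := by
      intro v; rw [r2, hr0]; simp only [e2]
    have R120 : ∀ v, RW Wl L (l1.filter (fun u => u ∈ l2)) [] v ↔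
        Rea (dl w) (none : QS m L0) (S1 ∩ S2) v none := by
      intro v; rw [r12, hr0]; simp only [m12]
    have R1y : ∀ v y, RW Wl L l1 (ws w y) v ↔
        Rea (dl w) (none : QS m L0) S1 v (fyQ w hL0 y) := by
      intro v y; rw [r1, hrf]; simp only [e1]
    have R2y : ∀ v y, RW Wl L l2 (ws w y) v ↔
        Rea (dl w) (none : QS m L0) S2 v (fyQ w hL0 y) := by
      intro v y; rw [r2, hrf]; simp only [e2]
    have R3y : ∀ v y, RW Wl L l3 (ws w y) v ↔
        Rea (dl w) (none : QS m L0) S3 v (fyQ w hL0 y) := by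
      intro v y; rw [r3, hrf]; simp only [e3]
    have R12y : ∀ v y, RW Wl L (l1.filter (fun u => u ∈ l2)) (ws w y) v ↔
        Rea (dl w) (none : QS m L0) (S1 ∩ S2) v (fyQ w hL0 y) := by
      intro v y; rw [r12, hrf]; simp only [m12]
    have Ruy : ∀ v y, RW Wl L (l1 ++ l2) (ws w y) v ↔
        Rea (dl w) (none : QS m L0) (S1 ∪ S2) v (fyQ w hL0 y) := by
      intro v y; rw [ru, hrf]; simp only [mu]
    -- endpoints of reachability belong to the set
    have hend : ∀ (S : Set (Vx n)) v s, Rea (dl w) (none : QS m L0) S v s → v ∈ S := by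
      rintro S v s ⟨l, _, h2, h3⟩
      rw [← h2]; exact h3 _ (fin_mem_vis _ _)
    constructor
    · rintro ⟨hS, hfar, hnear⟩
      refine ⟨(e1 _).2 hS.nil1, (e2 _).2 hS.nil2, fun v hv => (C1 v).2 (hS.cov1 v ((e1 v).1 hv)),
        fun v hv => (C2 v).2 (hS.cov2 v ((e2 v).1 hv)), ?_, ?_, ?_, ?_, ?_, ?_⟩
      · intro v hv
        by_cases h : v ∈ l2
        · exact Or.inr ((e3 v).2 (hS.iu v ((e1 v).1 hv) ((e2 v).1 h)))
        · exact Or.inl h
      · intro v hv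
        exact (e1 v).2 (hS.ut v ((e3 v).1 hv))
      · intro v _ a ha
        obtain ⟨y, rfl⟩ := (hWl a).1 ha
        by_cases h : RW Wl L l3 (ws w y) v
        · right
          rw [R12y]
          exact hS.ed v _ ⟨y, rfl⟩ ((R3y v y).1 h)
        · exact Or.inl h
      · rcases hS.cf with ⟨v, a1, a2, a3⟩ | ⟨v, f, ⟨y, rfl⟩, a1, a2, a3⟩
        · left
          exact ⟨v, s1 v ((e1 v).2 (hend _ _ _ a1)), (R10 v).2 a1, (R20 v).2 a2,
            fun h => a3 ((R120 v).1 h)⟩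
        · right
          refine ⟨v, ?_, ws w y, (hWl _).2 ⟨y, rfl⟩, (Ruy v y).2 a1, fun h => a2 ((R1y v y).1 h),
            fun h => a3 ((R2y v y).1 h)⟩
          exact su v ((mu v).2 (hend _ _ _ a1))
      · intro v hv
        by_contra hcon
        push Not at hcon
        exact hfar v hcon.2 ⟨(e1 v).1 hv, fun h => hcon.1 ((e3 v).2 h)⟩
      · intro v hv
        by_contra hcon
        push Not at hcon
        exact hnear v hcon.2 ⟨(e2 v).1 hv, fun h => hcon.1 ((e1 v).2 h)⟩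
    · rintro ⟨g1, g2, g3, g4, g5, g6, g7, g8, g9, g10⟩
      refine ⟨⟨(e1 _).1 g1, (e2 _).1 g2, fun v hv => (C1 v).1 (g3 v ((e1 v).2 hv)),
        fun v hv => (C2 v).1 (g4 v ((e2 v).2 hv)), ?_, ?_, ?_, ?_⟩, ?_, ?_⟩
      · intro v h1 h2
        rcases g5 v ((e1 v).2 h1) with h | h
        · exact absurd ((e2 v).2 h2) h
        · exact (e3 v).1 h
      · intro v h1
        exact (e1 v).1 (g6 v ((e3 v).2 h1))
      · rintro v f ⟨y, rfl⟩ h1
        have hv : v ∈ V := s3 v ((e3 v).2 (hend _ _ _ h1))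
        rcases g7 v hv (ws w y) ((hWl _).2 ⟨y, rfl⟩) with h | h
        · exact absurd ((R3y v y).2 h1) h
        · exact (R12y v y).1 h
      · rcases g8 with ⟨v, _, a1, a2, a3⟩ | ⟨v, _, a, ha, a1, a2, a3⟩
        · left
          exact ⟨v, (R10 v).1 a1, (R20 v).1 a2, fun h => a3 ((R120 v).2 h)⟩
        · right
          obtain ⟨y, rfl⟩ := (hWl a).1 ha
          exact ⟨v, _, ⟨y, rfl⟩, (Ruy v y).1 a1, fun h => a2 ((R1y v y).2 h),
            fun h => a3 ((R2y v y).2 h)⟩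
      · rintro v hv ⟨h1, h2⟩
        rcases g9 v ((e1 v).2 h1) with h | h
        · exact h2 ((e3 v).1 h)
        · omega
      · rintro v hv ⟨h1, h2⟩
        rcases g10 v ((e2 v).2 h1) with h | h
        · exact h2 ((e1 v).1 h)
        · omega
  constructor
  · rintro ⟨X, h1, h2, h3, h4⟩
    have hsub : ∀ v, ((X v).1 ∨ (X v).2.1 ∨ (X v).2.2) → v ∈ V := by
      intro v hv
      rw [hVm]
      by_contra hcon
      rw [h1 v (not_lt.1 hcon)] at hv
      rcases hv with h | h | h <;> exact h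
    obtain ⟨l1, a1, b1⟩ := exists_subl V (fun v => (X v).1)
    obtain ⟨l2, a2, b2⟩ := exists_subl V (fun v => (X v).2.1)
    obtain ⟨l3, a3, b3⟩ := exists_subl V (fun v => (X v).2.2)
    have b1' : ∀ v, v ∈ l1 ↔ v ∈ E1 X := fun v =>
      (b1 v).trans ⟨fun h => h.2, fun h => ⟨hsub v (Or.inl h), h⟩⟩
    have b2' : ∀ v, v ∈ l2 ↔ v ∈ E2 X := fun v =>
      (b2 v).trans ⟨fun h => h.2, fun h => ⟨hsub v (Or.inr (Or.inl h)), h⟩⟩
    have b3' : ∀ v, v ∈ l3 ↔ v ∈ E3 X := fun v =>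
      (b3 v).trans ⟨fun h => h.2, fun h => ⟨hsub v (Or.inr (Or.inr h)), h⟩⟩
    refine ⟨l1, a1, l2, a2, l3, a3, ?_⟩
    exact (core l1 l2 l3 _ _ _ b1' b2' b3' (fun v hv => ((b1 v).1 hv).1)
      (fun v hv => ((b2 v).1 hv).1) (fun v hv => ((b3 v).1 hv).1)).1 ⟨h4, h2, h3⟩
  · rintro ⟨l1, a1, l2, a2, l3, a3, h⟩
    have m1 := mem_subl V l1 a1
    have m2 := mem_subl V l2 a2
    have m3 := mem_subl V l3 a3
    obtain ⟨h4, h2, h3⟩ := (core l1 l2 l3 {v | v ∈ l1} {v | v ∈ l2} {v | v ∈ l3}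
      (fun _ => Iff.rfl) (fun _ => Iff.rfl) (fun _ => Iff.rfl) m1 m2 m3).2 h
    refine ⟨fun v => (v ∈ l1, v ∈ l2, v ∈ l3), ?_, h2, h3, h4⟩
    intro v hv
    have q1 : v ∉ l1 := fun h => absurd ((hVm v).1 (m1 v h)) (by omega)
    have q2 : v ∉ l2 := fun h => absurd ((hVm v).1 (m2 v h)) (by omega)
    have q3 : v ∉ l3 := fun h => absurd ((hVm v).1 (m3 v h)) (by omega)
    simp only [q1, q2, q3]

end Pool.Agent.W404.FP
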