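import Pool.Agent.W404.FP.PresC

set_option autoImplicit false

namespace Pool.Agent.W404.FP

open Pool.Agent.H395R3.Fim Pool.Agent.H395R4.Rec

variable {n m : ℕ}

/-- reachability by words -/
def Rea {Q : Type} (δ : Q → Lt n → Q → Prop) (q0 : Q) (D : Set (Vx n)) (v : Vx n) (s : Q) :
    Prop := ∃ l, Path δ q0 l s ∧ fin [] l = v ∧ ∀ u ∈ vis [] l, u ∈ D

/-- far conflicts for sets of vertices -/
structure SemF {Q : Type} (δ : Q → Lt n → Q → Prop) (q0 : Q) (F : Set Q)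
    (D1 D2 U : Set (Vx n)) : Prop where
  nil1 : [] ∈ D1
  nil2 : [] ∈ D2
  cov1 : ∀ v ∈ D1, ∃ l, Path δ q0 l q0 ∧ fin [] l = [] ∧ v ∈ vis [] l ∧ ∀ u ∈ vis [] l, u ∈ D1
  cov2 : ∀ v ∈ D2, ∃ l, Path δ q0 l q0 ∧ fin [] l = [] ∧ v ∈ vis [] l ∧ ∀ u ∈ vis [] l, u ∈ D2
  iu : ∀ v, v ∈ D1 → v ∈ D2 → v ∈ U
  ut : ∀ v ∈ U, v ∈ D1
  ed : ∀ v, ∀ f ∈ F, Rea δ q0 U v f → Rea δ q0 (D1 ∩ D2) v f
  cf : (∃ v, Rea δ q0 D1 v q0 ∧ Rea δ q0 D2 v q0 ∧ ¬ Rea δ q0 (D1 ∩ D2) v q0) ∨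
    (∃ v, ∃ f ∈ F, Rea δ q0 (D1 ∪ D2) v f ∧ ¬ Rea δ q0 D1 v f ∧ ¬ Rea δ q0 D2 v f)

/-- reduced vertices over a set of group elements -/
def gd (T : Set (FreeGroup (Fin n))) : Set (Vx n) := {v | Red v ∧ rep v ∈ T}

lemma gd_inter (T1 T2 : Set (FreeGroup (Fin n))) : gd (T1 ∩ T2) = gd T1 ∩ gd T2 := by
  ext v
  constructor
  · rintro ⟨h1, h2, h3⟩; exact ⟨⟨h1, h2⟩, h1, h3⟩
  · rintro ⟨⟨h1, h2⟩, _, h3⟩; exact ⟨h1, h2, h3⟩

lemma gd_union (T1 T2 : Set (FreeGroup (Fin n))) : gd (T1 ∪ T2) = gd T1 ∪ gd T2 := by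
  ext v
  constructor
  · rintro ⟨h1, h2 | h3⟩
    · exact Or.inl ⟨h1, h2⟩
    · exact Or.inr ⟨h1, h3⟩
  · rintro (⟨h1, h2⟩ | ⟨h1, h3⟩)
    · exact ⟨h1, Or.inl h2⟩
    · exact ⟨h1, Or.inr h3⟩

lemma gd_image {D : Set (Vx n)} (h : ∀ v ∈ D, Red v) : gd (rep '' D) = D := by
  ext v
  constructor
  · rintro ⟨h1, u, h2, h3⟩
    rw [← rep_inj (h u h2) h1 h3]; exact h2
  · intro hv
    exact ⟨h v hv, v, hv, rfl⟩

/-- the vertex of a group element -/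
def vx (g : FreeGroup (Fin n)) : Vx n := g.toWord.reverse

lemma rep_vx (g : FreeGroup (Fin n)) : rep (vx g) = g := by
  unfold rep vx
  rw [List.reverse_reverse]
  exact FreeGroup.mk_toWord

lemma red_vx (g : FreeGroup (Fin n)) : Red (vx g) := by
  have h := FreeGroup.isReduced_toWord (x := g)
  unfold FreeGroup.IsReduced at h
  unfold Red vx
  rw [List.isChain_reverse]
  refine List.IsChain.imp ?_ h
  rintro ⟨a, x⟩ ⟨b, y⟩ hab h1
  have h2 : b = a := congrArg Prod.fst h1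
  have h3 : y = !x := congrArg Prod.snd h1
  have h4 : x = y := hab h2.symm
  rw [← h4] at h3
  cases x <;> simp at h3

lemma norm_rep {v : Vx n} (h : Red v) : (rep v).norm = v.length := by
  unfold rep
  rw [FreeGroup.norm, FreeGroup.toWord_mk, (isReduced_of_red h).reduce_eq, List.length_reverse]

variable (w : Fin m → List (Lt n))

lemma sub_iff (T : Set (FreeGroup (Fin n))) (p : List (Fin m ⊕ Fin m)) :
    sp (sys w) 1 p ⊆ T ↔ ∀ v ∈ vis [] (wd w p), v ∈ gd T := by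
  constructor
  · intro h v hv
    exact ⟨red_of_vis red_nil _ _ hv, h ((sp_sys_one w p _).2 ⟨v, hv, rfl⟩)⟩
  · intro h g hg
    obtain ⟨v, hv, rfl⟩ := (sp_sys_one w p g).1 hg
    exact (h v hv).2

lemma vl_eq_rep (p : List (Fin m ⊕ Fin m)) {v : Vx n} (hv : Red v) :
    vl (sys w) p = rep v ↔ fin [] (wd w p) = v := by
  rw [vl_sys, ← rep_fin_nil]
  constructor
  · intro h; exact rep_inj (red_fin red_nil _) hv h
  · intro h; rw [h]

variable {Q : Type} {δ : Q → Lt n → Q → Prop} {q0 : Q} {fy : Fin m ⊕ Fin m → Q}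
  (hq0 : ∀ l, Path δ q0 l q0 ↔ ∃ p, l = wd w p)
  (hF : ∀ l y, Path δ q0 l (fy y) ↔ ∃ p, l = wd w (p ++ [y]))

include hq0 in
lemma rea_q0 (T : Set (FreeGroup (Fin n))) {v : Vx n} (hv : Red v) :
    Rea δ q0 (gd T) v q0 ↔ ∃ p, sp (sys w) 1 p ⊆ T ∧ vl (sys w) p = rep v := by
  constructor
  · rintro ⟨l, h1, h2, h3⟩
    obtain ⟨p, rfl⟩ := (hq0 l).1 h1
    exact ⟨p, (sub_iff w T p).2 h3, (vl_eq_rep w p hv).2 h2⟩
  · rintro ⟨p, h1, h2⟩
    exact ⟨_, (hq0 _).2 ⟨p, rfl⟩, (vl_eq_rep w p hv).1 h2, (sub_iff w T p).1 h1⟩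

include hF in
lemma rea_f (T : Set (FreeGroup (Fin n))) {v : Vx n} (hv : Red v) (y : Fin m ⊕ Fin m) :
    Rea δ q0 (gd T) v (fy y) ↔
      ∃ p, sp (sys w) 1 (p ++ [y]) ⊆ T ∧ vl (sys w) (p ++ [y]) = rep v := by
  constructor
  · rintro ⟨l, h1, h2, h3⟩
    obtain ⟨p, rfl⟩ := (hF l y).1 h1
    exact ⟨p, (sub_iff w T _).2 h3, (vl_eq_rep w _ hv).2 h2⟩
  · rintro ⟨p, h1, h2⟩
    exact ⟨_, (hF _ _).2 ⟨p, rfl⟩, (vl_eq_rep w _ hv).1 h2, (sub_iff w T _).1 h1⟩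

lemma rea_red {D : Set (Vx n)} {v : Vx n} {s : Q} (h : Rea δ q0 D v s) : Red v := by
  obtain ⟨l, _, h2, _⟩ := h
  rw [← h2]; exact red_fin red_nil _

lemma vl_snoc_eq {p q : List (Fin m ⊕ Fin m)} {y : Fin m ⊕ Fin m} :
    vl (sys w) (q ++ [y]) = vl (sys w) (p ++ [y]) ↔ vl (sys w) q = vl (sys w) p := by
  rw [vl_append, vl_append, mul_left_inj]

include hF in
lemma ed_iff (T T' : Set (FreeGroup (Fin n))) :
    (∀ p y, sp (sys w) 1 (p ++ [y]) ⊆ T → ∃ q, vl (sys w) q = vl (sys w) p ∧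
      sp (sys w) 1 (q ++ [y]) ⊆ T') ↔
    ∀ v, ∀ f ∈ Set.range fy, Rea δ q0 (gd T) v f → Rea δ q0 (gd T') v f := by
  constructor
  · rintro h v f ⟨y, rfl⟩ hr
    have hv := rea_red hr
    obtain ⟨p, h1, h2⟩ := (rea_f w hF T hv y).1 hr
    obtain ⟨q, h3, h4⟩ := h p y h1
    exact (rea_f w hF T' hv y).2 ⟨q, h4, by rw [← h2]; exact (vl_snoc_eq w).2 h3⟩
  · intro h p y h1
    have h2 := h _ (fy y) ⟨y, rfl⟩ ((rea_f w hF T (red_vx (vl (sys w) (p ++ [y]))) y).2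
      ⟨p, h1, (rep_vx _).symm⟩)
    obtain ⟨q, h3, h4⟩ := (rea_f w hF T' (red_vx _) y).1 h2
    rw [rep_vx] at h4
    exact ⟨q, (vl_snoc_eq w).1 h4, h3⟩

include hq0 in
lemma cov_iff (T : Set (FreeGroup (Fin n))) :
    (∃ z, vl (sys w) z = 1 ∧ T = sp (sys w) 1 z) ↔ (gd T).Finite ∧ [] ∈ gd T ∧
      ∀ v ∈ gd T, ∃ l, Path δ q0 l q0 ∧ fin [] l = [] ∧ v ∈ vis [] l ∧
        ∀ u ∈ vis [] l, u ∈ gd T := by
  constructor
  · rintro ⟨z, h1, h2⟩
    have h3 : gd T = {v | v ∈ vis [] (wd w z)} := by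
      ext v
      constructor
      · rintro ⟨h4, h5⟩
        rw [h2] at h5
        obtain ⟨v', h6, h7⟩ := (sp_sys_one w z _).1 h5
        rw [← rep_inj (red_of_vis red_nil _ _ h6) h4 h7]
        exact h6
      · intro h4
        exact ⟨red_of_vis red_nil _ _ h4, by rw [h2]; exact (sp_sys_one w z _).2 ⟨v, h4, rfl⟩⟩
    rw [h3]
    refine ⟨List.finite_toSet _, start_mem_vis _ _, fun v hv => ⟨wd w z, (hq0 _).2 ⟨z, rfl⟩,
      (vl_eq_rep w z red_nil).1 (by rw [h1]; rfl), hv, fun u hu => hu⟩⟩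
  · rintro ⟨hfin, hnil, hcov⟩
    have key : ∀ A : Set (Vx n), A.Finite → A ⊆ gd T → ∃ z, vl (sys w) z = 1 ∧
        sp (sys w) 1 z ⊆ T ∧ ∀ v ∈ A, rep v ∈ sp (sys w) 1 z := by
      intro A hA
      induction A, hA using Set.Finite.induction_on with
      | empty =>
        intro _
        refine ⟨[], rfl, ?_, by simp⟩
        rw [sub_iff]
        intro v hv
        have : v = [] := by simpa [wd] using hv
        rw [this]; exact hnil
      | @insert a s _ _ ih =>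
        intro hs
        obtain ⟨z, z1, z2, z3⟩ := ih ((Set.subset_insert _ _).trans hs)
        obtain ⟨l, l1, l2, l3, l4⟩ := hcov a (hs (Set.mem_insert _ _))
        obtain ⟨p, rfl⟩ := (hq0 l).1 l1
        have hp : vl (sys w) p = 1 := (vl_eq_rep w p red_nil).2 l2
        refine ⟨z ++ p, by rw [vl_append, z1, hp, one_mul], ?_, ?_⟩
        · rw [sp_append, z1, mul_one]
          exact Set.union_subset z2 ((sub_iff w T p).2 l4)
        · intro v hv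
          rw [sp_append, z1, mul_one]
          rcases Set.mem_insert_iff.1 hv with rfl | hv
          · right
            exact (sp_sys_one w p _).2 ⟨v, l3, rfl⟩
          · left
            exact z3 v hv
    obtain ⟨z, z1, z2, z3⟩ := key (gd T) hfin subset_rfl
    refine ⟨z, z1, Set.Subset.antisymm (fun g hg => ?_) z2⟩
    have := z3 (vx g) ⟨red_vx g, by rw [rep_vx]; exact hg⟩
    rwa [rep_vx] at this

include hq0 hF in
theorem link (D ρ : ℕ) : (∃ T1 T2 U, Psi (sys w) FreeGroup.norm D ρ T1 T2 U) ↔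
    ∃ D1 D2 U : Set (Vx n), D1.Finite ∧ D2.Finite ∧ SemF δ q0 (Set.range fy) D1 D2 U ∧
      (∀ v ∈ D1, v ∉ U → ρ ≤ v.length) ∧ (∀ v ∈ D2, v ∉ D1 → v.length ≤ D) := by
  constructor
  · rintro ⟨T1, T2, U, ⟨c1, c2, iu, ut, ed, far, near, cf⟩⟩
    obtain ⟨f1, n1, v1⟩ := (cov_iff w hq0 T1).1 c1
    obtain ⟨f2, n2, v2⟩ := (cov_iff w hq0 T2).1 c2
    refine ⟨gd T1, gd T2, gd U, f1, f2, ⟨n1, n2, v1, v2, ?_, ?_, ?_, ?_⟩, ?_, ?_⟩
    · intro v h1 h2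
      exact ⟨h1.1, iu ⟨h1.2, h2.2⟩⟩
    · intro v h1
      exact ⟨h1.1, ut h1.2⟩
    · rw [← gd_inter]
      exact (ed_iff w hF U (T1 ∩ T2)).1 ed
    · unfold NoConf at cf
      rw [not_and_or] at cf
      rw [← gd_inter, ← gd_union]
      rcases cf with cf | cf
      · left
        push Not at cf
        obtain ⟨p, q, h1, h2, h3, h4⟩ := cf
        refine ⟨vx (vl (sys w) p), (rea_q0 w hq0 T1 (red_vx _)).2 ⟨p, h1, (rep_vx _).symm⟩,
          (rea_q0 w hq0 T2 (red_vx _)).2 ⟨q, h2, by rw [rep_vx, h3]⟩, ?_⟩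
        intro h5
        obtain ⟨s, h6, h7⟩ := (rea_q0 w hq0 _ (red_vx _)).1 h5
        rw [rep_vx] at h7
        exact h4 s h6 h7
      · right
        push Not at cf
        obtain ⟨p, y, h1, h2, h3⟩ := cf
        refine ⟨vx (vl (sys w) (p ++ [y])), fy y, ⟨y, rfl⟩,
          (rea_f w hF _ (red_vx _) y).2 ⟨p, h1, (rep_vx _).symm⟩, ?_, ?_⟩
        · intro h5
          obtain ⟨q, h6, h7⟩ := (rea_f w hF _ (red_vx _) y).1 h5
          rw [rep_vx] at h7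
          exact h2 q ((vl_snoc_eq w).1 h7) h6
        · intro h5
          obtain ⟨q, h6, h7⟩ := (rea_f w hF _ (red_vx _) y).1 h5
          rw [rep_vx] at h7
          exact h3 q ((vl_snoc_eq w).1 h7) h6
    · intro v h1 h2
      rw [← norm_rep h1.1]
      exact far _ h1.2 fun h3 => h2 ⟨h1.1, h3⟩
    · intro v h1 h2
      rw [← norm_rep h1.1]
      exact near _ h1.2 fun h3 => h2 ⟨h1.1, h3⟩
  · rintro ⟨D1, D2, U, f1, f2, hS, far, near⟩
    have r1 : ∀ v ∈ D1, Red v := by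
      intro v hv
      obtain ⟨l, _, _, h3, _⟩ := hS.cov1 v hv
      exact red_of_vis red_nil _ _ h3
    have r2 : ∀ v ∈ D2, Red v := by
      intro v hv
      obtain ⟨l, _, _, h3, _⟩ := hS.cov2 v hv
      exact red_of_vis red_nil _ _ h3
    have rU : ∀ v ∈ U, Red v := fun v hv => r1 v (hS.ut v hv)
    have g1 := gd_image r1
    have g2 := gd_image r2
    have gU := gd_image rU
    refine ⟨rep '' D1, rep '' D2, rep '' U, ?_, ?_, ?_, ?_, ?_, ?_, ?_, ?_⟩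
    · rw [cov_iff w hq0, g1]
      exact ⟨f1, hS.nil1, hS.cov1⟩
    · rw [cov_iff w hq0, g2]
      exact ⟨f2, hS.nil2, hS.cov2⟩
    · rintro g ⟨⟨u, h1, rfl⟩, u', h2, h3⟩
      have := rep_inj (r2 _ h2) (r1 _ h1) h3
      subst this
      exact ⟨u', hS.iu _ h1 h2, rfl⟩
    · rintro g ⟨u, h1, rfl⟩
      exact ⟨u, hS.ut _ h1, rfl⟩
    · rw [ed_iff w hF (q0 := q0) (δ := δ), gd_inter, g1, g2, gU]
      exact hS.ed
    · rintro g ⟨u, h1, rfl⟩ h2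
      rw [norm_rep (r1 u h1)]
      exact far u h1 fun h3 => h2 ⟨u, h3, rfl⟩
    · rintro g ⟨u, h1, rfl⟩ h2
      rw [norm_rep (r2 u h1)]
      exact near u h1 fun h3 => h2 ⟨u, h3, rfl⟩
    · rintro ⟨hA, hB⟩
      rcases hS.cf with ⟨v, h1, h2, h3⟩ | ⟨v, f, ⟨y, rfl⟩, h1, h2, h3⟩
      · have hv := rea_red h1
        rw [← g1] at h1 h3
        rw [← g2] at h2 h3
        rw [← gd_inter] at h3
        obtain ⟨p, a1, a2⟩ := (rea_q0 w hq0 _ hv).1 h1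
        obtain ⟨q, b1, b2⟩ := (rea_q0 w hq0 _ hv).1 h2
        obtain ⟨s, s1, s2⟩ := hA p q a1 b1 (a2.trans b2.symm)
        exact h3 ((rea_q0 w hq0 _ hv).2 ⟨s, s1, s2.trans a2⟩)
      · have hv := rea_red h1
        rw [← g1] at h1 h2
        rw [← g2] at h1 h3
        rw [← gd_union] at h1
        obtain ⟨p, a1, a2⟩ := (rea_f w hF _ hv y).1 h1
        rcases hB p y a1 with ⟨q, b1, b2⟩ | ⟨q, b1, b2⟩
        · exact h2 ((rea_f w hF _ hv y).2 ⟨q, b2, ((vl_snoc_eq w).2 b1).trans a2⟩)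
        · exact h3 ((rea_f w hF _ hv y).2 ⟨q, b2, ((vl_snoc_eq w).2 b1).trans a2⟩)

end Pool.Agent.W404.FP
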