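import Mathlib

set_option autoImplicit false

namespace Pool.Agent.W404.FP

/-- words over letters and inverse letters -/
abbrev FS (m : ℕ) := FreeSemigroup (Fin m ⊕ Fin m)

/-- inverse of a word -/
def sinv (m : ℕ) (w : FS m) : FS m :=
  MulOpposite.unop
    (FreeSemigroup.lift (fun a : Fin m ⊕ Fin m => MulOpposite.op (FreeSemigroup.of a.swap)) w)

/-- the Wagner relations -/
def WR (m : ℕ) (u v : FS m) : Prop :=
  (∃ w, u = w * sinv m w * w ∧ v = w) ∨
    ∃ w w', u = w * sinv m w * (w' * sinv m w') ∧ v = w' * sinv m w' * (w * sinv m w)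

lemma sinv_of {m : ℕ} (a : Fin m ⊕ Fin m) : sinv m (FreeSemigroup.of a) =
    FreeSemigroup.of a.swap := by
  unfold sinv
  rw [FreeSemigroup.lift_of]
  rfl

lemma sinv_mul {m : ℕ} (u v : FS m) : sinv m (u * v) = sinv m v * sinv m u := by
  unfold sinv
  rw [map_mul]
  rfl

lemma sinv_sinv {m : ℕ} (u : FS m) : sinv m (sinv m u) = u := by
  induction u using FreeSemigroup.recOnMul with
  | ih1 a => rw [sinv_of, sinv_of, Sum.swap_swap]
  | ih2 x y h1 h2 => rw [sinv_mul, sinv_mul, h1, h2]

section inverse

variable {Q : Type} [Semigroup Q] {P : Q → Q → Prop}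

lemma idem_eq (h1 : ∀ x x', P x x' → x * x' * x = x) (h2 : ∀ x x', P x x' → P x' x)
    (h3 : ∀ x x' y y', P x x' → P y y' → x * x' * (y * y') = y * y' * (x * x'))
    {e f : Q} (hef : P e f) (he : e * e = e) : e = f := by
  have a1 := h1 e f hef
  have a2 := h1 f e (h2 e f hef)
  have a3 := h3 e f f e hef (h2 e f hef)
  have b1 : f = e * f * (f * e) := by
    calc f = f * e * f := a2.symm
      _ = f * (e * e) * f := by rw [he]
      _ = f * e * (e * f) := by simp only [mul_assoc]
      _ = e * f * (f * e) := a3.symm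
  have b2 : e * f = f := by
    calc e * f = e * (e * f * (f * e)) := by rw [← b1]
      _ = (e * e) * (f * (f * e)) := by simp only [mul_assoc]
      _ = e * f * (f * e) := by rw [he]; simp only [mul_assoc]
      _ = f := b1.symm
  have b3 : f * e = f := by
    calc f * e = (e * f * (f * e)) * e := by rw [← b1]
      _ = e * f * (f * (e * e)) := by simp only [mul_assoc]
      _ = e * f * (f * e) := by rw [he]
      _ = f := b1.symm
  calc e = e * f * e := a1.symm
    _ = f * e := by rw [b2]
    _ = f := b3

lemma idem_comm (h1 : ∀ x x', P x x' → x * x' * x = x) (h2 : ∀ x x', P x x' → P x' x)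
    (h3 : ∀ x x' y y', P x x' → P y y' → x * x' * (y * y') = y * y' * (x * x'))
    (h4 : ∀ x, ∃ x', P x x') {e g : Q} (he : e * e = e) (hg : g * g = g) :
    e * g = g * e := by
  obtain ⟨f, hf⟩ := h4 e
  obtain ⟨k, hk⟩ := h4 g
  have e1 := idem_eq h1 h2 h3 hf he
  have e2 := idem_eq h1 h2 h3 hk hg
  have := h3 e f g k hf hk
  rw [← e1, ← e2, he, hg] at this
  exact this

lemma inv_unique (h1 : ∀ x x', P x x' → x * x' * x = x) (h2 : ∀ x x', P x x' → P x' x)
    (h3 : ∀ x x' y y', P x x' → P y y' → x * x' * (y * y') = y * y' * (x * x'))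
    (h4 : ∀ x, ∃ x', P x x') {a b c : Q} (hab : a * b * a = a) (hba : b * a * b = b)
    (hac : a * c * a = a) (hca : c * a * c = c) : b = c := by
  have i1 : (a * b) * (a * b) = a * b := by rw [← mul_assoc, hab]
  have i2 : (a * c) * (a * c) = a * c := by rw [← mul_assoc, hac]
  have i3 : (b * a) * (b * a) = b * a := by rw [← mul_assoc, hba]
  have i4 : (c * a) * (c * a) = c * a := by rw [← mul_assoc, hca]
  have c1 := idem_comm h1 h2 h3 h4 i1 i2
  have c2 := idem_comm h1 h2 h3 h4 i3 i4
  calc b = b * a * b := hba.symm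
    _ = b * (a * c * a) * b := by rw [hac]
    _ = b * ((a * c) * (a * b)) := by simp only [mul_assoc]
    _ = b * ((a * b) * (a * c)) := by rw [c1]
    _ = (b * a * b) * (a * c) := by simp only [mul_assoc]
    _ = b * (a * c) := by rw [hba]
    _ = b * (a * (c * a * c)) := by rw [hca]
    _ = ((b * a) * (c * a)) * c := by simp only [mul_assoc]
    _ = ((c * a) * (b * a)) * c := by rw [c2]
    _ = c * (a * b * a) * c := by simp only [mul_assoc]
    _ = c * a * c := by rw [hab]
    _ = c := hca

end inverse

section quot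

variable {m : ℕ} {c : Con (FS m)} (hc : ∀ u v, WR m u v → c u v)
include hc

lemma quot_w1 (w : FS m) : (w : c.Quotient) * (sinv m w : FS m) * w = w := by
  rw [← Con.coe_mul, ← Con.coe_mul, Con.eq]
  exact hc _ _ (Or.inl ⟨w, rfl, rfl⟩)

lemma quot_w2 (w w' : FS m) : (w : c.Quotient) * (sinv m w : FS m) * (w' * (sinv m w' : FS m)) =
    w' * (sinv m w' : FS m) * (w * (sinv m w : FS m)) := by
  simp only [← Con.coe_mul]
  rw [Con.eq]
  exact hc _ _ (Or.inr ⟨w, w', rfl, rfl⟩)

lemma quot_inv_unique {a b b' : c.Quotient} (hab : a * b * a = a) (hba : b * a * b = b)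
    (hac : a * b' * a = a) (hca : b' * a * b' = b') : b = b' := by
  refine inv_unique (P := fun x x' : c.Quotient => ∃ w : FS m, x = w ∧ x' = (sinv m w : FS m))
    ?_ ?_ ?_ ?_ hab hba hac hca
  · rintro x x' ⟨w, rfl, rfl⟩
    exact quot_w1 hc w
  · rintro x x' ⟨w, rfl, rfl⟩
    exact ⟨sinv m w, rfl, by rw [sinv_sinv]⟩
  · rintro x x' y y' ⟨w, rfl, rfl⟩ ⟨w', rfl, rfl⟩
    exact quot_w2 hc w w'
  · intro x
    induction x using Con.induction_on with
    | H w => exact ⟨_, w, rfl, rfl⟩

end quot

/-- substitution of words for letters -/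
def emb {m n : ℕ} (e : Fin m → FS n) : FS m →ₙ* FS n :=
  FreeSemigroup.lift (Sum.elim e (fun i => sinv n (e i)))

lemma emb_sinv {m n : ℕ} (e : Fin m → FS n) (u : FS m) :
    emb e (sinv m u) = sinv n (emb e u) := by
  induction u using FreeSemigroup.recOnMul with
  | ih1 a =>
    rw [sinv_of]
    unfold emb
    rw [FreeSemigroup.lift_of, FreeSemigroup.lift_of]
    cases a with
    | inl i => rfl
    | inr i => simp [sinv_sinv]
  | ih2 x y h1 h2 => rw [sinv_mul, map_mul, map_mul, h1, h2, sinv_mul]

lemma emb_WR {m n : ℕ} (e : Fin m → FS n) {u v : FS m} (h : WR m u v) :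
    WR n (emb e u) (emb e v) := by
  rcases h with ⟨w, rfl, rfl⟩ | ⟨w, w', rfl, rfl⟩
  · left
    exact ⟨emb e v, by simp only [map_mul, emb_sinv], rfl⟩
  · right
    exact ⟨emb e w, emb e w', by simp only [map_mul, emb_sinv], by simp only [map_mul, emb_sinv]⟩

/-- the short relations of a relation -/
def Sh {m : ℕ} (r : ℕ) (k : FS m → FS m → Prop) (u v : FS m) : Prop :=
  WR m u v ∨ (k u v ∧ u.length ≤ r ∧ v.length ≤ r)

/-- all words of length at most `r` are in a finite list -/
lemma finite_le (m r : ℕ) : {u : FS m | u.length ≤ r}.Finite := by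
  have h : {u : FS m | u.length ≤ r} ⊆ (fun p : (Fin m ⊕ Fin m) × List (Fin m ⊕ Fin m) =>
      (⟨p.1, p.2⟩ : FS m)) '' (Set.univ ×ˢ {l | l.length ≤ r}) := by
    intro u hu
    refine ⟨(u.head, u.tail), ⟨Set.mem_univ _, ?_⟩, rfl⟩
    have hu' : u.tail.length + 1 ≤ r := hu
    show u.tail.length ≤ r
    omega
  refine Set.Finite.subset (Set.Finite.image _ (Set.finite_univ.prod ?_)) h
  exact List.finite_length_le _ r

variable {n : ℕ}

/-- the semigroup generated by the words `e i` -/
def genS {m0 : ℕ} (e : Fin m0 → FS n) : Subsemigroup (conGen (WR n)).Quotient :=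
  Subsemigroup.closure {x | ∃ i, x = (e i : (conGen (WR n)).Quotient) ∨
    x = ((sinv n (e i) : FS n) : (conGen (WR n)).Quotient)}

lemma mem_genS {m0 : ℕ} (e : Fin m0 → FS n) (x : (conGen (WR n)).Quotient) :
    x ∈ genS e ↔ ∃ u : FS m0, ((emb e u : FS n) : (conGen (WR n)).Quotient) = x := by
  constructor
  · intro h
    induction h using Subsemigroup.closure_induction with
    | mem x hx =>
      obtain ⟨i, rfl | rfl⟩ := hx
      · exact ⟨FreeSemigroup.of (Sum.inl i), by unfold emb; rw [FreeSemigroup.lift_of]; rfl⟩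
      · exact ⟨FreeSemigroup.of (Sum.inr i), by unfold emb; rw [FreeSemigroup.lift_of]; rfl⟩
    | mul x y _ _ ihx ihy =>
      obtain ⟨u, rfl⟩ := ihx
      obtain ⟨v, rfl⟩ := ihy
      exact ⟨u * v, by rw [map_mul]; rfl⟩
  · rintro ⟨u, rfl⟩
    induction u using FreeSemigroup.recOnMul with
    | ih1 a =>
      apply Subsemigroup.subset_closure
      unfold emb
      rw [FreeSemigroup.lift_of]
      cases a with
      | inl i => exact ⟨i, Or.inl rfl⟩
      | inr i => exact ⟨i, Or.inr rfl⟩
    | ih2 x y h1 h2 =>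
      rw [map_mul]
      exact (genS e).mul_mem h1 h2

/-- kernel -/
def Kp {m0 : ℕ} (e : Fin m0 → FS n) (u v : FS m0) : Prop := conGen (WR n) (emb e u) (emb e v)

/-- finite presentability through bounded relations -/
theorem fp_iff {m0 : ℕ} (e : Fin m0 → FS n) :
    (∃ (m : ℕ) (R : List (FS m × FS m)), Nonempty (↥(genS e) ≃*
      (conGen (fun u v : FS m => WR m u v ∨ (u, v) ∈ R)).Quotient)) ↔
    ∃ r, ∀ u v : FS m0, Kp e u v → conGen (Sh r (Kp e)) u v := by
  constructor
  · rintro ⟨m, R, ⟨φ⟩⟩
    -- words for the generators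
    have hsurj : ∀ x : genS e, ∃ u : FS m0,
        ((emb e u : FS n) : (conGen (WR n)).Quotient) = x := fun x => (mem_genS e x.1).1 x.2
    set cR := conGen (fun u v : FS m => WR m u v ∨ (u, v) ∈ R) with hcR
    have hcR1 : ∀ u v, WR m u v → cR u v := fun u v h => ConGen.Rel.of _ _ (Or.inl h)
    choose f hf using fun i : Fin m => hsurj (φ.symm ((FreeSemigroup.of (Sum.inl i) : FS m) :
      cR.Quotient))
    have key : ∀ u : FS m, ((emb e (emb f u) : FS n) : (conGen (WR n)).Quotient) =
        (φ.symm (u : cR.Quotient) : genS e) := by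
      intro u
      induction u using FreeSemigroup.recOnMul with
      | ih1 a =>
        cases a with
        | inl i =>
          have e1 : emb f (FreeSemigroup.of (Sum.inl i)) = f i := by
            unfold emb; rw [FreeSemigroup.lift_of]; rfl
          rw [e1]; exact hf i
        | inr i =>
          have e1 : emb f (FreeSemigroup.of (Sum.inr i)) = sinv m0 (f i) := by
            unfold emb; rw [FreeSemigroup.lift_of]; rfl
          rw [e1, emb_sinv]
          have hW : ∀ u v, WR n u v → conGen (WR n) u v := fun u v h => ConGen.Rel.of _ _ h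
          have e2 : sinv m (FreeSemigroup.of (Sum.inl i)) = FreeSemigroup.of (Sum.inr i) := by
            rw [sinv_of]; rfl
          refine quot_inv_unique hW (a := ((emb e (f i) : FS n) : (conGen (WR n)).Quotient))
            ?_ ?_ ?_ ?_
          · exact quot_w1 hW _
          · have := quot_w1 hW (sinv n (emb e (f i)))
            rwa [sinv_sinv] at this
          · rw [hf i]
            have h5 := quot_w1 hcR1 (FreeSemigroup.of (Sum.inl i))
            rw [e2] at h5
            have h6 := congrArg φ.symm h5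
            rw [map_mul, map_mul] at h6
            exact congrArg Subtype.val h6
          · rw [hf i]
            have h5 := quot_w1 hcR1 (sinv m (FreeSemigroup.of (Sum.inl i)))
            rw [sinv_sinv, e2] at h5
            have h6 := congrArg φ.symm h5
            rw [map_mul, map_mul] at h6
            exact congrArg Subtype.val h6
      | ih2 x y h1 h2 =>
        rw [map_mul, map_mul, Con.coe_mul, Con.coe_mul, map_mul, h1, h2]
        rfl
    -- words for the old generators
    have hg : ∀ y : Fin m0 ⊕ Fin m0, ∃ u : FS m, Kp e (FreeSemigroup.of y) (emb f u) := by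
      intro y
      have hy : ((emb e (FreeSemigroup.of y) : FS n) : (conGen (WR n)).Quotient) ∈ genS e :=
        (mem_genS e _).2 ⟨_, rfl⟩
      obtain ⟨u, hu⟩ := Quot.exists_rep (φ ⟨_, hy⟩)
      refine ⟨u, ?_⟩
      unfold Kp
      rw [← Con.eq, key]
      have : φ.symm ((u : FS m) : cR.Quotient) = ⟨_, hy⟩ := by
        rw [MulEquiv.symm_apply_eq]
        exact hu
      rw [this]
    choose g hg using hg
    -- the bound
    obtain ⟨r1, hr1⟩ : ∃ r1, ∀ p ∈ R, (emb f p.1).length ≤ r1 ∧ (emb f p.2).length ≤ r1 := by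
      refine ⟨(R.map fun p => (emb f p.1).length + (emb f p.2).length).sum, fun p hp => ?_⟩
      have := List.single_le_sum (l := R.map fun p => (emb f p.1).length + (emb f p.2).length)
        (fun _ _ => Nat.zero_le _) _ (List.mem_map_of_mem hp)
      omega
    obtain ⟨r2, hr2⟩ : ∃ r2, ∀ y, (emb f (g y)).length ≤ r2 := by
      refine ⟨Finset.univ.sup fun y => (emb f (g y)).length, fun y => ?_⟩
      exact Finset.le_sup (f := fun y => (emb f (g y)).length) (Finset.mem_univ y)
    refine ⟨r1 + r2 + 1, ?_⟩
    set c := conGen (Sh (r1 + r2 + 1) (Kp e)) with hc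
    have hle : cR ≤ Con.comap (emb f) (map_mul _) c := by
      rw [hcR, Con.conGen_le]
      rintro u v (h | h)
      · exact ConGen.Rel.of _ _ (Or.inl (emb_WR f h))
      · refine ConGen.Rel.of _ _ (Or.inr ⟨?_, ?_, ?_⟩)
        · unfold Kp
          rw [← Con.eq, key, key]
          have : (u : cR.Quotient) = v := (Con.eq _).2 (ConGen.Rel.of _ _ (Or.inr h))
          rw [this]
        · have := (hr1 _ h).1; simp only at this; omega
        · have := (hr1 _ h).2; simp only at this; omega
    -- retraction
    set τ : FS m0 →ₙ* FS m := FreeSemigroup.lift g with hτ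
    have hτ1 : ∀ p : FS m0, c p (emb f (τ p)) ∧ Kp e p (emb f (τ p)) := by
      intro p
      induction p using FreeSemigroup.recOnMul with
      | ih1 a =>
        rw [hτ, FreeSemigroup.lift_of]
        refine ⟨ConGen.Rel.of _ _ (Or.inr ⟨hg a, ?_, ?_⟩), hg a⟩
        · rw [FreeSemigroup.length_of]; omega
        · have := hr2 a; omega
      | ih2 x y h1 h2 =>
        rw [map_mul τ, map_mul (emb f)]
        refine ⟨c.mul h1.1 h2.1, ?_⟩
        unfold Kp at *
        rw [map_mul (emb e), map_mul (emb e)]
        exact (conGen (WR n)).mul h1.2 h2.2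
    intro p q hpq
    have h1 : Kp e (emb f (τ p)) (emb f (τ q)) := by
      have h2 := (hτ1 p).2
      have h3 := (hτ1 q).2
      unfold Kp at *
      exact ((conGen (WR n)).symm h2).trans (hpq.trans h3)
    have h4 : cR (τ p) (τ q) := by
      unfold Kp at h1
      rw [← Con.eq, key, key] at h1
      have h5 := φ.symm.injective (Subtype.ext h1)
      exact (Con.eq _).1 h5
    exact (hτ1 p).1.trans ((hle h4).trans (c.symm (hτ1 q).1))
  · rintro ⟨r, hr⟩
    have hfin : {p : FS m0 × FS m0 | Kp e p.1 p.2 ∧ p.1.length ≤ r ∧ p.2.length ≤ r}.Finite := by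
      refine ((finite_le m0 r).prod (finite_le m0 r)).subset ?_
      rintro ⟨u, v⟩ ⟨_, h1, h2⟩
      exact ⟨h1, h2⟩
    set R := hfin.toFinset.toList with hR
    have hRm : ∀ u v, (u, v) ∈ R ↔ Kp e u v ∧ u.length ≤ r ∧ v.length ≤ r := by
      intro u v
      rw [hR, Finset.mem_toList, Set.Finite.mem_toFinset]
      exact Iff.rfl
    refine ⟨m0, R, ?_⟩
    have hrel : (fun u v : FS m0 => WR m0 u v ∨ (u, v) ∈ R) = Sh r (Kp e) := by
      funext u v
      unfold Sh
      rw [hRm]
    rw [hrel]
    set c := conGen (Sh r (Kp e)) with hc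
    have hback : ∀ u v, c u v → Kp e u v := by
      have hle : c ≤ Con.comap (emb e) (map_mul _) (conGen (WR n)) := by
        rw [hc, Con.conGen_le]
        rintro u v (h | h)
        · exact ConGen.Rel.of _ _ (emb_WR e h)
        · exact h.1
      exact fun u v h => hle h
    -- the isomorphism
    have hwell : ∀ u v : FS m0, c u v →
        (⟨((emb e u : FS n) : (conGen (WR n)).Quotient), (mem_genS e _).2 ⟨u, rfl⟩⟩ : genS e) =
        ⟨((emb e v : FS n) : (conGen (WR n)).Quotient), (mem_genS e _).2 ⟨v, rfl⟩⟩ := by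
      intro u v h
      apply Subtype.ext
      exact (Con.eq _).2 (hback u v h)
    let ψ : c.Quotient →ₙ* genS e :=
      { toFun := fun q => Con.liftOn q (fun u => (⟨((emb e u : FS n) :
          (conGen (WR n)).Quotient), (mem_genS e _).2 ⟨u, rfl⟩⟩ : genS e)) hwell
        map_mul' := by
          intro x y
          induction x, y using Con.induction_on₂ with
          | H x y =>
            rw [← Con.coe_mul, Con.liftOn_coe, Con.liftOn_coe, Con.liftOn_coe]
            apply Subtype.ext
            show ((emb e (x * y) : FS n) : (conGen (WR n)).Quotient) = _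
            rw [map_mul]
            rfl }
    have hψ : Function.Bijective ψ := by
      constructor
      · intro x y
        induction x, y using Con.induction_on₂ with
        | H x y =>
          intro h
          have h1 : (⟨((emb e x : FS n) : (conGen (WR n)).Quotient),
            (mem_genS e _).2 ⟨x, rfl⟩⟩ : genS e) = ⟨((emb e y : FS n) :
            (conGen (WR n)).Quotient), (mem_genS e _).2 ⟨y, rfl⟩⟩ := h
          have h2 := congrArg Subtype.val h1
          rw [Con.eq]
          exact hr x y ((Con.eq _).1 h2)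
      · rintro ⟨x, hx⟩
        obtain ⟨u, hu⟩ := (mem_genS e x).1 hx
        refine ⟨(u : c.Quotient), Subtype.ext ?_⟩
        exact hu
    exact ⟨(MulEquiv.ofBijective ψ hψ).symm⟩

end Pool.Agent.W404.FP
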