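import Pool.Agent.W404.FP.PresA
import Pool.Agent.W404.FP.CritE
import Pool.Agent.H395R4.RecF

set_option autoImplicit false

namespace Pool.Agent.W404.FP

open Pool.Agent.H395R3.Fim Pool.Agent.H395R4.Rec

variable {n : ℕ}

/-- list of letters of a word -/
def lw (a : FS n) : List (Lt n) := (a.head :: a.tail).map en

lemma lw_mul (a b : FS n) : lw (a * b) = lw a ++ lw b := by
  simp [lw]

lemma lw_inj {a b : FS n} (h : lw a = lw b) : a = b := by
  have hen : Function.Injective (en : Ls n → Lt n) := by
    intro x y hxy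
    rw [← dn_en x, hxy, dn_en]
  unfold lw at h
  have h1 := List.map_injective_iff.2 hen h
  have h2 := List.cons.inj h1
  exact FreeSemigroup.ext h2.1 h2.2

lemma exists_lw {l : List (Lt n)} (h : l ≠ []) : ∃ a : FS n, l = lw a := by
  cases l with
  | nil => exact absurd rfl h
  | cons x l =>
    refine ⟨⟨dn x, l.map dn⟩, ?_⟩
    unfold lw
    rw [List.map_cons, en_dn, List.map_map]
    have : (en ∘ dn : Lt n → Lt n) = id := by funext x; exact en_dn x
    rw [this, List.map_id]

lemma lw_ne (a : FS n) : lw a ≠ [] := by simp [lw]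

lemma lw_sinv (a : FS n) : lw (sinv n a) = winv (lw a) := by
  induction a using FreeSemigroup.recOnMul with
  | ih1 a =>
    rw [sinv_of]
    cases a <;> rfl
  | ih2 x y h1 h2 =>
    rw [sinv_mul, lw_mul, lw_mul, h1, h2]
    simp [winv]

/-- Munn's theorem for semigroups -/
theorem munnS (a b : FS n) : conGen (WR n) a b ↔ Same (lw a) (lw b) := by
  constructor
  · intro h
    have hle : conGen (WR n) ≤ Con.comap (fun a : FS n => FreeMonoid.ofList (lw a))
        (by intro x y; rw [lw_mul, FreeMonoid.ofList_append]) (conGen (vagRel n)) := by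
      rw [Con.conGen_le]
      rintro u v (⟨w, rfl, rfl⟩ | ⟨w, w', rfl, rfl⟩)
      · apply ConGen.Rel.of
        left
        refine ⟨FreeMonoid.ofList (lw v), ?_, rfl⟩
        show FreeMonoid.ofList (lw (v * sinv n v * v)) = _
        rw [lw_mul, lw_mul, lw_sinv, FreeMonoid.ofList_append, FreeMonoid.ofList_append]
        rfl
      · apply ConGen.Rel.of
        right
        refine ⟨FreeMonoid.ofList (lw w), FreeMonoid.ofList (lw w'), ?_, ?_⟩
        · show FreeMonoid.ofList (lw (w * sinv n w * (w' * sinv n w'))) = _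
          simp only [lw_mul, lw_sinv, FreeMonoid.ofList_append, mul_assoc]
          rfl
        · show FreeMonoid.ofList (lw (w' * sinv n w' * (w * sinv n w))) = _
          simp only [lw_mul, lw_sinv, FreeMonoid.ofList_append, mul_assoc]
          rfl
    exact (munn _ _).1 (hle h)
  · intro h
    have h1 := (munn (lw a) (lw b)).2 h
    let E : Con (FreeMonoid (Lt n)) :=
      { r := fun p q => p = q ∨ ∃ a b : FS n, p = FreeMonoid.ofList (lw a) ∧
          q = FreeMonoid.ofList (lw b) ∧ conGen (WR n) a b
        iseqv :=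
          { refl := fun p => Or.inl rfl
            symm := by
              rintro p q (h | ⟨a, b, h1, h2, h3⟩)
              · exact Or.inl h.symm
              · exact Or.inr ⟨b, a, h2, h1, (conGen (WR n)).symm h3⟩
            trans := by
              rintro p q s (rfl | ⟨a, b, h1, h2, h3⟩) h'
              · exact h'
              · rcases h' with rfl | ⟨a', b', h1', h2', h3'⟩
                · exact Or.inr ⟨a, b, h1, h2, h3⟩
                · have : b = a' := lw_inj (FreeMonoid.ofList.injective (h2.symm.trans h1'))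
                  subst this
                  exact Or.inr ⟨a, b', h1, h2', (conGen (WR n)).trans h3 h3'⟩ }
        mul' := by
          rintro p q s t (rfl | ⟨a, b, rfl, rfl, h3⟩) (rfl | ⟨a', b', rfl, rfl, h3'⟩)
          · exact Or.inl rfl
          · by_cases hp : FreeMonoid.toList p = []
            · have hp' : p = 1 := hp
              rw [hp', one_mul, one_mul]
              exact Or.inr ⟨a', b', rfl, rfl, h3'⟩
            · obtain ⟨c, hc⟩ := exists_lw hp
              have hp' : p = FreeMonoid.ofList (lw c) := hc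
              refine Or.inr ⟨c * a', c * b', ?_, ?_, (conGen (WR n)).mul ((conGen (WR n)).refl _) h3'⟩
              · rw [lw_mul, FreeMonoid.ofList_append, ← hp']
              · rw [lw_mul, FreeMonoid.ofList_append, ← hp']
          · by_cases hp : FreeMonoid.toList s = []
            · have hp' : s = 1 := hp
              rw [hp', mul_one, mul_one]
              exact Or.inr ⟨a, b, rfl, rfl, h3⟩
            · obtain ⟨c, hc⟩ := exists_lw hp
              have hp' : s = FreeMonoid.ofList (lw c) := hc
              refine Or.inr ⟨a * c, b * c, ?_, ?_, (conGen (WR n)).mul h3 ((conGen (WR n)).refl _)⟩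
              · rw [lw_mul, FreeMonoid.ofList_append, ← hp']
              · rw [lw_mul, FreeMonoid.ofList_append, ← hp']
          · refine Or.inr ⟨a * a', b * b', ?_, ?_, (conGen (WR n)).mul h3 h3'⟩
            · rw [lw_mul, FreeMonoid.ofList_append]
            · rw [lw_mul, FreeMonoid.ofList_append] }
    have hle : conGen (vagRel n) ≤ E := by
      rw [Con.conGen_le]
      rintro p q (⟨u, rfl, rfl⟩ | ⟨u, v, rfl, rfl⟩)
      · by_cases hp : FreeMonoid.toList q = []
        · left
          have hp' : q = 1 := hp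
          rw [hp']; rfl
        · obtain ⟨c, hc⟩ := exists_lw hp
          have hp' : q = FreeMonoid.ofList (lw c) := hc
          right
          refine ⟨c * sinv n c * c, c, ?_, hp', ConGen.Rel.of _ _ (Or.inl ⟨c, rfl, rfl⟩)⟩
          rw [lw_mul, lw_mul, lw_sinv, FreeMonoid.ofList_append, FreeMonoid.ofList_append, hp']
          rfl
      · by_cases hp : FreeMonoid.toList u = []
        · left
          have hp' : u = 1 := hp
          rw [hp']
          simp
        · by_cases hq : FreeMonoid.toList v = []
          · left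
            have hq' : v = 1 := hq
            rw [hq']
            simp
          · obtain ⟨c, hc⟩ := exists_lw hp
            have hp' : u = FreeMonoid.ofList (lw c) := hc
            obtain ⟨d, hd⟩ := exists_lw hq
            have hq' : v = FreeMonoid.ofList (lw d) := hd
            right
            refine ⟨c * sinv n c * (d * sinv n d), d * sinv n d * (c * sinv n c), ?_, ?_,
              ConGen.Rel.of _ _ (Or.inr ⟨c, d, rfl, rfl⟩)⟩
            · simp only [lw_mul, lw_sinv, FreeMonoid.ofList_append, mul_assoc, hp', hq']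
              rfl
            · simp only [lw_mul, lw_sinv, FreeMonoid.ofList_append, mul_assoc, hp', hq']
              rfl
    rcases hle h1 with h2 | ⟨a', b', h2, h3, h4⟩
    · rw [lw_inj (FreeMonoid.ofList.injective h2)]
      exact (conGen (WR n)).refl _
    · rw [lw_inj (FreeMonoid.ofList.injective h2), lw_inj (FreeMonoid.ofList.injective h3)]
      exact h4

/-! ### the system of blocks -/

lemma rep_vis (u : Vx n) (w : List (Lt n)) (g : FreeGroup (Fin n)) :
    (∃ v ∈ vis u w, rep v = g) ↔ ∃ i, g = rep u * FreeGroup.mk (w.take i) := by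
  constructor
  · rintro ⟨v, hv, rfl⟩
    obtain ⟨i, _, rfl⟩ := vis_take w v hv
    exact ⟨i, rep_fin _ _⟩
  · rintro ⟨i, rfl⟩
    exact ⟨_, take_mem_vis u w i, rep_fin _ _⟩

/-- words of the letters -/
def ws {m : ℕ} (w : Fin m → List (Lt n)) (y : Fin m ⊕ Fin m) : List (Lt n) :=
  Sum.elim w (fun i => winv (w i)) y

lemma ws_swap {m : ℕ} (w : Fin m → List (Lt n)) (y : Fin m ⊕ Fin m) :
    ws w y.swap = winv (ws w y) := by
  cases y with
  | inl i => rfl
  | inr i => exact (winv_winv _).symm

lemma rep_nil' : rep ([] : Vx n) = 1 := rfl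

lemma mk_winv (w : List (Lt n)) : (FreeGroup.mk (winv w) : FreeGroup (Fin n)) =
    (FreeGroup.mk w)⁻¹ := by
  rw [FreeGroup.inv_mk]
  rfl

/-- the system -/
def sys {m : ℕ} (w : Fin m → List (Lt n)) : Sys (FreeGroup (Fin n)) (Fin m ⊕ Fin m) where
  val y := FreeGroup.mk (ws w y)
  blk y := {g | ∃ v ∈ vis [] (ws w y), rep v = g}
  bar := Sum.swap
  one_mem y := ⟨[], start_mem_vis _ _, rfl⟩
  val_mem y := ⟨_, fin_mem_vis _ _, rep_fin_nil _⟩
  bar_bar y := Sum.swap_swap y
  val_bar y := by rw [ws_swap, mk_winv]
  blk_bar y h := by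
    show (∃ v ∈ vis [] (ws w y.swap), rep v = h) ↔ ∃ v ∈ vis [] (ws w y),
      rep v = FreeGroup.mk (ws w y) * h
    rw [ws_swap]
    have h1 : (∃ v ∈ vis [] (ws w y), rep v = FreeGroup.mk (ws w y) * h) ↔
        ∃ v ∈ vis (fin [] (ws w y)) (winv (ws w y)), rep v = FreeGroup.mk (ws w y) * h :=
      exists_congr fun v => and_congr_left fun _ => (mem_vis_winv red_nil _ _).symm
    rw [h1, rep_vis, rep_vis, rep_fin_nil, rep_nil']
    refine exists_congr fun i => ?_
    rw [mul_right_inj, one_mul]

/-- the word over the letters of a word over the generators -/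
def wd {m : ℕ} (w : Fin m → List (Lt n)) (p : List (Fin m ⊕ Fin m)) : List (Lt n) :=
  p.flatMap (ws w)

variable {m : ℕ} (w : Fin m → List (Lt n))

lemma wd_cons (y : Fin m ⊕ Fin m) (p : List (Fin m ⊕ Fin m)) :
    wd w (y :: p) = ws w y ++ wd w p := rfl

lemma wd_append (p q : List (Fin m ⊕ Fin m)) : wd w (p ++ q) = wd w p ++ wd w q := by
  simp [wd]

lemma vl_sys (p : List (Fin m ⊕ Fin m)) : vl (sys w) p = FreeGroup.mk (wd w p) := by
  induction p with
  | nil => rfl
  | cons y p ih =>
    rw [vl_cons, ih, wd_cons, ← FreeGroup.mul_mk]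
    rfl

lemma sp_sys (u : Vx n) (p : List (Fin m ⊕ Fin m)) (g : FreeGroup (Fin n)) :
    g ∈ sp (sys w) (rep u) p ↔ ∃ v ∈ vis u (wd w p), rep v = g := by
  induction p generalizing u with
  | nil =>
    rw [sp_nil]
    show g = rep u ↔ ∃ v ∈ [u], rep v = g
    simp [eq_comm]
  | cons y p ih =>
    rw [sp_cons, wd_cons]
    have h1 : rep u * (sys w).val y = rep (fin u (ws w y)) := (rep_fin _ _).symm
    rw [h1, Set.mem_union, ih]
    have h2 : (g ∈ {x | (rep u)⁻¹ * x ∈ (sys w).blk y}) ↔ ∃ v ∈ vis u (ws w y), rep v = g := by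
      show (∃ v ∈ vis [] (ws w y), rep v = (rep u)⁻¹ * g) ↔ _
      rw [rep_vis, rep_vis]
      refine exists_congr fun i => ?_
      rw [rep_nil', one_mul, inv_mul_eq_iff_eq_mul]
    rw [h2]
    constructor
    · rintro (⟨v, h3, h4⟩ | ⟨v, h3, h4⟩)
      · exact ⟨v, (mem_vis_append _ _ _ _).2 (Or.inl h3), h4⟩
      · exact ⟨v, (mem_vis_append _ _ _ _).2 (Or.inr h3), h4⟩
    · rintro ⟨v, h3, h4⟩
      rcases (mem_vis_append _ _ _ _).1 h3 with h3 | h3
      · exact Or.inl ⟨v, h3, h4⟩
      · exact Or.inr ⟨v, h3, h4⟩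

lemma sp_sys_one (p : List (Fin m ⊕ Fin m)) (g : FreeGroup (Fin n)) :
    g ∈ sp (sys w) 1 p ↔ ∃ v ∈ vis [] (wd w p), rep v = g := by
  rw [← rep_nil', sp_sys]

lemma K_sys (p q : List (Fin m ⊕ Fin m)) : K (sys w) p q ↔ Same (wd w p) (wd w q) := by
  unfold K Same
  rw [vl_sys, vl_sys, and_comm]
  refine and_congr ?_ ?_
  · constructor
    · intro h
      have aux : ∀ p q, sp (sys w) 1 p = sp (sys w) 1 q →
          ∀ v, v ∈ vis [] (wd w p) → v ∈ vis [] (wd w q) := by
        intro p q h v hv
        have h1 := (sp_sys_one w p (rep v)).2 ⟨v, hv, rfl⟩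
        rw [h] at h1
        obtain ⟨v', h2, h3⟩ := (sp_sys_one w q (rep v)).1 h1
        rw [← rep_inj (red_of_vis red_nil _ _ h2) (red_of_vis red_nil _ _ hv) h3]
        exact h2
      exact fun v => ⟨aux p q h v, aux q p h.symm v⟩
    · intro h
      ext g
      rw [sp_sys_one, sp_sys_one]
      exact exists_congr fun v => and_congr_left fun _ => h v
  · rw [← rep_fin_nil, ← rep_fin_nil]
    constructor
    · intro h; exact rep_inj (red_fin red_nil _) (red_fin red_nil _) h
    · intro h; rw [h]

end Pool.Agent.W404.FP
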