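import Pool.Agent.W404.FP.PresB

set_option autoImplicit false

namespace Pool.Agent.W404.FP

open Pool.Agent.H395R3.Fim Pool.Agent.H395R4.Rec

variable {n m : ℕ}

/-- list of letters -/
def lY (a : FS m) : List (Fin m ⊕ Fin m) := a.head :: a.tail

lemma lY_mul (a b : FS m) : lY (a * b) = lY a ++ lY b := rfl

lemma lY_inj {a b : FS m} (h : lY a = lY b) : a = b := by
  have h2 := List.cons.inj h
  exact FreeSemigroup.ext h2.1 h2.2

lemma exists_lY {l : List (Fin m ⊕ Fin m)} (h : l ≠ []) : ∃ a : FS m, l = lY a := by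
  cases l with
  | nil => exact absurd rfl h
  | cons x l => exact ⟨⟨x, l⟩, rfl⟩

lemma lY_ne (a : FS m) : lY a ≠ [] := by simp [lY]

lemma lY_length (a : FS m) : (lY a).length = a.length := rfl

variable (e : Fin m → FS n)

/-- the generating words -/
abbrev wE : Fin m → List (Lt n) := fun i => lw (e i)

lemma lY_sinv (a : FS m) : lY (sinv m a) = iv (sys (wE e)) (lY a) := by
  induction a using FreeSemigroup.recOnMul with
  | ih1 a => rw [sinv_of]; rfl
  | ih2 x y h1 h2 => rw [sinv_mul, lY_mul, lY_mul, h1, h2, iv_append]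

lemma wd_lY (u : FS m) : wd (wE e) (lY u) = lw (emb e u) := by
  induction u using FreeSemigroup.recOnMul with
  | ih1 a =>
    have h1 : lY (FreeSemigroup.of a) = [a] := rfl
    rw [h1]
    unfold emb
    rw [FreeSemigroup.lift_of]
    cases a with
    | inl i => simp [wd, ws]
    | inr i => simp [wd, ws, lw_sinv]
  | ih2 x y h1 h2 => rw [lY_mul, wd_append, h1, h2, map_mul, lw_mul]

lemma Kp_iff (u v : FS m) : Kp e u v ↔ K (sys (wE e)) (lY u) (lY v) := by
  unfold Kp
  rw [munnS, K_sys, wd_lY, wd_lY]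

lemma ws_ne (y : Fin m ⊕ Fin m) : ws (wE e) y ≠ [] := by
  cases y with
  | inl i => exact lw_ne _
  | inr i =>
    show winv (lw (e i)) ≠ []
    rw [← lw_sinv]
    exact lw_ne _

lemma K_nil {q : List (Fin m ⊕ Fin m)} (h : K (sys (wE e)) [] q) : q = [] := by
  cases q with
  | nil => rfl
  | cons y q =>
    exfalso
    rw [K_sys, wd_cons] at h
    cases hw : ws (wE e) y with
    | nil => exact ws_ne e y hw
    | cons x l =>
      rw [hw] at h
      have h1 := (h.1 [x]).2 (by
        rw [List.cons_append, vis_cons, push_nil]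
        exact List.mem_cons_of_mem _ (start_mem_vis _ _))
      have h2 : ([x] : Vx n) ∈ [([] : Vx n)] := h1
      simp at h2

lemma K_symm {S : Sys (FreeGroup (Fin n)) (Fin m ⊕ Fin m)} {p q : List (Fin m ⊕ Fin m)}
    (h : K S p q) : K S q p := ⟨h.1.symm, h.2.symm⟩

theorem sg_iff : (∃ r, ∀ u v : FS m, Kp e u v → conGen (Sh r (Kp e)) u v) ↔
    FPr (sys (wE e)) := by
  rw [fpr_iff]
  constructor
  · rintro ⟨r, hr⟩
    refine ⟨r, fun E hE hs p q hpq => ?_⟩
    by_cases hp : p = []
    · subst hp
      rw [K_nil e hpq]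
      exact hE.refl _
    by_cases hq : q = []
    · subst hq
      rw [K_nil e (K_symm hpq)]
      exact hE.refl _
    obtain ⟨u, rfl⟩ := exists_lY hp
    obtain ⟨v, rfl⟩ := exists_lY hq
    have h1 := hr u v ((Kp_iff e u v).2 hpq)
    let c : Con (FS m) :=
      { r := fun a b => E (lY a) (lY b)
        iseqv := ⟨fun a => hE.refl _, fun h => hE.symm _ _ h, fun h h' => hE.trans _ _ _ h h'⟩
        mul' := by
          intro a b a' b' h h'
          rw [lY_mul, lY_mul]
          exact hE.app _ _ _ _ h h' }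
    have hle : conGen (Sh r (Kp e)) ≤ c := by
      rw [Con.conGen_le]
      rintro a b ((⟨w, rfl, rfl⟩ | ⟨w, w', rfl, rfl⟩) | ⟨h2, h3, h4⟩)
      · show E (lY (b * sinv m b * b)) (lY b)
        rw [lY_mul, lY_mul, lY_sinv e]
        exact hE.w1 _
      · show E (lY (w * sinv m w * (w' * sinv m w'))) (lY (w' * sinv m w' * (w * sinv m w)))
        rw [lY_mul, lY_mul, lY_mul, lY_mul, lY_mul, lY_mul, lY_sinv e, lY_sinv e]
        exact hE.w2 _ _
      · exact hs _ _ h3 h4 ((Kp_iff e a b).1 h2)
    exact hle h1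
  · rintro ⟨r, hr⟩
    refine ⟨r, fun u v huv => ?_⟩
    set c := conGen (Sh r (Kp e)) with hc
    let E : List (Fin m ⊕ Fin m) → List (Fin m ⊕ Fin m) → Prop := fun p q =>
      p = q ∨ ∃ a b : FS m, p = lY a ∧ q = lY b ∧ c a b
    have hE : Cg (sys (wE e)) E :=
      { refl := fun _ => Or.inl rfl
        symm := by
          rintro p q (h | ⟨a, b, h1, h2, h3⟩)
          · exact Or.inl h.symm
          · exact Or.inr ⟨b, a, h2, h1, c.symm h3⟩
        trans := by
          rintro p q s (rfl | ⟨a, b, h1, h2, h3⟩) h'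
          · exact h'
          · rcases h' with rfl | ⟨a', b', h1', h2', h3'⟩
            · exact Or.inr ⟨a, b, h1, h2, h3⟩
            · have : b = a' := lY_inj (h2.symm.trans h1')
              subst this
              exact Or.inr ⟨a, b', h1, h2', c.trans h3 h3'⟩
        app := by
          rintro p q s t (rfl | ⟨a, b, rfl, rfl, h3⟩) (rfl | ⟨a', b', rfl, rfl, h3'⟩)
          · exact Or.inl rfl
          · by_cases hp : p = []
            · rw [hp]
              exact Or.inr ⟨a', b', rfl, rfl, h3'⟩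
            · obtain ⟨d, rfl⟩ := exists_lY hp
              exact Or.inr ⟨d * a', d * b', rfl, rfl, c.mul (c.refl _) h3'⟩
          · by_cases hp : s = []
            · rw [hp, List.append_nil, List.append_nil]
              exact Or.inr ⟨a, b, rfl, rfl, h3⟩
            · obtain ⟨d, rfl⟩ := exists_lY hp
              exact Or.inr ⟨a * d, b * d, rfl, rfl, c.mul h3 (c.refl _)⟩
          · exact Or.inr ⟨a * a', b * b', rfl, rfl, c.mul h3 h3'⟩
        w1 := by
          intro p
          by_cases hp : p = []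
          · rw [hp]; exact Or.inl rfl
          · obtain ⟨d, rfl⟩ := exists_lY hp
            refine Or.inr ⟨d * sinv m d * d, d, ?_, rfl,
              ConGen.Rel.of _ _ (Or.inl (Or.inl ⟨d, rfl, rfl⟩))⟩
            rw [lY_mul, lY_mul, lY_sinv e]
        w2 := by
          intro p q
          by_cases hp : p = []
          · rw [hp]; left; simp
          by_cases hq : q = []
          · rw [hq]; left; simp
          obtain ⟨a, rfl⟩ := exists_lY hp
          obtain ⟨b, rfl⟩ := exists_lY hq
          refine Or.inr ⟨a * sinv m a * (b * sinv m b), b * sinv m b * (a * sinv m a), ?_, ?_,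
            ConGen.Rel.of _ _ (Or.inl (Or.inr ⟨a, b, rfl, rfl⟩))⟩
          · simp only [lY_mul, lY_sinv e]
          · simp only [lY_mul, lY_sinv e] }
    have hs : ∀ p q, p.length ≤ r → q.length ≤ r → K (sys (wE e)) p q → E p q := by
      intro p q h1 h2 h3
      by_cases hp : p = []
      · subst hp
        rw [K_nil e h3]
        exact Or.inl rfl
      by_cases hq : q = []
      · subst hq
        rw [K_nil e (K_symm h3)]
        exact Or.inl rfl
      obtain ⟨a, rfl⟩ := exists_lY hp
      obtain ⟨b, rfl⟩ := exists_lY hq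
      exact Or.inr ⟨a, b, rfl, rfl, ConGen.Rel.of _ _ (Or.inr ⟨(Kp_iff e a b).2 h3, h1, h2⟩)⟩
    rcases hr E hE hs (lY u) (lY v) ((Kp_iff e u v).1 huv) with h | ⟨a, b, h1, h2, h3⟩
    · rw [lY_inj h]; exact c.refl _
    · rw [lY_inj h1, lY_inj h2]; exact h3

/-- the generators of a list -/
def eG (gens : List ((Fin n ⊕ Fin n) × List (Fin n ⊕ Fin n))) (i : Fin gens.length) : FS n :=
  FreeSemigroup.mk gens[i].1 gens[i].2

/-- the predicate of the frozen statement -/
def Pred (n : ℕ) (gens : List ((Fin n ⊕ Fin n) × List (Fin n ⊕ Fin n))) : Prop :=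
  ∃ (m : ℕ) (R : List (FS m × FS m)),
    Nonempty
      (↥(Subsemigroup.closure
          {x : (conGen (WR n)).Quotient |
            ∃ g ∈ gens,
              x = ((FreeSemigroup.mk g.1 g.2 : FreeSemigroup (Fin n ⊕ Fin n)) :
                    (conGen (WR n)).Quotient) ∨
              x = ((sinv n (FreeSemigroup.mk g.1 g.2) : FreeSemigroup (Fin n ⊕ Fin n)) :
                    (conGen (WR n)).Quotient)}) ≃*
        (conGen (fun u v : FreeSemigroup (Fin m ⊕ Fin m) =>
            WR m u v ∨ (u, v) ∈ R)).Quotient)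

theorem pred_iff_fpr (gens : List ((Fin n ⊕ Fin n) × List (Fin n ⊕ Fin n))) :
    Pred n gens ↔ FPr (sys (wE (eG gens))) := by
  rw [← sg_iff, ← fp_iff]
  unfold Pred genS
  have hset : {x : (conGen (WR n)).Quotient | ∃ g ∈ gens,
      x = ((FreeSemigroup.mk g.1 g.2 : FreeSemigroup (Fin n ⊕ Fin n)) :
        (conGen (WR n)).Quotient) ∨
      x = ((sinv n (FreeSemigroup.mk g.1 g.2) : FreeSemigroup (Fin n ⊕ Fin n)) :
        (conGen (WR n)).Quotient)} =
      {x | ∃ i, x = ((eG gens i : FS n) : (conGen (WR n)).Quotient) ∨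
        x = ((sinv n (eG gens i) : FS n) : (conGen (WR n)).Quotient)} := by
    ext x
    constructor
    · rintro ⟨g, hg, hx⟩
      obtain ⟨i, hi, rfl⟩ := List.mem_iff_getElem.1 hg
      exact ⟨⟨i, hi⟩, hx⟩
    · rintro ⟨i, hx⟩
      exact ⟨gens[i], List.getElem_mem _, hx⟩
  rw [hset]

end Pool.Agent.W404.FP
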