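import Pool.Agent.H395R4.RecB

set_option autoImplicit false

namespace Pool.Agent.W404.FP

open Pool.Agent.H395R3.Fim Pool.Agent.H395R4.Rec

variable {k : ℕ} {R α : Type}

/-- values of an invariant on labelings of bounded depth with constraints -/
def Rl (κ : Lb k R → α) (r0 : R) (d : ℕ) (C : ℕ → R → Prop) : Set α :=
  {t | ∃ X : Lb k R, Dep r0 d X ∧ (∀ v, C v.length (X v)) ∧ t = κ X}

lemma rl_step {κ : Lb k R → α} (hκ : Cmp κ) {r0 : R} {d d' : ℕ} {C C' : ℕ → R → Prop}
    (h0 : ∀ r, C 0 r → C' 0 r)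
    (h : Rl κ r0 d (fun j => C (j + 1)) ⊆ Rl κ r0 d' (fun j => C' (j + 1))) :
    Rl κ r0 (d + 1) C ⊆ Rl κ r0 (d' + 1) C' := by
  rintro t ⟨X, h1, h2, rfl⟩
  have key : ∀ a, ∃ Xf : Lb k R, Dep r0 d' Xf ∧ (∀ v, C' (v.length + 1) (Xf v)) ∧
      κ (ch X a) = κ Xf := by
    intro a
    exact h ⟨ch X a, Dep.ch h1 a, fun v => by
      have := h2 (v ++ [a])
      rw [List.length_append] at this
      exact this, rfl⟩
  choose Xf hf1 hf2 hf3 using key
  refine ⟨gl (X []) Xf, Dep.gl hf1, ?_, ?_⟩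
  · intro v
    rcases eq_nil_or_snoc v with rfl | ⟨u, a, rfl⟩
    · exact h0 _ (h2 [])
    · have e1 : gl (X []) Xf (u ++ [a]) = Xf a u := by
        have := congrFun (ch_gl (X []) Xf a) u
        exact this
      rw [e1, List.length_append]
      exact hf2 a u
  · apply hκ
    · rfl
    · intro a
      rw [ch_gl]
      exact hf3 a

lemma rl_mono {κ : Lb k R → α} {r0 : R} {d d' : ℕ} {C C' : ℕ → R → Prop} (hd : d ≤ d')
    (hC : ∀ j r, C j r → C' j r) : Rl κ r0 d C ⊆ Rl κ r0 d' C' := by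
  rintro t ⟨X, h1, h2, rfl⟩
  exact ⟨X, h1.mono hd, fun v => hC _ _ (h2 v), rfl⟩

/-- the constraints -/
def Cn (M N : R → Prop) (n D : ℕ) (j : ℕ) (r : R) : Prop := (j < n → ¬ M r) ∧ (D ≤ j → ¬ N r)

variable (M N : R → Prop)

lemma cn_succ (n D : ℕ) : (fun j => Cn M N (n + 1) (D + 1) (j + 1)) = Cn M N n D := by
  funext j r
  unfold Cn
  simp only [Nat.add_lt_add_iff_right, Nat.add_le_add_iff_right]

lemma cn_zero (n : ℕ) : (fun j => Cn M N (n + 1) 0 (j + 1)) = Cn M N n 0 := by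
  funext j r
  unfold Cn
  simp only [Nat.add_lt_add_iff_right, Nat.zero_le]

lemma cn_zero' : (fun j => Cn M N 0 0 (j + 1)) = Cn M N 0 0 := by
  funext j r
  unfold Cn
  simp

variable {κ : Lb k R → α} {r0 : R}

theorem pump [Finite α] (hκ : Cmp κ) (Good : α → Prop) (D c : ℕ)
    (hc : Nat.card α ≤ c) :
    (∀ ρ, ∃ (X : Lb k R) (d : ℕ), Dep r0 d X ∧ (∀ v, v.length < ρ → ¬ M (X v)) ∧
      (∀ v, D ≤ v.length → ¬ N (X v)) ∧ Good (κ X)) ↔
    ∃ X : Lb k R, Dep r0 (2 * c + D) X ∧ (∀ v, v.length < c + D → ¬ M (X v)) ∧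
      (∀ v, D ≤ v.length → ¬ N (X v)) ∧ Good (κ X) := by
  classical
  let _ : Fintype α := Fintype.ofFinite α
  have hc' : (Finset.univ : Finset α).card ≤ c := by
    rw [Finset.card_univ, ← Nat.card_eq_fintype_card]; exact hc
  -- claim 1
  have cl1 : ∀ m, Rl κ r0 m (Cn M N 0 0) ⊆ Rl κ r0 c (Cn M N 0 0) := by
    intro m
    refine Set.Subset.trans (stab (Finset.univ : Finset α) (fun j => Rl κ r0 j (Cn M N 0 0))
      (fun n x _ => by simp) (fun n => rl_mono (Nat.le_succ n) fun _ _ h => h) ?_ m)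
      (rl_mono hc' fun _ _ h => h)
    intro n hn
    apply Set.Subset.antisymm
    · exact rl_mono (by omega) fun _ _ h => h
    · refine rl_step hκ (fun _ h => h) ?_
      rw [cn_zero']
      exact hn.symm.subset
  -- claim 2
  have cl2 : ∀ n d, Rl κ r0 d (Cn M N n 0) ⊆ Rl κ r0 (c + n) (Cn M N n 0) := by
    intro n
    induction n with
    | zero => exact cl1
    | succ n ih =>
      intro d
      refine Set.Subset.trans (rl_mono (Nat.le_succ d) fun _ _ h => h) ?_
      refine rl_step hκ (fun _ h => h) ?_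
      rw [cn_zero]
      exact ih d
  -- claim 3
  have anti : ∀ n, Rl κ r0 (c + (n + 1)) (Cn M N (n + 1) 0) ⊆ Rl κ r0 (c + n) (Cn M N n 0) := by
    intro n
    refine Set.Subset.trans (rl_mono le_rfl ?_) (cl2 n _)
    rintro j r ⟨h1, h2⟩
    exact ⟨fun h => h1 (by omega), h2⟩
  have cl3 : ∀ n, Rl κ r0 (c + c) (Cn M N c 0) ⊆ Rl κ r0 (c + n) (Cn M N n 0) := by
    intro n
    have h1 := stab (Finset.univ : Finset α)
      (fun j => (Rl κ r0 (c + j) (Cn M N j 0))ᶜ) (fun n x _ => by simp)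
      (fun n => Set.compl_subset_compl.2 (anti n)) (by
        intro n hn
        simp only [compl_inj_iff] at hn ⊢
        apply Set.Subset.antisymm
        · refine rl_step hκ (d := c + n) (d' := c + (n + 1)) (fun r h => ?_) ?_
          · exact ⟨fun _ => h.1 (by omega), h.2⟩
          · rw [cn_zero, cn_zero]
            exact hn.subset
        · exact anti (n + 1)) n
    have h2 := Set.compl_subset_compl.1 h1
    refine Set.Subset.trans ?_ h2
    have h3 : ∀ i, Rl κ r0 (c + ((Finset.univ : Finset α).card + i))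
        (Cn M N ((Finset.univ : Finset α).card + i) 0) ⊆
        Rl κ r0 (c + (Finset.univ : Finset α).card) (Cn M N (Finset.univ : Finset α).card 0) := by
      intro i
      induction i with
      | zero => exact subset_rfl
      | succ i ih => exact (anti _).trans ih
    have h4 := h3 (c - (Finset.univ : Finset α).card)
    rwa [Nat.add_sub_cancel' hc'] at h4
  -- claim 4
  have cl4 : ∀ D n, Rl κ r0 (c + c + D) (Cn M N (c + D) D) ⊆
      Rl κ r0 (c + n + D) (Cn M N (n + D) D) := by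
    intro D n
    induction D with
    | zero => exact cl3 n
    | succ D ih =>
      refine rl_step hκ (fun r h => ⟨fun _ => h.1 (by omega), fun h' => absurd h' (by omega)⟩) ?_
      have e1 : c + (D + 1) = (c + D) + 1 := by omega
      have e2 : n + (D + 1) = (n + D) + 1 := by omega
      rw [e1, e2, cn_succ, cn_succ]
      exact ih
  -- claim 5
  have cl5 : ∀ D d, Rl κ r0 d (Cn M N (c + D) D) ⊆ Rl κ r0 (c + c + D) (Cn M N (c + D) D) := by
    intro D
    induction D with
    | zero => exact cl2 c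
    | succ D ih =>
      intro d
      refine Set.Subset.trans (rl_mono (Nat.le_succ d) fun _ _ h => h) ?_
      refine rl_step hκ (fun _ h => h) ?_
      have e1 : c + (D + 1) = (c + D) + 1 := by omega
      rw [e1, cn_succ]
      exact ih d
  constructor
  · intro h
    obtain ⟨X, d, h1, h2, h3, h4⟩ := h (c + D)
    obtain ⟨X', g1, g2, g3⟩ := cl5 D d ⟨X, h1, fun v => ⟨h2 v, h3 v⟩, rfl⟩
    refine ⟨X', ?_, fun v => (g2 v).1, fun v => (g2 v).2, ?_⟩
    · rw [two_mul]; exact g1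
    · rw [← g3]; exact h4
  · rintro ⟨X, h1, h2, h3, h4⟩ ρ
    rw [two_mul] at h1
    obtain ⟨X', g1, g2, g3⟩ := cl4 D ρ ⟨X, h1, fun v => ⟨h2 v, h3 v⟩, rfl⟩
    refine ⟨X', _, g1, fun v hv => (g2 v).1 (by omega), fun v => (g2 v).2, ?_⟩
    rw [← g3]; exact h4

end Pool.Agent.W404.FP
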