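import Pool.Agent.W404.FP.LinkA
import Pool.Agent.W404.FP.Pump

set_option autoImplicit false

namespace Pool.Agent.W404.FP

open Relation Pool.Agent.H395R3.Fim Pool.Agent.H395R4.Rec

variable {n : ℕ} {Q : Type}

/-! ### reachability and words -/

lemma stp_iff' {δ : Q → Lt n → Q → Prop} {D : Set (Vx n)} (hD : ∀ v ∈ D, Red v)
    (z z' : Vx n × Q) : stp δ D z z' ↔ stepD δ D z z' := by
  constructor
  · rintro ⟨h1, h2, ⟨x, h3, h4⟩ | ⟨x, h3, h4⟩⟩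
    · refine ⟨h1, h2, x, h3, ?_⟩
      rw [h4]
      cases hz : z.1 with
      | nil => rfl
      | cons y t =>
        rw [push_cons, if_neg]
        intro hy
        have h5 := hD _ h2
        rw [h4, hz] at h5
        exact (red_cons.1 h5).1 (by rw [hy, inv_inv])
    · refine ⟨h1, h2, inv x, h3, ?_⟩
      rw [h4, push_cons, if_pos (by rw [inv_inv])]
  · rintro ⟨h1, h2, x, h3, h4⟩
    refine ⟨h1, h2, ?_⟩
    cases hz : z.1 with
    | nil =>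
      left
      exact ⟨x, h3, by rw [h4, hz]; rfl⟩
    | cons y t =>
      rw [hz, push_cons] at h4
      split_ifs at h4 with hy
      · right
        refine ⟨y, ?_, by rw [h4]⟩
        rw [hy, inv_inv]; exact h3
      · left
        exact ⟨x, h3, h4⟩

lemma rc_eq' {δ : Q → Lt n → Q → Prop} {D : Set (Vx n)} (hD : ∀ v ∈ D, Red v) :
    Rc δ D = Rch δ D := by
  have : stp δ D = stepD δ D := by
    funext z z'
    exact propext (stp_iff' hD z z')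
  unfold Rc Rch
  rw [this]

lemma word_rch {δ : Q → Lt n → Q → Prop} {D : Set (Vx n)} (l : List (Lt n)) :
    ∀ {v : Vx n} {s s' : Q}, Path δ s l s' → (∀ u ∈ vis v l, u ∈ D) →
      Rch δ D (v, s) (fin v l, s') := by
  induction l with
  | nil =>
    intro v s s' h _
    have : s = s' := h
    rw [this]; exact ReflTransGen.refl
  | cons x l ih =>
    rintro v s s' ⟨r, h1, h2⟩ h3
    have h4 : ∀ u ∈ vis (push v x) l, u ∈ D := fun u hu => h3 u (List.mem_cons_of_mem _ hu)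
    refine ReflTransGen.head ?_ (ih h2 h4)
    exact ⟨h3 v (start_mem_vis _ _), h4 _ (start_mem_vis _ _), x, h1, rfl⟩

lemma rc_iff_rea {δ : Q → Lt n → Q → Prop} {D : Set (Vx n)} (hD : ∀ v ∈ D, Red v)
    (h0 : [] ∈ D) (q0 : Q) (v : Vx n) (s : Q) : Rc δ D ([], q0) (v, s) ↔ Rea δ q0 D v s := by
  rw [rc_eq' hD]
  constructor
  · intro h
    obtain ⟨l, h1, h2, h3⟩ := rch_word h0 h
    exact ⟨l, h1, h2, h3⟩
  · rintro ⟨l, h1, h2, h3⟩
    have := word_rch l h1 h3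
    rwa [h2] at this

lemma cov_rc {δ : Q → Lt n → Q → Prop} {D : Set (Vx n)} (hD : ∀ v ∈ D, Red v)
    (h0 : [] ∈ D) (q0 : Q) (v : Vx n) (hv : v ∈ D) :
    (∃ s, Rc δ D ([], q0) (v, s) ∧ Rc δ D (v, s) ([], q0)) ↔
      ∃ l, Path δ q0 l q0 ∧ fin [] l = [] ∧ v ∈ vis [] l ∧ ∀ u ∈ vis [] l, u ∈ D := by
  rw [rc_eq' hD]
  constructor
  · rintro ⟨s, h1, h2⟩
    obtain ⟨l, a1, a2, a3⟩ := rch_word h0 h1
    obtain ⟨l', b1, b2, b3⟩ := rch_word (z := (v, s)) hv h2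
    simp only at a1 a2 a3 b1 b2 b3
    refine ⟨l ++ l', (path_append _ _ _ _ _).2 ⟨s, a1, b1⟩, ?_, ?_, ?_⟩
    · rw [fin_append, a2, b2]
    · rw [mem_vis_append, a2]
      exact Or.inr (start_mem_vis _ _)
    · intro u hu
      rw [mem_vis_append, a2] at hu
      rcases hu with hu | hu
      · exact a3 u hu
      · exact b3 u hu
  · rintro ⟨l, a1, a2, a3, a4⟩
    obtain ⟨i, _, hi⟩ := vis_take l v a3
    have h1 : Path δ q0 (l.take i ++ l.drop i) q0 := by rw [List.take_append_drop]; exact a1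
    obtain ⟨s, b1, b2⟩ := (path_append _ _ _ _ _).1 h1
    have h2 : ∀ u, (u ∈ vis [] (l.take i) ∨ u ∈ vis v (l.drop i)) → u ∈ D := by
      intro u hu
      apply a4
      have h3 := (mem_vis_append [] (l.take i) (l.drop i) u).2 (by rw [← hi]; exact hu)
      rwa [List.take_append_drop] at h3
    refine ⟨s, ?_, ?_⟩
    · have := word_rch (l.take i) b1 (fun u hu => h2 u (Or.inl hu))
      rwa [← hi] at this
    · have := word_rch (l.drop i) b2 (fun u hu => h2 u (Or.inr hu))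
      have h3 : fin v (l.drop i) = [] := by
        rw [hi, ← fin_append, List.take_append_drop, a2]
      rwa [h3] at this

/-! ### the invariant -/

/-- labels -/
abbrev L3' := Prop × Prop × Prop

/-- the domains -/
def domj (j : Fin 5) (r : L3') : Prop :=
  match j with
  | 0 => r.1
  | 1 => r.2.1
  | 2 => r.1 ∧ r.2.1
  | 3 => r.1 ∨ r.2.1
  | 4 => r.2.2

/-- base labels with one marked vertex -/
def phj (j : Fin 5) (r : L3' × Prop) : BL Q Q := (domj j r.1, fun i => {q | q = i ∧ r.2})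

/-- inner types -/
abbrev TA (Q : Type) := (Fin 5 → BT Q Q) × (Prop × Prop) × (Prop × Prop)

lemma Cmp.pi {ι R : Type} {β : ι → Type} {ρ : ∀ i, Lb n R → β i} (h : ∀ i, Cmp (ρ i)) :
    Cmp (fun X : Lb n R => fun i => ρ i X) := by
  intro X X' h0 h1
  funext i
  exact h i X X' h0 fun a => congrFun (h1 a) i

/-- inner invariant -/
def rA (δ : Q → Lt n → Q → Prop) (X : Lb n (L3' × Prop)) : TA Q :=
  (fun j => base δ (fun v => phj j (X v)),
    (Emp (fun r : L3' × Prop => r.2) X, One (fun r : L3' × Prop => r.2) X),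
    ((∀ v, (X v).2 → (X v).1.1), (∀ v, (X v).2 → (X v).1.2.1)))

lemma cmp_rA (δ : Q → Lt n → Q → Prop) : Cmp (rA δ) := by
  have h1 : Cmp (fun X : Lb n (L3' × Prop) => fun j : Fin 5 => base δ (fun v => phj j (X v))) :=
    Cmp.pi fun j => cmp_base.lab (phj j)
  have h2 := cmp_one (k := n) (fun r : L3' × Prop => r.2)
  have h3 := (cmp_all (k := n) (fun r : L3' × Prop => r.2 → r.1.1)).pair
    (cmp_all (k := n) (fun r : L3' × Prop => r.2 → r.1.2.1))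
  exact h1.pair (h2.pair h3)

/-- outer types -/
abbrev TK (n : ℕ) (Q : Type) :=
  Set (TA Q) × (Prop × (Option (Lt n) → Prop)) × Prop × L3'

/-- tree domain -/
def trL (r : L3') : Prop := r.1 ∨ r.2.1
/-- pointwise conditions -/
def ptL (r : L3') : Prop := (r.1 → r.2.1 → r.2.2) ∧ (r.2.2 → r.1)

/-- outer invariant -/
def kp (δ : Q → Lt n → Q → Prop) (X : Lb n L3') : TK n Q :=
  (exq False (rA δ) X,
    (Emp trL X, fun c : Option (Lt n) => Tree c.toList {v | trL (X v)}),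
    (∀ v, ptL (X v)), X [])

lemma cmp_kp (δ : Q → Lt n → Q → Prop) : Cmp (kp δ) := by
  have h1 := Cmp.exq False (cmp_rA δ)
  have h2 := cmp_tree (k := n) trL
  have h3 := cmp_all (k := n) ptL
  have h4 : Cmp (fun X : Lb n L3' => X []) := fun X X' h _ => h
  exact h1.pair (h2.pair (h3.pair h4))

/-- good outer types -/
def GoodT (q0 : Q) (F : Set Q) (t : TK n Q) : Prop :=
  t.2.1.2 none ∧ t.2.2.1 ∧ t.2.2.2.1 ∧ t.2.2.2.2.1 ∧
  (∀ e ∈ t.1, e.2.1.2 → e.2.2.1 → ∃ s, (s, q0) ∈ (e.1 0).2.2.1 ∧ (s, q0) ∈ (e.1 0).2.2.2.1) ∧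
  (∀ e ∈ t.1, e.2.1.2 → e.2.2.2 → ∃ s, (s, q0) ∈ (e.1 1).2.2.1 ∧ (s, q0) ∈ (e.1 1).2.2.2.1) ∧
  (∀ e ∈ t.1, e.2.1.2 → ∀ f ∈ F, (f, q0) ∈ (e.1 4).2.2.1 → (f, q0) ∈ (e.1 2).2.2.1) ∧
  (∃ e ∈ t.1, e.2.1.2 ∧
    (((q0, q0) ∈ (e.1 0).2.2.1 ∧ (q0, q0) ∈ (e.1 1).2.2.1 ∧ (q0, q0) ∉ (e.1 2).2.2.1) ∨
    ∃ f ∈ F, (f, q0) ∈ (e.1 3).2.2.1 ∧ (f, q0) ∉ (e.1 0).2.2.1 ∧ (f, q0) ∉ (e.1 1).2.2.1))

/-- single mark -/
def mkv (v : Vx n) : Lb n Prop := fun u => u = v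

lemma mkv_dep (v : Vx n) : Dep False (v.length + 1) (mkv v) := by
  intro u hu
  show (u = v) = False
  apply eq_false
  intro h
  rw [h] at hu
  omega

lemma mkv_one {X : Lb n L3'} (v : Vx n) :
    One (fun r : L3' × Prop => r.2) (fun u => (X u, mkv v u)) := ⟨v, rfl, fun _ h => h⟩

lemma dom_phj (j : Fin 5) (X : Lb n L3') (Y : Lb n Prop) :
    dom (fun v => (phj j (X v, Y v) : BL Q Q)) = {v | domj j (X v)} := rfl

lemma mem_In {δ : Q → Lt n → Q → Prop} (j : Fin 5) (X : Lb n L3') (Y : Lb n Prop) {v : Vx n}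
    (hY : ∀ u, Y u ↔ u = v) (s p : Q) :
    (s, p) ∈ ((rA δ (fun u => (X u, Y u))).1 j).2.2.1 ↔
      Rc δ {v | domj j (X v)} ([], p) (v, s) := by
  constructor
  · rintro ⟨⟨u, q⟩, ⟨h1, h2⟩, h3⟩
    have h4 : u = v := (hY u).1 h2
    have h5 : q = s := h1
    rw [h4, h5] at h3
    exact h3
  · intro h
    exact ⟨(v, s), ⟨rfl, (hY v).2 rfl⟩, h⟩

lemma mem_Out {δ : Q → Lt n → Q → Prop} (j : Fin 5) (X : Lb n L3') (Y : Lb n Prop) {v : Vx n}
    (hY : ∀ u, Y u ↔ u = v) (s p : Q) :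
    (s, p) ∈ ((rA δ (fun u => (X u, Y u))).1 j).2.2.2.1 ↔
      Rc δ {v | domj j (X v)} (v, s) ([], p) := by
  constructor
  · rintro ⟨⟨u, q⟩, ⟨h1, h2⟩, h3⟩
    have h4 : u = v := (hY u).1 h2
    have h5 : q = s := h1
    rw [h4, h5] at h3
    exact h3
  · intro h
    exact ⟨(v, s), ⟨rfl, (hY v).2 rfl⟩, h⟩

/-- the three sets of a labeling -/
def E1 (X : Lb n L3') : Set (Vx n) := {v | (X v).1}
/-- the three sets of a labeling -/
def E2 (X : Lb n L3') : Set (Vx n) := {v | (X v).2.1}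
/-- the three sets of a labeling -/
def E3 (X : Lb n L3') : Set (Vx n) := {v | (X v).2.2}

theorem goodT_iff (δ : Q → Lt n → Q → Prop) (q0 : Q) (F : Set Q) (X : Lb n L3') :
    GoodT q0 F (kp δ X) ↔ SemF δ q0 F (E1 X) (E2 X) (E3 X) := by
  have hpt : (∀ v, ptL (X v)) ↔
      (∀ v, v ∈ E1 X → v ∈ E2 X → v ∈ E3 X) ∧ (∀ v ∈ E3 X, v ∈ E1 X) := by
    constructor
    · intro h; exact ⟨fun v => (h v).1, fun v => (h v).2⟩
    · rintro ⟨h1, h2⟩ v; exact ⟨h1 v, h2 v⟩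
  -- the main equivalences under reducedness
  have main : ∀ (h1 : ∀ v, v ∈ E1 X → Red v) (h2 : ∀ v, v ∈ E2 X → Red v)
      (n1 : [] ∈ E1 X) (n2 : [] ∈ E2 X) (hut : ∀ v ∈ E3 X, v ∈ E1 X)
      (hiu : ∀ v, v ∈ E1 X → v ∈ E2 X → v ∈ E3 X), ∀ (Y : Lb n Prop) (v : Vx n),
      (∀ u, Y u ↔ u = v) → ∀ s,
      ((s, q0) ∈ ((rA δ (fun u => (X u, Y u))).1 0).2.2.1 ↔ Rea δ q0 (E1 X) v s) ∧
      ((s, q0) ∈ ((rA δ (fun u => (X u, Y u))).1 1).2.2.1 ↔ Rea δ q0 (E2 X) v s) ∧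
      ((s, q0) ∈ ((rA δ (fun u => (X u, Y u))).1 2).2.2.1 ↔ Rea δ q0 (E1 X ∩ E2 X) v s) ∧
      ((s, q0) ∈ ((rA δ (fun u => (X u, Y u))).1 3).2.2.1 ↔ Rea δ q0 (E1 X ∪ E2 X) v s) ∧
      ((s, q0) ∈ ((rA δ (fun u => (X u, Y u))).1 4).2.2.1 ↔ Rea δ q0 (E3 X) v s) := by
    intro h1 h2 n1 n2 hut hiu Y v hY s
    refine ⟨?_, ?_, ?_, ?_, ?_⟩
    · rw [mem_In 0 X Y hY]
      exact rc_iff_rea (D := E1 X) h1 n1 q0 v s
    · rw [mem_In 1 X Y hY]
      exact rc_iff_rea (D := E2 X) h2 n2 q0 v s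
    · rw [mem_In 2 X Y hY]
      exact rc_iff_rea (D := E1 X ∩ E2 X) (fun v hv => h1 v hv.1) ⟨n1, n2⟩ q0 v s
    · rw [mem_In 3 X Y hY]
      exact rc_iff_rea (D := E1 X ∪ E2 X) (fun v hv => hv.elim (h1 v) (h2 v)) (Or.inl n1) q0 v s
    · rw [mem_In 4 X Y hY]
      exact rc_iff_rea (D := E3 X) (fun v hv => h1 v (hut v hv)) (hiu _ n1 n2) q0 v s
  constructor
  · rintro ⟨t1, t2, t3, t4, t5, t6, t7, t8⟩
    have t1' : Tree [] {v | trL (X v)} := t1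
    obtain ⟨hiu, hut⟩ := hpt.1 t2
    have h1 : ∀ v, v ∈ E1 X → Red v := fun v hv => by
      have := t1'.red v (Or.inl hv)
      rwa [List.append_nil] at this
    have h2 : ∀ v, v ∈ E2 X → Red v := fun v hv => by
      have := t1'.red v (Or.inr hv)
      rwa [List.append_nil] at this
    have n1 : [] ∈ E1 X := t3
    have n2 : [] ∈ E2 X := t4
    have hm := main h1 h2 n1 n2 hut hiu
    have hmem : ∀ v : Vx n, rA δ (fun u => (X u, mkv v u)) ∈ (kp δ X).1 := fun v =>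
      ⟨mkv v, _, mkv_dep v, rfl⟩
    refine ⟨n1, n2, ?_, ?_, hiu, hut, ?_, ?_⟩
    · intro v hv
      rw [← cov_rc h1 n1 q0 v hv]
      obtain ⟨s, a1, a2⟩ := t5 _ (hmem v) (mkv_one v) (by
        intro u hu
        have : u = v := hu
        rw [this]; exact hv)
      refine ⟨s, (mem_In 0 X _ (fun u => Iff.rfl) s q0).1 a1,
        (mem_Out 0 X _ (fun u => Iff.rfl) s q0).1 a2⟩
    · intro v hv
      rw [← cov_rc h2 n2 q0 v hv]
      obtain ⟨s, a1, a2⟩ := t6 _ (hmem v) (mkv_one v) (by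
        intro u hu
        have : u = v := hu
        rw [this]; exact hv)
      refine ⟨s, (mem_In 1 X _ (fun u => Iff.rfl) s q0).1 a1,
        (mem_Out 1 X _ (fun u => Iff.rfl) s q0).1 a2⟩
    · intro v f hf hr
      obtain ⟨_, _, m3, _, m5⟩ := hm (mkv v) v (fun u => Iff.rfl) f
      exact m3.1 (t7 _ (hmem v) (mkv_one v) f hf (m5.2 hr))
    · obtain ⟨e, ⟨Y, d, _, rfl⟩, ⟨v, hv1, hv2⟩, t9⟩ := t8
      have hY : ∀ u, Y u ↔ u = v := fun u => ⟨hv2 u, fun h => by rw [h]; exact hv1⟩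
      rcases t9 with ⟨a1, a2, a3⟩ | ⟨f, hf, a1, a2, a3⟩
      · obtain ⟨m1, m2, m3, _, _⟩ := hm Y v hY q0
        exact Or.inl ⟨v, m1.1 a1, m2.1 a2, fun h => a3 (m3.2 h)⟩
      · obtain ⟨m1, m2, m3, m4, _⟩ := hm Y v hY f
        exact Or.inr ⟨v, f, hf, m4.1 a1, fun h => a2 (m1.2 h), fun h => a3 (m2.2 h)⟩
  · intro hS
    have h1 : ∀ v, v ∈ E1 X → Red v := by
      intro v hv
      obtain ⟨l, _, _, h3, _⟩ := hS.cov1 v hv
      exact red_of_vis red_nil _ _ h3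
    have h2 : ∀ v, v ∈ E2 X → Red v := by
      intro v hv
      obtain ⟨l, _, _, h3, _⟩ := hS.cov2 v hv
      exact red_of_vis red_nil _ _ h3
    have hm := main h1 h2 hS.nil1 hS.nil2 hS.ut hS.iu
    have hYv : ∀ (Y : Lb n Prop), One (fun r : L3' × Prop => r.2) (fun u => (X u, Y u)) →
        ∃ v, ∀ u, Y u ↔ u = v := by
      rintro Y ⟨v, hv1, hv2⟩
      exact ⟨v, fun u => ⟨hv2 u, fun h => by rw [h]; exact hv1⟩⟩
    refine ⟨?_, hpt.2 ⟨hS.iu, hS.ut⟩, hS.nil1, hS.nil2, ?_, ?_, ?_, ?_⟩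
    · show Tree [] {v | trL (X v)}
      constructor
      · exact Or.inl hS.nil1
      · rintro x u (h | h)
        · obtain ⟨l, _, _, h3, h4⟩ := hS.cov1 _ h
          exact Or.inl (h4 _ (tail_of_vis l _ _ h3))
        · obtain ⟨l, _, _, h3, h4⟩ := hS.cov2 _ h
          exact Or.inr (h4 _ (tail_of_vis l _ _ h3))
      · rintro u (h | h)
        · rw [List.append_nil]; exact h1 u h
        · rw [List.append_nil]; exact h2 u h
    · rintro e ⟨Y, d, _, rfl⟩ ho hmk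
      obtain ⟨v, hY⟩ := hYv Y ho
      have hv : v ∈ E1 X := hmk v ((hY v).2 rfl)
      obtain ⟨s, a1, a2⟩ := (cov_rc (δ := δ) h1 hS.nil1 q0 v hv).2 (hS.cov1 v hv)
      exact ⟨s, (mem_In 0 X Y hY s q0).2 a1, (mem_Out 0 X Y hY s q0).2 a2⟩
    · rintro e ⟨Y, d, _, rfl⟩ ho hmk
      obtain ⟨v, hY⟩ := hYv Y ho
      have hv : v ∈ E2 X := hmk v ((hY v).2 rfl)
      obtain ⟨s, a1, a2⟩ := (cov_rc (δ := δ) h2 hS.nil2 q0 v hv).2 (hS.cov2 v hv)
      exact ⟨s, (mem_In 1 X Y hY s q0).2 a1, (mem_Out 1 X Y hY s q0).2 a2⟩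
    · rintro e ⟨Y, d, _, rfl⟩ ho f hf hr
      obtain ⟨v, hY⟩ := hYv Y ho
      obtain ⟨_, _, m3, _, m5⟩ := hm Y v hY f
      exact m3.2 (hS.ed v f hf (m5.1 hr))
    · rcases hS.cf with ⟨v, a1, a2, a3⟩ | ⟨v, f, hf, a1, a2, a3⟩
      · obtain ⟨m1, m2, m3, _, _⟩ := hm (mkv v) v (fun u => Iff.rfl) q0
        exact ⟨_, ⟨mkv v, _, mkv_dep v, rfl⟩, mkv_one v,
          Or.inl ⟨m1.2 a1, m2.2 a2, fun h => a3 (m3.1 h)⟩⟩
      · obtain ⟨m1, m2, m3, m4, _⟩ := hm (mkv v) v (fun u => Iff.rfl) f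
        exact ⟨_, ⟨mkv v, _, mkv_dep v, rfl⟩, mkv_one v,
          Or.inr ⟨f, hf, m4.2 a1, fun h => a2 (m1.1 h), fun h => a3 (m2.1 h)⟩⟩

end Pool.Agent.W404.FP
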